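import Pool.Agent.Y566.ZG.CzMeas

set_option autoImplicit false
set_option linter.unusedSectionVars false

/-! The dichotomy for classes of pointed ordered groups over one base. -/

namespace Pool.Agent.Y566.ZG

open Set MeasureTheory
open Pool.Agent.H533R2.VO (RS RIso Dich)
open Pool.Agent.H899R2.VP (St)
open Pool.Agent.TH783.TR
open Pool.Agent.TH783.OV (SI mdec)

/-- Arities. -/
def bn : ℕ → ℕ
  | 0 => 2
  | 1 => 3
  | (_ + 2) => 1

variable {n : ℕ}

open Classical in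
/-- The relational structure of a structure. -/
noncomputable def enc (x : XS n) : RS bn
  | 0 => fun t : Fin 2 → ℕ => x.1 (t 0) (t 1)
  | 1 => fun t : Fin 3 → ℕ => decide (x.2.1 (t 0) (t 1) = t 2)
  | (i + 2) => fun t : Fin 1 → ℕ => decide (∃ h : i < n, x.2.2 ⟨i, h⟩ = t 0)

theorem enc_iff {x x' : XS n} (σ : Equiv.Perm ℕ) :
    (∀ (i : ℕ) (v : Fin (bn i) → ℕ), enc x' i (σ ∘ v) = enc x i v) ↔
    ((∀ m k, x'.1 (σ m) (σ k) = x.1 m k) ∧ (∀ m k, x'.2.1 (σ m) (σ k) = σ (x.2.1 m k)) ∧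
      ∀ i, x'.2.2 i = σ (x.2.2 i)) := by
  constructor
  · intro h
    refine ⟨?_, ?_, ?_⟩
    · intro m k
      exact h 0 (![m, k] : Fin 2 → ℕ)
    · intro m k
      have h1 := h 1 (![m, k, x.2.1 m k] : Fin 3 → ℕ)
      simp only [enc, decide_eq_decide] at h1
      exact h1.2 rfl
    · intro i
      have h1 : decide (∃ h : i.1 < n, x'.2.2 ⟨i.1, h⟩ = σ (x.2.2 i)) =
        decide (∃ h : i.1 < n, x.2.2 ⟨i.1, h⟩ = x.2.2 i) :=
        h (i.1 + 2) (fun _ : Fin 1 => x.2.2 i)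
      obtain ⟨_, h2⟩ := (decide_eq_decide.1 h1).2 ⟨i.2, rfl⟩
      exact h2
  · rintro ⟨h1, h2, h3⟩ i v
    match i, v with
    | 0, v => exact h1 _ _
    | 1, v =>
      simp only [enc, decide_eq_decide]
      show x'.2.1 (σ (v (0 : Fin 3))) (σ (v (1 : Fin 3))) = σ (v (2 : Fin 3)) ↔
        x.2.1 (v (0 : Fin 3)) (v (1 : Fin 3)) = v (2 : Fin 3)
      rw [h2, σ.injective.eq_iff]
    | i + 2, v =>
      simp only [enc, decide_eq_decide]
      constructor
      · rintro ⟨h4, h5⟩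
        rw [h3] at h5
        exact ⟨h4, σ.injective h5⟩
      · rintro ⟨h4, h5⟩
        refine ⟨h4, ?_⟩
        rw [h3, h5]
        rfl

theorem enc_iso {x x' : XS n} : RIso (enc x) (enc x') ↔ XIso x x' := by
  constructor
  · rintro ⟨σ, hσ⟩
    exact ⟨σ, (enc_iff σ).1 hσ⟩
  · rintro ⟨σ, hσ⟩
    exact ⟨σ, (enc_iff σ).2 hσ⟩

theorem enc_inj {x x' : XS n} (h : enc x = enc x') : x = x' := by
  obtain ⟨h1, h2, h3⟩ := (enc_iff (x := x) (x' := x') 1).1 (fun i v => by rw [h]; rfl)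
  refine Prod.ext ?_ (Prod.ext ?_ ?_)
  · funext m k
    exact (h1 m k).symm
  · funext m k
    exact (h2 m k).symm
  · funext i
    exact (h3 i).symm

theorem enc_meas : Measurable (enc : XS n → RS bn) := by
  refine measurable_pi_iff.2 fun i => measurable_pi_iff.2 fun t => ?_
  match i, t with
  | 0, t =>
    have h : Measurable fun x : XS n => x.1 (t (0 : Fin 2)) (t (1 : Fin 2)) :=
      measurable_pi_iff.1 (measurable_pi_iff.1 measurable_fst _) _
    exact h
  | 1, t =>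
    refine mdec ?_ _
    have h : Measurable fun x : XS n => x.2.1 (t (0 : Fin 3)) (t (1 : Fin 3)) :=
      measurable_pi_iff.1 (measurable_pi_iff.1 (measurable_fst.comp measurable_snd) _) _
    exact meqd h measurable_const
  | i + 2, t =>
    refine mdec ?_ _
    refine Measurable.exists fun h => ?_
    have h1 : Measurable fun x : XS n => x.2.2 ⟨i, h⟩ :=
      measurable_pi_iff.1 (measurable_snd.comp measurable_snd) _
    exact meqd h1 measurable_const

/-- Transport of structures. -/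
def tr (σ : Equiv.Perm ℕ) (x : XS n) : XS n :=
  (fun m k => x.1 (σ.symm m) (σ.symm k), fun m k => σ (x.2.1 (σ.symm m) (σ.symm k)),
    fun i => σ (x.2.2 i))

theorem tr_iso (σ : Equiv.Perm ℕ) (x : XS n) :
    (∀ m k, (tr σ x).1 (σ m) (σ k) = x.1 m k) ∧
    (∀ m k, (tr σ x).2.1 (σ m) (σ k) = σ (x.2.1 m k)) ∧ ∀ i, (tr σ x).2.2 i = σ (x.2.2 i) := by
  refine ⟨?_, ?_, fun i => rfl⟩
  · intro m k
    show x.1 (σ.symm (σ m)) (σ.symm (σ k)) = x.1 m k
    rw [σ.symm_apply_apply, σ.symm_apply_apply]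
  · intro m k
    show σ (x.2.1 (σ.symm (σ m)) (σ.symm (σ k))) = σ (x.2.1 m k)
    rw [σ.symm_apply_apply, σ.symm_apply_apply]

theorem enc_tr {x : XS n} {R : RS bn} (h : RIso (enc x) R) : ∃ x' : XS n, enc x' = R := by
  obtain ⟨σ, hσ⟩ := h
  refine ⟨tr σ x, ?_⟩
  funext i v
  have h1 := (enc_iff σ).2 (tr_iso σ x)
  have h3 : ⇑σ ∘ ⇑σ.symm ∘ v = v := by
    funext j
    simp
  have h4 := h1 i (σ.symm ∘ v)
  have h5 := hσ i (σ.symm ∘ v)
  rw [h3] at h4 h5
  rw [h4, h5]

theorem XIso.symm {x x' : XS n} (h : XIso x x') : XIso x' x := by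
  rw [← enc_iso] at h ⊢
  exact riso_symm h

theorem XIso.trans {x x' x'' : XS n} (h : XIso x x') (h' : XIso x' x'') : XIso x x'' := by
  rw [← enc_iso] at h h' ⊢
  exact riso_trans h h'

/-- The dichotomy. -/
def XDich (K : Set (XS n)) : Prop :=
  (∃ f : ℕ → XS n, ∀ x ∈ K, ∃ m, XIso (f m) x) ∨
  (∃ g : (ℕ → Bool) → XS n, Continuous g ∧ (∀ c, g c ∈ K) ∧ ∀ c d, XIso (g c) (g d) → c = d)

/-- The dichotomy is transferred from the codes. -/
theorem xdich_of {K : Set (XS n)} (hd : Dich (enc '' K)) : XDich K := by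
  rcases hd with ⟨f, hf⟩ | ⟨g, hg1, hg2, hg3⟩
  · left
    have hch : ∀ m, ∃ x : XS n, (∃ y ∈ K, RIso (f m) (enc y)) → enc x = f m := by
      intro m
      by_cases hn : ∃ y ∈ K, RIso (f m) (enc y)
      · obtain ⟨y, -, hy⟩ := hn
        obtain ⟨x, hx⟩ := enc_tr (riso_symm hy)
        exact ⟨x, fun _ => hx⟩
      · exact ⟨(fun _ _ => false, fun _ _ => 0, fun _ => 0), fun h => absurd h hn⟩
    choose x hx using hch
    refine ⟨x, fun y hy => ?_⟩
    obtain ⟨m, hm⟩ := hf (enc y) ⟨y, hy, rfl⟩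
    refine ⟨m, ?_⟩
    rw [← enc_iso, hx m ⟨y, hy, hm⟩]
    exact hm
  · right
    choose g' hg'1 hg'2 using hg2
    refine ⟨g', ?_, hg'1, ?_⟩
    · have hco : ∀ i t, Continuous fun c => g c i t := fun i t =>
        (continuous_apply t).comp ((continuous_apply i).comp hg1)
      have e1 : ∀ c m k, (g' c).1 m k = g c 0 (![m, k] : Fin 2 → ℕ) := by
        intro c m k
        rw [← hg'2]
        rfl
      have e2 : ∀ c m k l, (g' c).2.1 m k = l ↔ g c 1 (![m, k, l] : Fin 3 → ℕ) = true := by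
        intro c m k l
        rw [← hg'2]
        show _ ↔ decide _ = true
        rw [decide_eq_true_iff]
        exact Iff.rfl
      have e3 : ∀ c (i : Fin n) l, (g' c).2.2 i = l ↔ g c (i.1 + 2) (fun _ : Fin 1 => l) = true := by
        intro c i l
        rw [← hg'2]
        show _ ↔ decide _ = true
        rw [decide_eq_true_iff]
        exact ⟨fun h => ⟨i.2, h⟩, fun ⟨_, h⟩ => h⟩
      have cdisc : ∀ Φ : (ℕ → Bool) → ℕ, (∀ l, IsOpen {c | Φ c = l}) → Continuous Φ := by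
        intro Φ hΦ
        exact continuous_discrete_rng.2 hΦ
      refine Continuous.prodMk ?_ (Continuous.prodMk ?_ ?_)
      · refine continuous_pi fun m => continuous_pi fun k => ?_
        simp only [e1]
        exact hco 0 _
      · refine continuous_pi fun m => continuous_pi fun k => ?_
        refine cdisc _ fun l => ?_
        simp only [e2]
        exact (isOpen_discrete {true}).preimage (hco 1 _)
      · refine continuous_pi fun i => ?_
        refine cdisc _ fun l => ?_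
        simp only [e3]
        exact (isOpen_discrete {true}).preimage (hco (i.1 + 2) _)
    · intro c d h
      refine hg3 c d ?_
      rw [← hg'2 c, ← hg'2 d]
      exact enc_iso.2 h

theorem enc_image_inv {K : Set (XS n)} (hKi : ∀ x ∈ K, ∀ x', XIso x x' → x' ∈ K) :
    ∀ x y, RIso x y → (x ∈ enc '' K ↔ y ∈ enc '' K) := by
  have key : ∀ x y, RIso x y → x ∈ enc '' K → y ∈ enc '' K := by
    rintro _ y h ⟨x, hx, rfl⟩
    obtain ⟨x', rfl⟩ := enc_tr h
    exact ⟨x', hKi x hx x' (enc_iso.1 h), rfl⟩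
  exact fun x y h => ⟨key x y h, key y x (riso_symm h)⟩

variable {C : Type} [AddCommGroup C] [MeasurableSpace C] [DiscreteMeasurableSpace C] [Countable C]
  {W : Type} [AddCommGroup W] [LinearOrder W] [IsOrderedAddMonoid W] [Module ℚ W]
  {π : W →+ C} {cd : W → ℕ} {t : Fin n → W}

theorem TS.sbs [Countable W] : StandardBorelSpace (TS n C W) := by
  haveI h1 : StandardBorelSpace (Yc C × (F → Prop) × (ℕ → F) × (W → F)) := inferInstance
  haveI h2 : StandardBorelSpace (XS n) := inferInstance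
  exact @StandardBorelSpace.prod _ _ _ _ h2 h1

/-- The dichotomy for classes over one base. -/
theorem base_dich [Countable W] (hb : Bs π t) (K : Set (XS n)) (hK : MeasurableSet K)
    (hKi : ∀ x ∈ K, ∀ x', XIso x x' → x' ∈ K)
    (hcov : ∀ x ∈ K, ∃ (y : Yc C) (A : F → Prop) (h : ℕ → F) (j : W → F),
      Cz π cd t x y A h j) : XDich K := by
  classical
  obtain ⟨k, hk⟩ := exists_surjective_nat (J C)
  apply xdich_of
  set ρ : Set (RS bn × St ar2) := (fun w : TS n C W => (enc w.1, Ph k w.2.1)) ''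
    {w | Cz π cd t w.1 w.2.1 w.2.2.1 w.2.2.2.1 w.2.2.2.2} with hρ
  have hρm : ∀ R M, (R, M) ∈ ρ ↔ ∃ x y A h j, Cz π cd t x y A h j ∧ enc x = R ∧ Ph k y = M := by
    intro R M
    constructor
    · rintro ⟨⟨x, y, A, h, j⟩, h1, h2⟩
      simp only [Prod.mk.injEq] at h2
      exact ⟨x, y, A, h, j, h1, h2.1, h2.2⟩
    · rintro ⟨x, y, A, h, j, h1, rfl, rfl⟩
      exact ⟨(x, y, A, h, j), h1, rfl⟩
  have hbor : BorelSpace (RS bn × St ar2) := Prod.borelSpace
  haveI := TS.sbs (n := n) (C := C) (W := W)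
  have hpol : PolishSpace (St ar2) := {}
  have hρa : AnalyticSet ρ := by
    refine meas_Cz.analyticSet_image ?_
    exact (enc_meas.comp measurable_fst).prodMk
      ((Ph_meas k).comp (measurable_fst.comp measurable_snd))
  have hI : InvD {y : Yc C | DW π cd y} := DW.invD
  exact transfer (SI : St ar2 → St ar2 → Prop) (Ph k '' {y : Yc C | DW π cd y})
    (D_meas hk meas_DW hI) (fun y hy y' h => D_inv hk hI hy h) (vcD hk hI) ρ hρa
    (by
      rintro _ ⟨y, hy, rfl⟩
      obtain ⟨x, A, h, j, hh⟩ := cz_exists hb hy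
      exact ⟨enc x, (hρm _ _).2 ⟨x, y, A, h, j, hh, rfl, rfl⟩⟩)
    (by
      intro R R' M M' h1 h2 _ _
      obtain ⟨x, y, A, h, j, hr, rfl, rfl⟩ := (hρm _ _).1 h1
      obtain ⟨x', y', A', h', j', hr', rfl, rfl⟩ := (hρm _ _).1 h2
      rw [enc_iso]
      constructor
      · intro h3
        obtain ⟨σ, hσ⟩ := hr.iso_cz hb hr' h3
        exact ⟨σ, (Ph_iso hk hr.dw.z0 σ).2 hσ⟩
      · rintro ⟨σ, hσ⟩
        exact cz_iso_of hr hr' ((Ph_iso hk hr.dw.z0 σ).1 hσ))
    (enc '' K) (hK.image_of_measurable_injOn enc_meas (fun _ _ _ _ h => enc_inj h))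
    (enc_image_inv hKi)
    (by
      rintro _ ⟨x, hx, rfl⟩
      obtain ⟨y, A, h, j, hr⟩ := hcov x hx
      exact ⟨Ph k y, ⟨y, hr.dw, rfl⟩, (hρm _ _).2 ⟨x, y, A, h, j, hr, rfl, rfl⟩⟩)

end Pool.Agent.Y566.ZG
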