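import Pool.Agent.Y566.ZG.Fam2

set_option autoImplicit false
set_option linter.unusedSectionVars false

/-! Back-and-forth equivalence of ordered groups and the convex subgroup of a tuple. -/

namespace Pool.Agent.Y566.ZG

open Set MeasureTheory
open Pool.Agent.H533R2.VO (RS RIso Dich lift)
open Pool.Agent.H899R2.VP (St PIso BF IsoOn BF_iff zipSet idOn)
open Pool.Agent.TH783.TR

section bf

variable {x x' : XS 0} {p : Set (ℕ × ℕ)}

theorem piso_lt (h : PIso (lift (enc x)) (lift (enc x')) p) {u v : ℕ × ℕ} (hu : u ∈ p)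
    (hv : v ∈ p) : x.1 u.1 v.1 = x'.1 u.2 v.2 := by
  have h1 : enc x 0 (fun k => ((![u, v] : Fin 2 → ℕ × ℕ) k).1) =
      enc x' 0 (fun k => ((![u, v] : Fin 2 → ℕ × ℕ) k).2) :=
    (lift_piso.1 h).2 0 ![u, v] (by
      intro j
      change Fin 2 at j
      match j with
      | 0 => exact hu
      | 1 => exact hv)
  exact h1

theorem piso_ad (h : PIso (lift (enc x)) (lift (enc x')) p) {u v w : ℕ × ℕ} (hu : u ∈ p)
    (hv : v ∈ p) (hw : w ∈ p) : x.2.1 u.1 v.1 = w.1 ↔ x'.2.1 u.2 v.2 = w.2 := by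
  have h1 : decide (x.2.1 u.1 v.1 = w.1) = decide (x'.2.1 u.2 v.2 = w.2) :=
    (lift_piso.1 h).2 1 ![u, v, w] (by
      intro j
      change Fin 3 at j
      match j with
      | 0 => exact hu
      | 1 => exact hv
      | 2 => exact hw)
  exact decide_eq_decide.1 h1

/-- The pair is reached from `p`. -/
def Dp (x x' : XS 0) (p : Set (ℕ × ℕ)) (u : ℕ × ℕ) : Prop :=
  ∃ c : ℕ, ∀ q, p ⊆ q → ∀ k : ℕ,
    BF (lift (enc x)) (lift (enc x')) univ univ ((k + c : ℕ) : Ordinal.{0}) q →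
    BF (lift (enc x)) (lift (enc x')) univ univ (k : ℕ) (insert u q)

theorem Dp.mem {u : ℕ × ℕ} (hu : u ∈ p) : Dp x x' p u :=
  ⟨0, fun q hq k h => by rw [insert_eq_of_mem (hq hu)]; exact h⟩

variable {G G' : Type} [AddCommGroup G] [LinearOrder G] [IsOrderedAddMonoid G]
  [AddCommGroup G'] [LinearOrder G'] [IsOrderedAddMonoid G'] {e : ℕ ≃ G} {e' : ℕ ≃ G'}

theorem natlt (k : ℕ) : ((k : ℕ) : Ordinal.{0}) < ((k + 1 : ℕ) : Ordinal.{0}) := by
  exact_mod_cast Nat.lt_succ_self k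

theorem Dp.zero (he : Rep x.1 x.2.1 e) (he' : Rep x'.1 x'.2.1 e') :
    Dp x x' p (e.symm 0, e'.symm 0) := by
  refine ⟨1, fun q hq k h => ?_⟩
  obtain ⟨y, -, h2⟩ := h.forth (natlt k) (mem_univ (e.symm 0))
  have h3 := (piso_ad h2.piso (mem_insert _ _) (mem_insert _ _) (mem_insert _ _)).1
    (e.injective (by
      show e (x.2.1 (e.symm 0) (e.symm 0)) = e (e.symm 0)
      rw [he.add, e.apply_symm_apply, add_zero]))
  have h4 : e' y = 0 := by
    have h5 := congrArg e' h3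
    rw [he'.add] at h5
    exact add_eq_left.1 h5
  have h6 : y = e'.symm 0 := by rw [← h4, e'.symm_apply_apply]
  rw [← h6]
  exact h2

theorem Dp.add (he : Rep x.1 x.2.1 e) (he' : Rep x'.1 x'.2.1 e') {g h : G} {g' h' : G'}
    (h1 : Dp x x' p (e.symm g, e'.symm g')) (h2 : Dp x x' p (e.symm h, e'.symm h')) :
    Dp x x' p (e.symm (g + h), e'.symm (g' + h')) := by
  obtain ⟨c, hc⟩ := h1
  obtain ⟨c', hc'⟩ := h2
  refine ⟨c + c' + 1, fun q hq k hb => ?_⟩
  have h3 := hc q hq (k + 1 + c') (by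
    rw [show k + 1 + c' + c = k + (c + c' + 1) by ring]
    exact hb)
  have h4 := hc' _ (hq.trans (subset_insert _ _)) (k + 1) h3
  obtain ⟨y, -, h5⟩ := h4.forth (natlt k) (mem_univ (e.symm (g + h)))
  have h6 := (piso_ad h5.piso (u := (e.symm g, e'.symm g')) (v := (e.symm h, e'.symm h'))
    (w := (e.symm (g + h), y))
    (mem_insert_of_mem _ (mem_insert_of_mem _ (mem_insert _ _)))
    (mem_insert_of_mem _ (mem_insert _ _)) (mem_insert _ _)).1
    (e.injective (by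
      show e (x.2.1 (e.symm g) (e.symm h)) = e (e.symm (g + h))
      rw [he.add, e.apply_symm_apply, e.apply_symm_apply, e.apply_symm_apply]))
  have h7 : y = e'.symm (g' + h') := by
    refine e'.injective ?_
    rw [e'.apply_symm_apply]
    have h8 := congrArg e' h6
    rw [he'.add, e'.apply_symm_apply, e'.apply_symm_apply] at h8
    exact h8.symm
  rw [← h7]
  refine h5.subset ?_
  rintro u (hu | hu)
  · exact Or.inl hu
  · exact Or.inr (Or.inr (Or.inr hu))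

theorem Dp.neg (he : Rep x.1 x.2.1 e) (he' : Rep x'.1 x'.2.1 e') {g : G} {g' : G'}
    (h1 : Dp x x' p (e.symm g, e'.symm g')) :
    Dp x x' p (e.symm (-g), e'.symm (-g')) := by
  obtain ⟨c, hc⟩ := h1
  obtain ⟨c', hc'⟩ := Dp.zero (p := p) he he'
  refine ⟨c + c' + 1, fun q hq k hb => ?_⟩
  have h3 := hc q hq (k + 1 + c') (by
    rw [show k + 1 + c' + c = k + (c + c' + 1) by ring]
    exact hb)
  have h4 := hc' _ (hq.trans (subset_insert _ _)) (k + 1) h3
  obtain ⟨y, -, h5⟩ := h4.forth (natlt k) (mem_univ (e.symm (-g)))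
  have h6 := (piso_ad h5.piso (u := (e.symm g, e'.symm g')) (v := (e.symm (-g), y))
    (w := (e.symm 0, e'.symm 0))
    (mem_insert_of_mem _ (mem_insert_of_mem _ (mem_insert _ _)))
    (mem_insert _ _) (mem_insert_of_mem _ (mem_insert _ _))).1
    (e.injective (by
      show e (x.2.1 (e.symm g) (e.symm (-g))) = e (e.symm 0)
      rw [he.add, e.apply_symm_apply, e.apply_symm_apply, e.apply_symm_apply, add_neg_cancel]))
  have h7 : y = e'.symm (-g') := by
    refine e'.injective ?_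
    rw [e'.apply_symm_apply]
    have h8 := congrArg e' h6
    rw [he'.add, e'.apply_symm_apply, e'.apply_symm_apply] at h8
    exact (neg_eq_of_add_eq_zero_right h8).symm
  rw [← h7]
  refine h5.subset ?_
  rintro u (hu | hu)
  · exact Or.inl hu
  · exact Or.inr (Or.inr (Or.inr hu))

theorem clo_Dp (he : Rep x.1 x.2.1 e) (he' : Rep x'.1 x'.2.1 e') {v : G × G'}
    (hv : v ∈ AddSubgroup.closure ((fun u : ℕ × ℕ => (e u.1, e' u.2)) '' p)) :
    Dp x x' p (e.symm v.1, e'.symm v.2) := by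
  induction hv using AddSubgroup.closure_induction with
  | mem v hv =>
    obtain ⟨u, hu, rfl⟩ := hv
    simp only [Equiv.symm_apply_apply]
    exact Dp.mem hu
  | zero => exact Dp.zero he he'
  | add v w _ _ h1 h2 => exact h1.add he he' h2
  | neg v _ h1 => exact h1.neg he he'

theorem clo_pos (he : Rep x.1 x.2.1 e) (he' : Rep x'.1 x'.2.1 e')
    (hb : BF (lift (enc x)) (lift (enc x')) univ univ Ordinal.omega0 p) {v : G × G'}
    (hv : v ∈ AddSubgroup.closure ((fun u : ℕ × ℕ => (e u.1, e' u.2)) '' p)) :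
    0 < v.1 ↔ 0 < v.2 := by
  obtain ⟨c, hc⟩ := clo_Dp he he' hv
  obtain ⟨c', hc'⟩ := Dp.zero (p := p) he he'
  have h1 := hc p subset_rfl (0 + c') (hb.mono (Ordinal.natCast_lt_omega0 _).le)
  have h2 := hc' _ (subset_insert _ _) 0 h1
  have h3 := piso_lt h2.piso (u := (e.symm 0, e'.symm 0)) (v := (e.symm v.1, e'.symm v.2))
    (mem_insert _ _) (mem_insert_of_mem _ (mem_insert _ _))
  have h4 := he.lt (e.symm 0) (e.symm v.1)
  have h5 := he'.lt (e'.symm 0) (e'.symm v.2)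
  rw [e.apply_symm_apply, e.apply_symm_apply] at h4
  rw [e'.apply_symm_apply, e'.apply_symm_apply] at h5
  rw [← h4, ← h5, h3]

end bf

section ty

variable {G G' : Type} [AddCommGroup G] [LinearOrder G] [IsOrderedAddMonoid G]
  [AddCommGroup G'] [LinearOrder G'] [IsOrderedAddMonoid G'] {n : ℕ}

/-- The convex subgroup generated by a tuple. -/
def Hs (s : Fin n → G) : AddSubgroup G where
  carrier := {g | ∃ N : ℕ, |g| ≤ N • ∑ i, |s i|}
  zero_mem' := ⟨0, by simp⟩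
  add_mem' := by
    rintro a b ⟨N, hN⟩ ⟨M, hM⟩
    refine ⟨N + M, (abs_add_le _ _).trans ?_⟩
    rw [add_nsmul]
    exact add_le_add hN hM
  neg_mem' := by
    rintro a ⟨N, hN⟩
    exact ⟨N, by rw [abs_neg]; exact hN⟩

theorem mem_Hs {s : Fin n → G} {g : G} : g ∈ Hs s ↔ ∃ N : ℕ, |g| ≤ N • ∑ i, |s i| := Iff.rfl

theorem s_mem_Hs (s : Fin n → G) (i : Fin n) : s i ∈ Hs s := by
  refine ⟨1, ?_⟩
  rw [one_nsmul]
  exact Finset.single_le_sum (f := fun i => |s i|) (fun _ _ => abs_nonneg _) (Finset.mem_univ i)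

/-- The condition on a tuple: the group is divisible modulo the convex subgroup generated by the
tuple, and in the convex subgroup the cuts in the divisible hull of the tuple separate points. -/
structure Gd (s : Fin n → G) : Prop where
  div : ∀ (g : G) (N : ℕ), N ≠ 0 → ∃ g' w, w ∈ Hs s ∧ g = N • g' + w
  sep : ∀ a ∈ Hs s, ∀ b ∈ Hs s, a < b → ∃ (N : ℕ) (c : Fin n → ℤ), N ≠ 0 ∧
    N • a ≤ ∑ i, c i • s i ∧ ∑ i, c i • s i < N • b

/-- A subgroup of the product which preserves the order. -/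
structure TS2 (s : Fin n → G) (s' : Fin n → G') (R : AddSubgroup (G × G')) : Prop where
  pos : ∀ v ∈ R, (0 < v.1 ↔ 0 < v.2)
  s : ∀ i, (s i, s' i) ∈ R

variable {s : Fin n → G} {s' : Fin n → G'} {R : AddSubgroup (G × G')}

theorem TS2.lt (h : TS2 s s' R) {g h1 : G} {g' h1' : G'} (hg : (g, g') ∈ R) (hh : (h1, h1') ∈ R) :
    g < h1 ↔ g' < h1' := by
  have := h.pos _ (R.sub_mem hh hg)
  rw [← sub_pos, ← sub_pos (a := h1')]
  exact this

theorem TS2.abs (h : TS2 s s' R) {g : G} {g' : G'} (hg : (g, g') ∈ R) : (|g|, |g'|) ∈ R := by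
  have h0 : ((0 : G), (0 : G')) ∈ R := R.zero_mem
  rcases lt_or_ge g 0 with h1 | h1
  · have h2 := (h.lt hg h0).1 h1
    rw [abs_of_neg h1, abs_of_neg h2]
    exact R.neg_mem hg
  · have h2 : 0 ≤ g' := by
      rw [← not_lt] at h1 ⊢
      exact fun h3 => h1 ((h.lt hg h0).2 h3)
    rw [abs_of_nonneg h1, abs_of_nonneg h2]
    exact hg

theorem TS2.sum (h : TS2 s s' R) (c : Fin n → ℤ) :
    (∑ i, c i • s i, ∑ i, c i • s' i) ∈ R := by
  have h1 : (∑ i, c i • s i, ∑ i, c i • s' i) = ∑ i, c i • (s i, s' i) := by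
    rw [Prod.ext_iff]
    constructor
    · rw [Prod.fst_sum]
      rfl
    · rw [Prod.snd_sum]
      rfl
  rw [h1]
  exact R.sum_mem fun i _ => R.zsmul_mem (h.s i) _

theorem TS2.sabs (h : TS2 s s' R) (N : ℕ) :
    (N • ∑ i, |s i|, N • ∑ i, |s' i|) ∈ R := by
  have h1 : (∑ i, |s i|, ∑ i, |s' i|) = ∑ i, (|s i|, |s' i|) := by
    rw [Prod.ext_iff]
    constructor
    · rw [Prod.fst_sum]
    · rw [Prod.snd_sum]
  have h2 : (∑ i, |s i|, ∑ i, |s' i|) ∈ R := by
    rw [h1]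
    exact R.sum_mem fun i _ => h.abs (h.s i)
  exact R.nsmul_mem h2 N

theorem TS2.mem_Hs (h : TS2 s s' R) {g : G} {g' : G'} (hg : (g, g') ∈ R) :
    g ∈ Hs s ↔ g' ∈ Hs s' := by
  rw [ZG.mem_Hs, ZG.mem_Hs]
  refine exists_congr fun N => ?_
  rw [← not_lt, ← not_lt, not_iff_not]
  exact h.lt (h.sabs N) (h.abs hg)

/-- Equivalence of cuts. -/
def Ev (s : Fin n → G) (s' : Fin n → G') (g : G) (g' : G') : Prop :=
  ∀ (N : ℕ) (c : Fin n → ℤ), (∑ i, c i • s i < N • g ↔ ∑ i, c i • s' i < N • g')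

theorem TS2.ev (h : TS2 s s' R) {g : G} {g' : G'} (hg : (g, g') ∈ R) : Ev s s' g g' :=
  fun N c => h.lt (h.sum c) (R.nsmul_mem hg N)

theorem Ev.unique (hs' : Gd s') {g : G} {g' h' : G'} (h1 : Ev s s' g g') (h2 : Ev s s' g h')
    (hg : g' ∈ Hs s') (hh : h' ∈ Hs s') : g' = h' := by
  have key : ∀ {a b : G'}, Ev s s' g a → Ev s s' g b → a ∈ Hs s' → b ∈ Hs s' → ¬ a < b := by
    intro a b ha hb h3 h4 hab
    obtain ⟨N, c, -, h5, h6⟩ := hs'.sep a h3 b h4 hab
    exact absurd ((ha N c).1 ((hb N c).2 h6)) (not_lt.2 h5)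
  exact le_antisymm (not_lt.1 (key h2 h1 hh hg)) (not_lt.1 (key h1 h2 hg hh))

/-- The tuple in the convex subgroup. -/
def sH (s : Fin n → G) : Fin n → Hs s := fun i => ⟨s i, s_mem_Hs s i⟩

theorem Gd.sh (hs : Gd s) : Sh (sH s) := by
  have h1 : ∀ c : Fin n → ℤ, ((∑ i, c i • sH s i : Hs s) : G) = ∑ i, c i • s i := by
    intro c
    rw [AddSubgroup.val_finset_sum]
    rfl
  refine ⟨fun a b hab => ?_, fun w => ?_⟩
  · obtain ⟨N, c, hN, h2, h3⟩ := hs.sep a a.2 b b.2 hab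
    refine ⟨N, c, hN, ?_, ?_⟩
    · show ((N • a : Hs s) : G) ≤ ((∑ i, c i • sH s i : Hs s) : G)
      rw [h1]
      exact h2
    · show ((∑ i, c i • sH s i : Hs s) : G) < ((N • b : Hs s) : G)
      rw [h1]
      exact h3
  · obtain ⟨N, hN⟩ := w.2
    refine ⟨N, ?_⟩
    have h2 : ((N • ∑ i, |sH s i| : Hs s) : G) = N • ∑ i, |s i| := by
      rw [AddSubgroup.coe_nsmul, AddSubgroup.val_finset_sum]
      rfl
    show ((|w| : Hs s) : G) ≤ ((N • ∑ i, |sH s i| : Hs s) : G)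
    rw [h2]
    exact hN

/-- The convex subgroup embeds. -/
theorem em_of_TS2 (hs' : Gd s')
    (fw : ∀ g1 g2 : G, ∃ (g1' g2' : G') (R : AddSubgroup (G × G')), TS2 s s' R ∧
      (g1, g1') ∈ R ∧ (g2, g2') ∈ R)
    (bw : ∀ g' : G', ∃ (g : G) (R : AddSubgroup (G × G')), TS2 s s' R ∧ (g, g') ∈ R) :
    ∃ ι : Hs s →+ G', Em (sH s) s' ι := by
  have h1 : ∀ a : Hs s, ∃ g', g' ∈ Hs s' ∧ Ev s s' (a : G) g' := by
    intro a
    obtain ⟨g1', g2', R, h1, h2, -⟩ := fw a a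
    exact ⟨g1', (h1.mem_Hs h2).1 a.2, h1.ev h2⟩
  choose φ hφ1 hφ2 using h1
  have key : ∀ (a : Hs s) (g' : G') (R : AddSubgroup (G × G')), TS2 s s' R →
      ((a : G), g') ∈ R → φ a = g' := by
    intro a g' R h1 h2
    exact Ev.unique hs' (hφ2 a) (h1.ev h2) (hφ1 a) ((h1.mem_Hs h2).1 a.2)
  have hadd : ∀ a b, φ (a + b) = φ a + φ b := by
    intro a b
    obtain ⟨g1', g2', R, h1, h2, h3⟩ := fw a b
    rw [key a g1' R h1 h2, key b g2' R h1 h3]
    exact key (a + b) _ R h1 (R.add_mem h2 h3)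
  have hsur : ∀ g ∈ Hs s', ∃ a, φ a = g := by
    intro g hg
    obtain ⟨h, R, h2, h3⟩ := bw g
    exact ⟨⟨h, (h2.mem_Hs h3).2 hg⟩, key ⟨h, (h2.mem_Hs h3).2 hg⟩ g R h2 h3⟩
  refine ⟨AddMonoidHom.mk' φ hadd, ?_, ?_, ?_, ?_⟩
  · intro a ha
    obtain ⟨g1', g2', R, h1, h2, -⟩ := fw a a
    show 0 < φ a
    rw [key a g1' R h1 h2]
    exact (h1.pos _ h2).1 ha
  · intro i
    obtain ⟨g1', g2', R, h1, h2, -⟩ := fw 0 0
    exact key (sH s i) _ R h1 (h1.s i)
  · intro g a hg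
    refine hsur g ?_
    obtain ⟨N, hN⟩ := hφ1 a
    exact ⟨N, hg.trans hN⟩
  · intro g N hN
    obtain ⟨g', w, hw, h1⟩ := hs'.div g N hN
    obtain ⟨a, ha⟩ := hsur w hw
    refine ⟨g', a, ?_⟩
    show g = N • g' + φ a
    rw [ha, h1]

end ty

section comb

variable {x x' : XS 0} {G G' : Type} [AddCommGroup G] [LinearOrder G] [IsOrderedAddMonoid G]
  [AddCommGroup G'] [LinearOrder G'] [IsOrderedAddMonoid G'] {e : ℕ ≃ G} {e' : ℕ ≃ G'}
  {n : ℕ} {s s' : Fin n → ℕ}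

theorem bf_em (he : Rep x.1 x.2.1 e) (he' : Rep x'.1 x'.2.1 e')
    (hs' : Gd (fun i => e' (s' i)))
    (hb : BF (lift (enc x)) (lift (enc x')) univ univ (Order.succ (Order.succ Ordinal.omega0))
      (range fun i => (s i, s' i))) :
    ∃ ι : Hs (fun i => e (s i)) →+ G', Em (sH (fun i => e (s i))) (fun i => e' (s' i)) ι := by
  have hmk : ∀ p : Set (ℕ × ℕ), (range fun i => (s i, s' i)) ⊆ p →
      BF (lift (enc x)) (lift (enc x')) univ univ Ordinal.omega0 p →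
      ∃ R : AddSubgroup (G × G'), TS2 (fun i => e (s i)) (fun i => e' (s' i)) R ∧
        ∀ u ∈ p, (e u.1, e' u.2) ∈ R := by
    intro p hp h
    refine ⟨AddSubgroup.closure ((fun u : ℕ × ℕ => (e u.1, e' u.2)) '' p), ⟨?_, ?_⟩, ?_⟩
    · intro v hv
      exact clo_pos he he' h hv
    · intro i
      exact AddSubgroup.subset_closure ⟨(s i, s' i), hp ⟨i, rfl⟩, rfl⟩
    · intro u hu
      exact AddSubgroup.subset_closure ⟨u, hu, rfl⟩
  refine em_of_TS2 hs' ?_ ?_
  · intro g1 g2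
    obtain ⟨m1, -, h1⟩ := hb.forth (Order.lt_succ _) (mem_univ (e.symm g1))
    obtain ⟨m2, -, h2⟩ := h1.forth (Order.lt_succ _) (mem_univ (e.symm g2))
    obtain ⟨R, hR1, hR2⟩ := hmk _ ((subset_insert _ _).trans (subset_insert _ _)) h2
    refine ⟨e' m1, e' m2, R, hR1, ?_, ?_⟩
    · have := hR2 _ (mem_insert_of_mem _ (mem_insert _ _))
      simpa using this
    · have := hR2 _ (mem_insert _ _)
      simpa using this
  · intro g'
    obtain ⟨m1, -, h1⟩ := hb.back (Order.lt_succ _) (mem_univ (e'.symm g'))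
    obtain ⟨R, hR1, hR2⟩ := hmk _ (subset_insert _ _) (h1.mono (Order.le_succ _))
    refine ⟨e m1, R, hR1, ?_⟩
    have := hR2 _ (mem_insert _ _)
    simpa using this

end comb

end Pool.Agent.Y566.ZG
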