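import Pool.Agent.Y566.ZG.Exist

set_option autoImplicit false
set_option linter.unusedSectionVars false

/-! The rational vector space of homomorphisms from the rationals to a countable group. -/

namespace Pool.Agent.Y566.ZG

open Set MeasureTheory

variable (C : Type) [AddCommGroup C]

/-- Additive functions. -/
def HS : AddSubgroup (ℚ → C) where
  carrier := {f | ∀ a b, f (a + b) = f a + f b}
  zero_mem' := fun a b => by simp
  add_mem' := by
    intro f g hf hg a b
    rw [Pi.add_apply, Pi.add_apply, Pi.add_apply, hf, hg]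
    abel
  neg_mem' := by
    intro f hf a b
    rw [Pi.neg_apply, Pi.neg_apply, Pi.neg_apply, hf]
    abel

/-- Homomorphisms from the rationals to `C`. -/
def Hq : Type := HS C

instance : AddCommGroup (Hq C) := inferInstanceAs (AddCommGroup (HS C))

variable {C}

/-- Evaluation. -/
def Hq.ev (f : Hq C) (q : ℚ) : C := (show HS C from f).1 q

/-- Construction. -/
def Hq.mk (f : ℚ → C) (h : ∀ a b, f (a + b) = f a + f b) : Hq C := (⟨f, h⟩ : HS C)

@[simp] theorem Hq.ev_mk (f : ℚ → C) (h : ∀ a b, f (a + b) = f a + f b) (q : ℚ) :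
    (Hq.mk f h).ev q = f q := rfl

theorem Hq.ev_arg_add (f : Hq C) (a b : ℚ) : f.ev (a + b) = f.ev a + f.ev b :=
  (show HS C from f).2 a b

@[simp] theorem Hq.ev_add (f g : Hq C) (q : ℚ) : (f + g).ev q = f.ev q + g.ev q := rfl

@[simp] theorem Hq.ev_zero (q : ℚ) : (0 : Hq C).ev q = 0 := rfl

@[simp] theorem Hq.ev_neg (f : Hq C) (q : ℚ) : (-f).ev q = - f.ev q := rfl

theorem Hq.ext {f g : Hq C} (h : ∀ q, f.ev q = g.ev q) : f = g :=
  Subtype.ext (p := fun f => f ∈ HS C) (funext h)

theorem Hq.ev_arg_zero (f : Hq C) : f.ev 0 = 0 := by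
  have h := f.ev_arg_add 0 0
  rw [add_zero] at h
  exact left_eq_add.1 h

theorem Hq.ev_arg_neg (f : Hq C) (a : ℚ) : f.ev (-a) = - f.ev a := by
  apply eq_neg_of_add_eq_zero_left
  rw [← f.ev_arg_add, neg_add_cancel, f.ev_arg_zero]

instance : SMul ℚ (Hq C) := ⟨fun q f => Hq.mk (fun r => f.ev (q * r)) (fun a b => by
  rw [mul_add, f.ev_arg_add])⟩

@[simp] theorem Hq.ev_smul (q : ℚ) (f : Hq C) (r : ℚ) : (q • f).ev r = f.ev (q * r) := rfl

instance : Module ℚ (Hq C) where
  one_smul f := Hq.ext fun r => by rw [Hq.ev_smul, one_mul]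
  mul_smul q r f := Hq.ext fun s => by
    rw [Hq.ev_smul, Hq.ev_smul, Hq.ev_smul, ← mul_assoc, mul_comm r q]
  smul_zero q := Hq.ext fun r => rfl
  smul_add q f g := Hq.ext fun r => rfl
  add_smul q r f := Hq.ext fun s => by
    rw [Hq.ev_add, Hq.ev_smul, Hq.ev_smul, Hq.ev_smul, add_mul, f.ev_arg_add]
  zero_smul f := Hq.ext fun r => by rw [Hq.ev_smul, zero_mul, f.ev_arg_zero, Hq.ev_zero]

theorem Hq.ev_sum {ι : Type} (s : Finset ι) (f : ι → Hq C) (q : ℚ) :
    (∑ i ∈ s, f i).ev q = ∑ i ∈ s, (f i).ev q := by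
  classical
  induction s using Finset.induction_on with
  | empty => rfl
  | insert i s hi ih => rw [Finset.sum_insert hi, Finset.sum_insert hi, Hq.ev_add, ih]

variable [MeasurableSpace C] [DiscreteMeasurableSpace C] [Countable C]

instance : MeasurableSpace (Hq C) := inferInstanceAs (MeasurableSpace (HS C))

theorem Hq.measurable_ev (q : ℚ) : Measurable fun f : Hq C => f.ev q :=
  (measurable_pi_apply q).comp (measurable_subtype_coe (p := fun f : ℚ → C => f ∈ HS C))

theorem Hq.measurable_of {X : Type} [MeasurableSpace X] {f : X → Hq C}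
    (h : ∀ q, Measurable fun x => (f x).ev q) : Measurable f := by
  have h1 : Measurable fun x => (⟨(f x).ev, (show HS C from f x).2⟩ : HS C) :=
    (measurable_pi_iff.2 h).subtype_mk
  exact h1

theorem meas_add2 {X : Type} [MeasurableSpace X] {f g : X → C} (hf : Measurable f)
    (hg : Measurable g) : Measurable fun x => f x + g x :=
  (Measurable.of_discrete (f := fun p : C × C => p.1 + p.2)).comp (hf.prodMk hg)

theorem meas_HS : MeasurableSet ((HS C : Set (ℚ → C))) := by
  have h : (HS C : Set (ℚ → C)) = ⋂ a : ℚ, ⋂ b : ℚ, {f | f (a + b) = f a + f b} := by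
    ext f
    simp only [mem_iInter, mem_setOf_eq]
    exact Iff.rfl
  rw [h]
  refine MeasurableSet.iInter fun a => MeasurableSet.iInter fun b => ?_
  have h2 : ∀ q : ℚ, Measurable fun f : ℚ → C => f q := fun q => measurable_pi_apply q
  exact measurableSet_eq_fun (h2 _) (meas_add2 (h2 a) (h2 b))

instance : StandardBorelSpace (Hq C) := meas_HS.standardBorel

theorem Hq.meas_eq {X : Type} [MeasurableSpace X] {f g : X → Hq C} (hf : Measurable f)
    (hg : Measurable g) : Measurable fun x => f x = g x := by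
  rw [← measurableSet_setOfPred]
  exact measurableSet_eq_fun hf hg

theorem Hq.meas_comb {X : Type} [MeasurableSpace X] {f g : X → Hq C} (hf : Measurable f)
    (hg : Measurable g) (q r : ℚ) : Measurable fun x => q • f x + r • g x := by
  refine Hq.measurable_of fun s => ?_
  simp only [Hq.ev_add, Hq.ev_smul]
  exact meas_add2 ((Hq.measurable_ev (q * s)).comp hf) ((Hq.measurable_ev (r * s)).comp hg)

theorem Hq.meas_add {X : Type} [MeasurableSpace X] {f g : X → Hq C} (hf : Measurable f)
    (hg : Measurable g) : Measurable fun x => f x + g x := by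
  have h := Hq.meas_comb hf hg 1 1
  simp only [one_smul] at h
  exact h

theorem Hq.meas_smul {X : Type} [MeasurableSpace X] {f : X → Hq C} (hf : Measurable f) (q : ℚ) :
    Measurable fun x => q • f x := by
  refine Hq.measurable_of fun s => ?_
  simp only [Hq.ev_smul]
  exact (Hq.measurable_ev (q * s)).comp hf

end Pool.Agent.Y566.ZG
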