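import Pool.Agent.Y566.ZG.Uniq

set_option autoImplicit false
set_option linter.unusedSectionVars false

/-! Two index structures representing one ordered vector space are isomorphic. -/

namespace Pool.Agent.Y566.ZG

open Set

variable {E : Type} [AddCommGroup E] [Module ℚ E] {z z' : Z E}

/-- Ratios are determined by comparisons. -/
theorem ratio {x p x' p' : ℝ} (hp : 0 < p) (hp' : 0 < p')
    (h : ∀ a b : ℤ, (a * p < b * x ↔ a * p' < b * x')) : x / p = x' / p' := by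
  have key : ∀ {x p x' p' : ℝ}, 0 < p → 0 < p' →
      (∀ a b : ℤ, (a * p < b * x ↔ a * p' < b * x')) → ¬ x / p < x' / p' := by
    intro x p x' p' hp hp' h hlt
    obtain ⟨q, hq1, hq2⟩ := exists_rat_btwn hlt
    have hden : (0 : ℝ) < q.den := by exact_mod_cast q.den_pos
    have hqe : (q : ℝ) = q.num / q.den := by
      exact_mod_cast (Rat.num_div_den q).symm
    rw [hqe] at hq1 hq2
    rw [div_lt_div_iff₀ hp hden] at hq1
    rw [div_lt_div_iff₀ hden hp'] at hq2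
    have h1 := (h q.num q.den).2 (by push_cast; linarith)
    push_cast at h1
    linarith
  rcases lt_trichotomy (x / p) (x' / p') with h1 | h1 | h1
  · exact absurd h1 (key hp hp' h)
  · exact h1
  · exact absurd h1 (key hp' hp fun a b => (h a b).symm)

section one

variable {V : Type} [AddCommGroup V] [LinearOrder V] [IsOrderedAddMonoid V] [Module ℚ V]
  {R R' : V → ℕ → Prop}

theorem Rp.exists_abs (h : Rp z R) (hz : Z0 z) {v : V} {k : ℕ} (h1 : R v k) (h2 : z.2.1 k ≠ 0) :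
    ∃ j, sm z k j ∧ z.2.1 j = |z.2.1 k| ∧ R |v| j := by
  rcases lt_or_gt_of_ne h2 with h3 | h3
  · obtain ⟨j, h4, h5, -, h6⟩ := h.toPR.smul hz h1 (-1)
    refine ⟨j, h4, ?_, ?_⟩
    · rw [abs_of_neg h3, h5]
      push_cast
      ring
    · rw [abs_of_neg (h.neg_of hz h1 h3)]
      rw [neg_smul, one_smul] at h6
      exact h6
  · refine ⟨k, hz.refl k, (abs_of_pos h3).symm, ?_⟩
    rw [abs_of_pos (h.pos _ _ h1 h3)]
    exact h1

theorem Rp.mk_lt (h : Rp z R) (hz : Z0 z) {v w : V} {k j : ℕ} (h1 : R v k) (h2 : z.2.1 k ≠ 0)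
    (h3 : R w j) (h5 : z.1 k j = true) :
    ArchimedeanClass.mk v < ArchimedeanClass.mk w := by
  rw [ArchimedeanClass.mk_lt_mk]
  intro n
  obtain ⟨k', h6, h7, h8⟩ := h.exists_abs hz h1 h2
  have h9 : ∃ j', z.1 k j' = true ∧ R |w| j' := by
    rcases le_total 0 w with h4 | h4
    · exact ⟨j, h5, by rw [abs_of_nonneg h4]; exact h3⟩
    · obtain ⟨i, h10, -, -, h11⟩ := h.toPR.smul hz h3 (-1)
      rw [neg_smul, one_smul] at h11
      exact ⟨i, hz.lt_right h5 h10, by rw [abs_of_nonpos h4]; exact h11⟩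
  obtain ⟨j', h9, h10⟩ := h9
  obtain ⟨i, h11, h12, -, h13⟩ := h.toPR.up hz h10 (hz.lt_left h6.symm h9)
  obtain ⟨l, -, h14, -, h15⟩ := h.toPR.comb hz h8 h13 h11 1 (-(n : ℚ))
  have h16 := h.pos _ _ h15 (by
    rw [h14, h12, h7, mul_zero, add_zero, Rat.cast_one, one_mul]
    exact abs_pos.2 h2)
  rw [one_smul, neg_smul, Nat.cast_smul_eq_nsmul, ← sub_eq_add_neg, sub_pos] at h16
  exact h16

theorem Rp.mk_le (h : Rp z R) (hz : Z0 z) {v w : V} {k j : ℕ} (h1 : R v k) (h2 : z.2.1 k ≠ 0)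
    (h3 : R w j) (h4 : z.2.1 j ≠ 0) (h5 : sm z k j) :
    ArchimedeanClass.mk v ≤ ArchimedeanClass.mk w := by
  rw [ArchimedeanClass.mk_le_mk]
  obtain ⟨k', h6, h7, h8⟩ := h.exists_abs hz h1 h2
  obtain ⟨j', h9, h10, h11⟩ := h.exists_abs hz h3 h4
  have h12 : 0 < |z.2.1 k| := abs_pos.2 h2
  obtain ⟨N, hN⟩ := exists_nat_gt (|z.2.1 j| / |z.2.1 k|)
  rw [div_lt_iff₀ h12] at hN
  refine ⟨N, ?_⟩
  obtain ⟨l, -, h14, -, h15⟩ := h.toPR.comb hz h8 h11 (hz.trans h6.symm (hz.trans h5 h9)) N (-1)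
  have h16 := h.pos _ _ h15 (by
    rw [h14, h7, h10]
    push_cast
    linarith)
  rw [Nat.cast_smul_eq_nsmul, neg_smul, one_smul, ← sub_eq_add_neg, sub_pos] at h16
  exact h16.le

theorem Rp.mk_eq (h : Rp z R) (hz : Z0 z) {v w : V} {k j : ℕ} (h1 : R v k) (h2 : z.2.1 k ≠ 0)
    (h3 : R w j) (h4 : z.2.1 j ≠ 0) (h5 : sm z k j) :
    ArchimedeanClass.mk v = ArchimedeanClass.mk w :=
  le_antisymm (h.mk_le hz h1 h2 h3 h4 h5) (h.mk_le hz h3 h4 h1 h2 h5.symm)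

theorem Rp.exists_pos (h : Rp z R) (hz : Z0 z) (m : ℕ) :
    ∃ n v, sm z m n ∧ 0 < z.2.1 n ∧ R v n := by
  obtain ⟨k, h1, h2⟩ := hz.nz m
  obtain ⟨v, hv⟩ := h.sur k
  obtain ⟨j, h4, h5, h6⟩ := h.exists_abs hz hv h2
  exact ⟨j, |v|, hz.trans h1 h4, by rw [h5]; exact abs_pos.2 h2, h6⟩

/-- The archimedean class of a block. -/
noncomputable def cl (z : Z E) (R : V → ℕ → Prop) (m : ℕ) : ArchimedeanClass V :=
  open Classical in
  if h : ∃ v, ∃ n, sm z m n ∧ 0 < z.2.1 n ∧ R v n then ArchimedeanClass.mk h.choose else ⊤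

theorem Rp.cl_eq (h : Rp z R) (hz : Z0 z) {m n : ℕ} {v : V} (h1 : sm z m n) (h2 : z.2.1 n ≠ 0)
    (h3 : R v n) : cl z R m = ArchimedeanClass.mk v := by
  have h4 : ∃ v, ∃ n, sm z m n ∧ 0 < z.2.1 n ∧ R v n := by
    obtain ⟨n, v, h⟩ := h.exists_pos hz m
    exact ⟨v, n, h⟩
  unfold cl
  rw [dif_pos h4]
  obtain ⟨j, h5, h6, h7⟩ := h4.choose_spec
  exact h.mk_eq hz h7 h6.ne' h3 h2 (hz.trans h5.symm h1)

theorem Rp.cl_lt (h : Rp z R) (hz : Z0 z) {m n : ℕ} (hs : z.1 m n = true) :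
    cl z R m < cl z R n := by
  obtain ⟨k, v, h1, h2, h3⟩ := h.exists_pos hz m
  obtain ⟨j, w, h4, h5, h6⟩ := h.exists_pos hz n
  rw [h.cl_eq hz h1 h2.ne' h3, h.cl_eq hz h4 h5.ne' h6]
  exact h.mk_lt hz h3 h2.ne' h6 (hz.lt_left h1.symm (hz.lt_right hs h4))

theorem Rp.cl_congr (h : Rp z R) (hz : Z0 z) {m n : ℕ} (hs : ZG.sm z m n) :
    cl z R m = cl z R n := by
  obtain ⟨k, v, h1, h2, h3⟩ := h.exists_pos hz n
  rw [h.cl_eq hz h1 h2.ne' h3, h.cl_eq hz (hz.trans hs h1) h2.ne' h3]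

theorem Rp.lt_iff (h : Rp z R) (hz : Z0 z) {m n : ℕ} :
    z.1 m n = true ↔ cl z R m < cl z R n := by
  refine ⟨h.cl_lt hz, fun h1 => ?_⟩
  rcases trich z m n with h2 | h2 | h2
  · exact h2
  · rw [h.cl_congr hz h2] at h1
    exact absurd h1 (lt_irrefl _)
  · exact absurd h1 (h.cl_lt hz h2).not_gt

theorem Rp.sm_iff (h : Rp z R) (hz : Z0 z) {m n : ℕ} :
    ZG.sm z m n ↔ cl z R m = cl z R n := by
  refine ⟨h.cl_congr hz, fun h1 => ?_⟩
  rcases trich z m n with h2 | h2 | h2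
  · exact absurd h1 (h.cl_lt hz h2).ne
  · exact h2
  · exact absurd h1 (h.cl_lt hz h2).ne'

/-- The residues agree. -/
def Agree (z z' : Z E) (R R' : V → ℕ → Prop) : Prop :=
  ∀ v m m', R v m → R' v m' → z'.2.2 m' = z.2.2 m

theorem Agree.symm (h : Agree z z' R R') : Agree z' z R' R := fun v m m' h1 h2 => (h v m' m h2 h1).symm

/-- The correspondence. -/
def Sg (z z' : Z E) (R R' : V → ℕ → Prop) (m m' : ℕ) : Prop :=
  cl z R m = cl z' R' m' ∧ ∃ v, R v m ∧ R' v m'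

theorem Sg.symm {m m' : ℕ} (h : Sg z z' R R' m m') : Sg z' z R' R m' m := by
  obtain ⟨h1, v, h2, h3⟩ := h
  exact ⟨h1.symm, v, h3, h2⟩

theorem Sg.total' (hz : Z0 z) (hz' : Z0 z') (h : Rp z R) (h' : Rp z' R') (m : ℕ) (v : V)
    (hv : R v m) : ∃ m', cl z R m = cl z' R' m' ∧ R v m ∧ R' v m' := by
  obtain ⟨n, v0, h1, h2, h3⟩ := h.exists_pos hz m
  have h4 := h.ne_zero hz h3 h2.ne'
  obtain ⟨n', h5, h6⟩ := h'.tot v0 h4
  have h7 : cl z R m = cl z' R' n' := by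
    rw [h.cl_eq hz h1 h2.ne' h3, h'.cl_eq hz' (hz'.refl n') h5 h6]
  by_cases hv0 : v = 0
  · obtain ⟨k, h8, h9, h10⟩ := hz'.zero n'
    refine ⟨k, ?_, hv, ?_⟩
    · rw [h7, h'.cl_congr hz' h8]
    · rw [hv0, h'.zero_iff hz']
      exact ⟨h9, h10⟩
  · obtain ⟨k, h8, h9⟩ := h.tot v hv0
    obtain ⟨k', h10, h11⟩ := h'.tot v hv0
    have h12 : cl z R k = cl z' R' k' := by
      rw [h.cl_eq hz (hz.refl k) h8 h9, h'.cl_eq hz' (hz'.refl k') h10 h11]
    have h13 : ¬ z'.1 k' n' = true := by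
      intro h14
      have h15 := h'.cl_lt hz' h14
      rw [← h12, ← h7] at h15
      rcases (h.iff_of hz h9 h8 m).1 hv with h16 | ⟨h16, -⟩
      · rw [h16] at h15
        exact lt_irrefl _ h15
      · exact absurd (h.cl_lt hz h16) h15.not_gt
    rcases trich z' n' k' with h14 | h14 | h14
    · obtain ⟨j, h15, -, -, h16⟩ := h'.toPR.up hz' h11 h14
      exact ⟨j, by rw [h7, h'.cl_congr hz' h15], hv, h16⟩
    · exact ⟨k', by rw [h7, h'.cl_congr hz' h14], hv, h11⟩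
    · exact absurd h14 h13

theorem Sg.total (hz : Z0 z) (hz' : Z0 z') (h : Rp z R) (h' : Rp z' R') (m : ℕ) :
    ∃ m', Sg z z' R R' m m' := by
  obtain ⟨v, hv⟩ := h.sur m
  obtain ⟨m', h1, h2⟩ := Sg.total' hz hz' h h' m v hv
  exact ⟨m', h1, v, h2⟩

theorem Sg.unique (hz : Z0 z) (hz' : Z0 z') (h : Rp z R) (h' : Rp z' R') (ha : Agree z z' R R')
    {m m1 m2 : ℕ} (h1 : Sg z z' R R' m m1) (h2 : Sg z z' R R' m m2) : m1 = m2 := by
  obtain ⟨h3, v, h4, h5⟩ := h1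
  obtain ⟨h6, w, h7, h8⟩ := h2
  have hs : sm z' m1 m2 := (h'.sm_iff hz').2 (by rw [← h3, ← h6])
  obtain ⟨k, h9, h10, h11, h12⟩ := h.toPR.comb hz h4 h7 (hz.refl m) 1 (-1)
  obtain ⟨k', h13, h14, h15, h16⟩ := h'.toPR.comb hz' h5 h8 hs 1 (-1)
  have hr := ha _ _ _ h12 h16
  have h17 : z'.2.2 k' = 0 := by
    rw [hr, h11]
    simp
  have h18 : z'.2.1 k' = 0 := by
    by_contra h18
    have h19 := h'.ne_zero hz' h16 h18
    obtain ⟨j, h20, h21⟩ := h.tot _ h19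
    have h22 : cl z R j = cl z R k := by
      rw [h.cl_eq hz (hz.refl j) h20 h21, ← h'.cl_eq hz' (hz'.refl k') h18 h16,
        ← h'.cl_congr hz' h13, ← h3, h.cl_congr hz h9]
    rw [← h.sm_iff hz] at h22
    have h23 := h.fn _ _ _ h21 h12 h22
    rw [h23, h10] at h20
    apply h20
    push_cast
    ring
  refine hz'.inj m1 m2 hs ?_ ?_
  · rw [h14] at h18
    push_cast at h18
    linarith
  · rw [h15, one_smul, neg_smul, one_smul, ← sub_eq_add_neg, sub_eq_zero] at h17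
    exact h17

theorem sgn (hz : Z0 z) (hz' : Z0 z') (h : Rp z R) (h' : Rp z' R') {x : V} {k k' : ℕ}
    (h1 : R x k) (h2 : R' x k') (h3 : cl z R k = cl z' R' k') (h4 : 0 < z.2.1 k) :
    0 < z'.2.1 k' := by
  have h5 := h.pos _ _ h1 h4
  by_contra h6
  rcases (not_lt.1 h6).eq_or_lt with h7 | h7
  · obtain ⟨j, h8, h9⟩ := h'.tot x h5.ne'
    rcases (h'.iff_of hz' h9 h8 k').1 h2 with h10 | ⟨h10, -⟩
    · rw [h10] at h7
      exact h8 h7
    · have h11 := h'.cl_lt hz' h10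
      rw [← h3, h.cl_eq hz (hz.refl k) h4.ne' h1, h'.cl_eq hz' (hz'.refl j) h8 h9] at h11
      exact lt_irrefl _ h11
  · exact absurd (h'.neg_of hz' h2 h7) h5.not_gt

theorem skel (hz : Z0 z) (hz' : Z0 z') (h : Rp z R) (h' : Rp z' R') (ha : Agree z z' R R') :
    ∃ σ : Equiv.Perm ℕ, ZIso z z' σ ∧ ∀ v m, R v m ↔ R' v (σ m) := by
  choose f hf using Sg.total hz hz' h h'
  choose g hg using Sg.total hz' hz h' h
  have h1 : ∀ m, g (f m) = m := fun m => Sg.unique hz' hz h' h ha.symm (hg (f m)) (hf m).symm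
  have h2 : ∀ m, f (g m) = m := fun m => Sg.unique hz hz' h h' ha (hf (g m)) (hg m).symm
  have hcl : ∀ m, cl z' R' (f m) = cl z R m := fun m => (hf m).1.symm
  have hsm' : ∀ m n, sm z m n → sm z' (f m) (f n) := fun m n hs =>
    (h'.sm_iff hz').2 (by rw [hcl, hcl, h.cl_congr hz hs])
  refine ⟨⟨f, g, h1, h2⟩, ⟨?_, ?_, ?_⟩, ?_⟩
  · intro m n
    rw [Bool.eq_iff_iff]
    show z'.1 (f m) (f n) = true ↔ _
    rw [h'.lt_iff hz', h.lt_iff hz, hcl, hcl]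
  · intro m
    show ∃ c : ℝ, 0 < c ∧ ∀ n, sm z m n → z'.2.1 (f n) = c * z.2.1 n
    obtain ⟨p, -, hmp, hp, -⟩ := h.exists_pos hz m
    obtain ⟨hp1, vp, hp2, hp3⟩ := hf p
    have hp' : 0 < z'.2.1 (f p) := sgn hz hz' h h' hp2 hp3 hp1 hp
    refine ⟨z'.2.1 (f p) / z.2.1 p, div_pos hp' hp, fun n hn => ?_⟩
    obtain ⟨hn1, vn, hn2, hn3⟩ := hf n
    have hpn : sm z p n := hz.trans hmp.symm hn
    have key : z.2.1 n / z.2.1 p = z'.2.1 (f n) / z'.2.1 (f p) := by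
      refine ratio hp hp' fun a b => ?_
      obtain ⟨k, h3, h4, -, h5⟩ := h.toPR.comb hz hp2 hn2 hpn (-(a : ℚ)) b
      obtain ⟨k', h6, h7, -, h8⟩ := h'.toPR.comb hz' hp3 hn3 (hsm' _ _ hpn) (-(a : ℚ)) b
      have h9 : cl z R k = cl z' R' k' := by
        rw [← h.cl_congr hz h3, ← h'.cl_congr hz' h6, hcl]
      have h10 : 0 < z.2.1 k ↔ 0 < z'.2.1 k' :=
        ⟨sgn hz hz' h h' h5 h8 h9, sgn hz' hz h' h h8 h5 h9.symm⟩
      rw [h4, h7] at h10
      push_cast at h10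
      constructor
      · intro h11
        have := h10.1 (by linarith)
        linarith
      · intro h11
        have := h10.2 (by linarith)
        linarith
    rw [div_mul_eq_mul_div, eq_div_iff hp.ne']
    rw [div_eq_div_iff hp.ne' hp'.ne'] at key
    linarith
  · intro n
    obtain ⟨-, v, h3, h4⟩ := hf n
    exact ha _ _ _ h3 h4
  · intro v m
    show R v m ↔ R' v (f m)
    constructor
    · intro h3
      obtain ⟨m', h4, h5, h6⟩ := Sg.total' hz hz' h h' m v h3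
      rw [Sg.unique hz hz' h h' ha (hf m) ⟨h4, v, h5, h6⟩]
      exact h6
    · intro h3
      obtain ⟨m', h4, h5, h6⟩ := Sg.total' hz' hz h' h (f m) v h3
      have h7 := Sg.unique hz' hz h' h ha.symm (hf m).symm ⟨h4, v, h5, h6⟩
      rw [h7]
      exact h6

end one

end Pool.Agent.Y566.ZG
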