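import Pool.Agent.TH783.OV.Vcd
import Pool.Agent.Y566.ZG.Hq
import Pool.Agent.Y566.ZG.Skel

set_option autoImplicit false
set_option linter.unusedSectionVars false

/-! Relational coding of the index structures. -/

namespace Pool.Agent.Y566.ZG

open Set MeasureTheory
open Pool.Agent.H533R2.VO (RS RIso Dich VC lift OS Ic BlkV)
open Pool.Agent.H899R2.VP (St Adj PIso BF IsoOn BF_iff labels zipSet)
open Pool.Agent.TH783.TR
open Pool.Agent.TH783.OV (SI mdec)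

variable {C : Type} [AddCommGroup C]

/-- Index structures with colours. -/
abbrev Yc (C : Type) [AddCommGroup C] : Type := Z (Hq C) × (ℕ → ℕ → Bool)

/-- Isomorphisms of coloured index structures. -/
structure YIso (y y' : Yc C) (σ : Equiv.Perm ℕ) : Prop where
  iso : ZIso y.1 y'.1 σ
  col : ∀ m t, y'.2 (σ m) t = y.2 m t

/-- Indices of relations. -/
abbrev J (C : Type) : Type := (ℤ × ℤ) ⊕ (ℚ × C) ⊕ ℕ

/-- The relations of an index structure. -/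
def PZ (y : Yc C) : J C → ℕ → ℕ → Prop
  | Sum.inl p => fun m n => sm y.1 m n ∧ p.1 * y.1.2.1 m < p.2 * y.1.2.1 n
  | Sum.inr (Sum.inl p) => fun m n => sm y.1 m n ∧ (y.1.2.2 m).ev p.1 = p.2
  | Sum.inr (Sum.inr t) => fun m n => sm y.1 m n ∧ y.2 m t = true

/-- All arities are two. -/
def ar2 : ℕ → ℕ := fun _ => 2

open Classical in
/-- The relational structure of given relations. -/
noncomputable def mkR (k : ℕ → J C) (P : J C → ℕ → ℕ → Prop) : RS ar2 :=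
  fun i (t : Fin 2 → ℕ) => decide (P (k i) (t 0) (t 1))

theorem mkR_iff {k : ℕ → J C} (hk : Function.Surjective k) {P P' : J C → ℕ → ℕ → Prop}
    (f : ℕ → ℕ) :
    (∀ (i : ℕ) (v : Fin (ar2 i) → ℕ), mkR k P' i (f ∘ v) = mkR k P i v) ↔
    ∀ j m n, P' j (f m) (f n) ↔ P j m n := by
  constructor
  · intro h j m n
    obtain ⟨i, rfl⟩ := hk j
    have := h i (![m, n] : Fin 2 → ℕ)
    simp only [mkR, decide_eq_decide] at this
    exact this
  · intro h i v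
    simp only [mkR, decide_eq_decide]
    exact h _ _ _

theorem mkR_inj {k : ℕ → J C} (hk : Function.Surjective k) {P P' : J C → ℕ → ℕ → Prop}
    (h : mkR k P = mkR k P') : P = P' := by
  have h1 := (mkR_iff hk (P := P') (P' := P) id).1 (fun i v => by rw [h]; rfl)
  funext j m n
  exact propext (h1 j m n)

/-- The code of an index structure. -/
noncomputable def Ph (k : ℕ → J C) (y : Yc C) : St ar2 := (y.1.1, mkR k (PZ y))

theorem Z0.exists_pos {z : Z (Hq C)} (hz : Z0 z) (m : ℕ) : ∃ k, sm z m k ∧ 0 < z.2.1 k := by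
  obtain ⟨k, h1, h2⟩ := hz.nz m
  rcases lt_or_gt_of_ne h2 with h3 | h3
  · obtain ⟨j, h4, h5, -⟩ := hz.smul k (-1)
    exact ⟨j, hz.trans h1 h4, by rw [h5]; push_cast; linarith⟩
  · exact ⟨k, h1, h3⟩

theorem Ph_iso {k : ℕ → J C} (hk : Function.Surjective k) {y y' : Yc C} (hz : Z0 y.1)
    (σ : Equiv.Perm ℕ) :
    ((∀ m n, (Ph k y').1 (σ m) (σ n) = (Ph k y).1 m n) ∧
    ∀ (i : ℕ) (v : Fin (ar2 i) → ℕ), (Ph k y').2 i (⇑σ ∘ v) = (Ph k y).2 i v) ↔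
    YIso y y' σ := by
  have h := mkR_iff hk (P := PZ y) (P' := PZ y') σ
  constructor
  · rintro ⟨h1, h2⟩
    have h3 := h.1 h2
    have hs : ∀ m n, sm y'.1 (σ m) (σ n) ↔ sm y.1 m n := by
      intro m n
      unfold sm
      have h6 := h1 m n
      have h7 := h1 n m
      change y'.1.1 _ _ = y.1.1 _ _ at h6 h7
      rw [h6, h7]
    have hL : ∀ (i j : ℤ) m n, sm y.1 m n →
        (i * y.1.2.1 m < j * y.1.2.1 n ↔ i * y'.1.2.1 (σ m) < j * y'.1.2.1 (σ n)) := by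
      intro i j m n hmn
      have h6 : _ ↔ _ := h3 (Sum.inl (i, j)) m n
      constructor
      · intro h7
        exact (h6.2 ⟨hmn, h7⟩).2
      · intro h7
        exact (h6.1 ⟨(hs _ _).2 hmn, h7⟩).2
    refine ⟨⟨h1, ?_, ?_⟩, ?_⟩
    · intro m
      obtain ⟨p, hp1, hp2⟩ := hz.exists_pos m
      have hp3 : 0 < y'.1.2.1 (σ p) := by
        have := (hL 0 1 p p (hz.refl p)).1 (by simpa using hp2)
        simpa using this
      refine ⟨y'.1.2.1 (σ p) / y.1.2.1 p, div_pos hp3 hp2, fun n hn => ?_⟩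
      have hr := ratio hp2 hp3 fun a b => hL a b p n (hz.trans hp1.symm hn)
      rw [div_eq_div_iff hp2.ne' hp3.ne'] at hr
      rw [div_mul_eq_mul_div, eq_div_iff hp2.ne']
      linarith
    · intro n
      refine Hq.ext fun q => ?_
      have h6 : _ ↔ _ := h3 (Sum.inr (Sum.inl (q, (y.1.2.2 n).ev q))) n n
      exact (h6.2 ⟨hz.refl n, rfl⟩).2
    · intro m t
      have h6 : _ ↔ _ := h3 (Sum.inr (Sum.inr t)) m m
      rw [Bool.eq_iff_iff]
      exact ⟨fun h7 => (h6.1 ⟨(hs _ _).2 (hz.refl m), h7⟩).2, fun h7 => (h6.2 ⟨hz.refl m, h7⟩).2⟩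
  · intro hσ
    refine ⟨hσ.iso.ord, h.2 ?_⟩
    rintro (⟨i, j⟩ | ⟨q, c⟩ | t) m n
    · show sm y'.1 _ _ ∧ _ ↔ sm y.1 _ _ ∧ _
      rw [hσ.iso.sm]
      refine and_congr_right fun h1 => ?_
      obtain ⟨c, hc, hc2⟩ := hσ.iso.sc m
      show i * y'.1.2.1 (σ m) < j * y'.1.2.1 (σ n) ↔ i * y.1.2.1 m < j * y.1.2.1 n
      rw [hc2 n h1, hc2 m (hz.refl m), mul_left_comm, mul_left_comm (j : ℝ)]
      exact mul_lt_mul_iff_right₀ hc
    · show sm y'.1 _ _ ∧ (y'.1.2.2 (σ m)).ev q = c ↔ sm y.1 _ _ ∧ (y.1.2.2 m).ev q = c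
      rw [hσ.iso.sm, hσ.iso.res]
    · show sm y'.1 _ _ ∧ y'.2 (σ m) t = true ↔ sm y.1 _ _ ∧ y.2 m t = true
      rw [hσ.iso.sm, hσ.col]

theorem YIso.z0 {y y' : Yc C} {σ : Equiv.Perm ℕ} (hσ : YIso y y' σ) (hz : Z0 y.1) : Z0 y'.1 := by
  obtain ⟨⟨h1, h2, h3⟩, -⟩ := hσ
  have hord : ∀ m n, y'.1.1 m n = y.1.1 (σ⁻¹ m) (σ⁻¹ n) := by
    intro m n
    rw [← h1]
    simp
  have hsm : ∀ m n, sm y'.1 m n ↔ sm y.1 (σ⁻¹ m) (σ⁻¹ n) := by
    intro m n
    unfold sm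
    rw [hord, hord]
  have hsm2 : ∀ m k, sm y'.1 m (σ k) ↔ sm y.1 (σ⁻¹ m) k := by
    intro m k
    rw [hsm]
    simp
  have hres : ∀ m, y'.1.2.2 m = y.1.2.2 (σ⁻¹ m) := by
    intro m
    rw [← h3]
    simp
  have hsc : ∀ m, ∃ c : ℝ, 0 < c ∧ ∀ n, sm y'.1 m n → y'.1.2.1 n = c * y.1.2.1 (σ⁻¹ n) := by
    intro m
    obtain ⟨c, hc, hc2⟩ := h2 (σ⁻¹ m)
    refine ⟨c, hc, fun n hn => ?_⟩
    rw [← hc2 _ ((hsm _ _).1 hn)]
    simp
  have hrefl : ∀ m, sm y'.1 m m := fun m => (hsm _ _).2 (hz.refl _)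
  have hinv : ∀ k, σ⁻¹ (σ k) = k := by simp
  refine ⟨?_, ?_, ?_, ?_, ?_, ?_, ?_, ?_⟩
  · intro m
    rw [hord]
    exact hz.irr _
  · intro m n k
    rw [hord, hord, hord]
    exact hz.tr _ _ _
  · intro m n k
    rw [hord, hord, hord]
    exact hz.wk _ _ _
  · intro m n hs h4 h5
    obtain ⟨c, hc, hc2⟩ := hsc m
    rw [hc2 m (hrefl m), hc2 n hs] at h4
    rw [hres, hres] at h5
    exact σ⁻¹.injective (hz.inj _ _ ((hsm _ _).1 hs) (mul_left_cancel₀ hc.ne' h4) h5)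
  · intro m n hs q r
    obtain ⟨c, hc, hc2⟩ := hsc m
    obtain ⟨k, h4, h5, h6⟩ := hz.lin _ _ ((hsm _ _).1 hs) q r
    refine ⟨σ k, (hsm2 _ _).2 h4, ?_, ?_⟩
    · rw [hc2 _ ((hsm2 _ _).2 h4), hc2 m (hrefl m), hc2 n hs]
      rw [hinv]
      rw [h5]
      ring
    · rw [h3, h6, hres, hres]
  · intro m
    obtain ⟨c, hc, hc2⟩ := hsc m
    obtain ⟨k, h4, h5⟩ := hz.nz (σ⁻¹ m)
    refine ⟨σ k, (hsm2 _ _).2 h4, ?_⟩
    rw [hc2 _ ((hsm2 _ _).2 h4)]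
    rw [hinv]
    exact mul_ne_zero hc.ne' h5
  · intro m n h
    rw [hord] at h
    obtain ⟨c, hc, hc2⟩ := hsc m
    obtain ⟨k, h4, h5, h6⟩ := hz.up _ _ h
    refine ⟨σ k, (hsm2 _ _).2 h4, ?_, ?_⟩
    · rw [hc2 _ ((hsm2 _ _).2 h4)]
      rw [hinv]
      rw [h5, mul_zero]
    · rw [h3, h6, hres]
  · intro m h4 h5
    obtain ⟨c, hc, hc2⟩ := hsc m
    rw [hc2 m (hrefl m)] at h4
    rw [hres] at h5
    obtain ⟨n, h6, h7, h8⟩ := hz.dn _ ((mul_eq_zero.1 h4).resolve_left hc.ne') h5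
    refine ⟨σ n, ?_, ?_, ?_⟩
    · rw [hord]
      simpa using h6
    · obtain ⟨d, hd, hd2⟩ := hsc (σ n)
      rw [hd2 _ (hrefl _)]
      rw [hinv]
      exact mul_ne_zero hd.ne' h7
    · rw [h3, h8, hres]

/-- Scaling. -/
def scl (y : Yc C) (c : ℕ → ℝ) : Yc C := ((y.1.1, fun m => c m * y.1.2.1 m, y.1.2.2), y.2)

theorem scl_iso {y : Yc C} (hz : Z0 y.1) {c : ℕ → ℝ} (hc : ∀ m, 0 < c m)
    (hcs : ∀ m n, sm y.1 m n → c m = c n) : YIso y (scl y c) 1 := by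
  refine ⟨⟨fun _ _ => rfl, fun m => ⟨c m, hc m, fun n hn => ?_⟩, fun _ => rfl⟩, fun _ _ => rfl⟩
  show c n * y.1.2.1 n = c m * y.1.2.1 n
  rw [hcs m n hn]

theorem Ph_of_iso {k : ℕ → J C} (hk : Function.Surjective k) {y y' : Yc C} (hz : Z0 y.1)
    (h : YIso y y' 1) : Ph k y' = Ph k y := by
  obtain ⟨h1, h2⟩ := (Ph_iso hk hz 1).2 h
  refine Prod.ext ?_ ?_
  · funext m n
    exact h1 m n
  · funext i v
    exact h2 i v

/-- Normalised index structures. -/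
def Nm (y : Yc C) : Prop := ∀ m, (0 < y.1.2.1 m ∧ ∀ n < m, sm y.1 m n → y.1.2.1 n ≤ 0) →
  y.1.2.1 m = 1

theorem exists_nm {y : Yc C} (hz : Z0 y.1) : ∃ y', Nm y' ∧ YIso y y' 1 := by
  classical
  have hex : ∀ m, ∃ k, sm y.1 m k ∧ 0 < y.1.2.1 k := hz.exists_pos
  let p : ℕ → ℕ := fun m => Nat.find (hex m)
  have hp1 : ∀ m, sm y.1 m (p m) := fun m => (Nat.find_spec (hex m)).1
  have hp2 : ∀ m, 0 < y.1.2.1 (p m) := fun m => (Nat.find_spec (hex m)).2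
  have hps : ∀ m n, sm y.1 m n → p m = p n := by
    have key : ∀ m n, sm y.1 m n → p m ≤ p n := by
      intro m n hs
      exact Nat.find_min' (hex m) ⟨hz.trans hs (hp1 n), hp2 n⟩
    intro m n hs
    exact le_antisymm (key m n hs) (key n m hs.symm)
  let c : ℕ → ℝ := fun m => (y.1.2.1 (p m))⁻¹
  have hc : ∀ m, 0 < c m := fun m => inv_pos.2 (hp2 m)
  have hcs : ∀ m n, sm y.1 m n → c m = c n := by
    intro m n hs
    simp only [c, hps m n hs]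
  refine ⟨scl y c, ?_, scl_iso hz hc hcs⟩
  rintro m ⟨h1, h2⟩
  have h1' : 0 < y.1.2.1 m := by
    have : 0 < c m * y.1.2.1 m := h1
    exact (mul_pos_iff_of_pos_left (hc m)).1 this
  have hpm : p m = m := by
    apply le_antisymm
    · exact Nat.find_min' (hex m) ⟨hz.refl m, h1'⟩
    · by_contra hlt
      rw [not_le] at hlt
      have h3 : c (p m) * y.1.2.1 (p m) ≤ 0 := h2 (p m) hlt (hp1 m)
      exact absurd (mul_pos (hc (p m)) (hp2 m)) (not_lt.2 h3)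
  show (y.1.2.1 (p m))⁻¹ * y.1.2.1 m = 1
  rw [hpm]
  exact inv_mul_cancel₀ h1'.ne'

theorem nm_inj {k : ℕ → J C} (hk : Function.Surjective k) {y y' : Yc C} (hz : Z0 y.1)
    (hn : Nm y) (hn' : Nm y') (h : Ph k y = Ph k y') : y = y' := by
  classical
  have hσ : YIso y y' 1 := (Ph_iso hk hz 1).1 (by
    rw [← h]
    exact ⟨fun _ _ => rfl, fun _ _ => rfl⟩)
  have hz' := hσ.z0 hz
  obtain ⟨⟨h1, h2, h3⟩, h4⟩ := hσ
  simp only [Equiv.Perm.coe_one, id_eq] at h1 h2 h3 h4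
  have hsm : ∀ m n, sm y.1 m n ↔ sm y'.1 m n := by
    intro m n
    unfold sm
    rw [h1, h1]
  refine Prod.ext (Prod.ext ?_ (Prod.ext ?_ ?_)) ?_
  · funext m n
    exact (h1 m n).symm
  · funext m
    obtain ⟨c, hc, hc2⟩ := h2 m
    have hex := hz.exists_pos m
    obtain ⟨hp1, hp2⟩ := Nat.find_spec hex
    set p := Nat.find hex with hp
    have hmin : ∀ n < p, sm y.1 p n → y.1.2.1 n ≤ 0 := by
      intro n hn hpn
      by_contra hcon
      rw [not_le] at hcon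
      exact Nat.find_min hex hn ⟨hz.trans hp1 hpn, hcon⟩
    have h5 : y.1.2.1 p = 1 := hn p ⟨hp2, hmin⟩
    have h6 : y'.1.2.1 p = 1 := by
      refine hn' p ⟨?_, fun n hn hpn => ?_⟩
      · rw [hc2 p hp1]
        exact mul_pos hc hp2
      · rw [hc2 n (hz.trans hp1 ((hsm _ _).2 hpn))]
        exact mul_nonpos_of_nonneg_of_nonpos hc.le (hmin n hn ((hsm _ _).2 hpn))
    have h7 := hc2 p hp1
    rw [h5, h6, mul_one] at h7
    have h8 := hc2 m (hz.refl m)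
    rw [← h7, one_mul] at h8
    exact h8.symm
  · funext m
    exact (h3 m).symm
  · funext m t
    exact (h4 m t).symm

end Pool.Agent.Y566.ZG
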