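import Pool.Agent.Y566.ZG.Uniq

set_option autoImplicit false
set_option linter.unusedSectionVars false

/-! Every countable ordered rational vector space with a linear map has an index structure. -/

namespace Pool.Agent.Y566.ZG

open Set

section lead

variable {V : Type} [AddCommGroup V] [LinearOrder V] [IsOrderedAddMonoid V] [Module ℚ V]

theorem mk_le_smul (q : ℚ) (v : V) : ArchimedeanClass.mk v ≤ ArchimedeanClass.mk (q • v) := by
  rw [ArchimedeanClass.mk_le_mk]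
  refine ⟨q.num.natAbs, ?_⟩
  have h1 : q.den • (q • v) = q.num • v := by
    rw [← Nat.cast_smul_eq_nsmul ℚ, smul_smul, ← Int.cast_smul_eq_zsmul ℚ]
    congr 1
    rw [mul_comm]
    exact Rat.mul_den_eq_num q
  have h2 : |q.num • v| = q.num.natAbs • |v| := by
    rw [abs_zsmul, ← natCast_zsmul, Int.natCast_natAbs]
  calc |q • v| ≤ q.den • |q • v| := by
        have h3 : 1 • |q • v| ≤ q.den • |q • v| :=
          nsmul_le_nsmul_left (abs_nonneg (q • v)) q.den_pos
        rw [one_nsmul] at h3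
        exact h3
    _ = |q.den • (q • v)| := (abs_nsmul _ _).symm
    _ = q.num.natAbs • |v| := by rw [h1, h2]

/-- The elements of class at least `γ`. -/
def Lb (γ : ArchimedeanClass V) : Submodule ℚ V where
  carrier := {v | γ ≤ ArchimedeanClass.mk v}
  zero_mem' := by
    show γ ≤ ArchimedeanClass.mk 0
    rw [ArchimedeanClass.mk_zero]
    exact le_top
  add_mem' := fun {v w} h1 h2 => (le_min h1 h2).trans (ArchimedeanClass.min_le_mk_add v w)
  smul_mem' := fun q v h => h.trans (mk_le_smul q v)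

/-- The elements of class larger than `γ`. -/
def Lo (γ : ArchimedeanClass V) (hγ : γ ≠ ⊤) : Submodule ℚ V where
  carrier := {v | γ < ArchimedeanClass.mk v}
  zero_mem' := by
    show γ < ArchimedeanClass.mk 0
    rw [ArchimedeanClass.mk_zero]
    exact lt_top_iff_ne_top.2 hγ
  add_mem' := fun {v w} h1 h2 => (lt_min h1 h2).trans_le (ArchimedeanClass.min_le_mk_add v w)
  smul_mem' := fun q v h => h.trans_le (mk_le_smul q v)

theorem exists_lead (γ : ArchimedeanClass V) (hγ : γ ≠ ⊤) : ∃ φ : V → ℝ,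
    (∀ x y, γ ≤ ArchimedeanClass.mk x → γ ≤ ArchimedeanClass.mk y → ∀ q r : ℚ,
      φ (q • x + r • y) = q * φ x + r * φ y) ∧
    (∀ x, γ ≤ ArchimedeanClass.mk x → 0 < φ x → 0 < x) ∧
    (∀ x, γ ≤ ArchimedeanClass.mk x → (φ x = 0 ↔ γ < ArchimedeanClass.mk x)) := by
  classical
  obtain ⟨A, hA⟩ := Submodule.exists_isCompl (Lo γ hγ)
  have hdec : ∀ x : V, ∃ y ∈ A, x - y ∈ Lo γ hγ := by
    intro x
    have hx : x ∈ Lo γ hγ ⊔ A := by
      rw [hA.sup_eq_top]
      exact Submodule.mem_top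
    obtain ⟨a, ha, b, hb, rfl⟩ := Submodule.mem_sup.1 hx
    exact ⟨b, hb, by rw [add_sub_cancel_right]; exact ha⟩
  choose p hp1 hp2 using hdec
  have hpu : ∀ x y, y ∈ A → x - y ∈ Lo γ hγ → p x = y := by
    intro x y hy hxy
    have h1 : p x - y ∈ Lo γ hγ ⊓ A := by
      refine ⟨?_, Submodule.sub_mem _ (hp1 x) hy⟩
      have h2 := Submodule.sub_mem _ hxy (hp2 x)
      have h3 : x - y - (x - p x) = p x - y := by abel
      rw [h3] at h2
      exact h2
    rw [hA.inf_eq_bot, Submodule.mem_bot, sub_eq_zero] at h1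
    exact h1
  have hplin : ∀ x y (q r : ℚ), p (q • x + r • y) = q • p x + r • p y := by
    intro x y q r
    refine hpu _ _ (A.add_mem (A.smul_mem _ (hp1 x)) (A.smul_mem _ (hp1 y))) ?_
    have h1 := Submodule.add_mem _ (Submodule.smul_mem _ q (hp2 x)) (Submodule.smul_mem _ r (hp2 y))
    have h2 : q • (x - p x) + r • (y - p y) = q • x + r • y - (q • p x + r • p y) := by
      rw [smul_sub, smul_sub]
      abel
    rw [h2] at h1
    exact h1
  have hpB : ∀ x, x ∈ Lb γ → p x ∈ A ⊓ Lb γ := by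
    intro x hx
    refine ⟨hp1 x, ?_⟩
    have h0 : γ < ArchimedeanClass.mk (x - p x) := hp2 x
    have h1 : x - p x ∈ Lb γ := h0.le
    have h2 := Submodule.sub_mem _ hx h1
    rw [sub_sub_cancel] at h2
    exact h2
  have hmk : ∀ y ∈ A ⊓ Lb γ, y ≠ 0 → ArchimedeanClass.mk y = γ := by
    intro y hy hy0
    by_contra hne
    have h1 : y ∈ Lo γ hγ ⊓ A := ⟨lt_of_le_of_ne hy.2 (Ne.symm hne), hy.1⟩
    rw [hA.inf_eq_bot, Submodule.mem_bot] at h1
    exact hy0 h1
  have harch : Archimedean (A ⊓ Lb γ : Submodule ℚ V) := by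
    refine ⟨fun x y hy => ?_⟩
    have hy' : (0 : V) < y := hy
    have h1 : ArchimedeanClass.mk (y : V) ≤ ArchimedeanClass.mk (x : V) := by
      by_cases hx : (x : V) = 0
      · rw [hx, ArchimedeanClass.mk_zero]
        exact le_top
      · rw [hmk y y.2 hy'.ne', hmk x x.2 hx]
    rw [ArchimedeanClass.mk_le_mk] at h1
    obtain ⟨n, hn⟩ := h1
    refine ⟨n, ?_⟩
    rw [abs_of_pos hy'] at hn
    have : (x : V) ≤ ((n • y : (A ⊓ Lb γ : Submodule ℚ V)) : V) := (le_abs_self _).trans hn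
    exact this
  obtain ⟨f, hf⟩ := Archimedean.exists_orderAddMonoidHom_real_injective
    (A ⊓ Lb γ : Submodule ℚ V)
  have hmono : StrictMono f := f.monotone'.strictMono_of_injective hf
  have hf0 : f 0 = 0 := map_zero f
  refine ⟨fun x => if h : x ∈ Lb γ then f ⟨p x, hpB x h⟩ else 0, ?_, ?_, ?_⟩
  · intro x y hx hy q r
    have hx' : x ∈ Lb γ := hx
    have hy' : y ∈ Lb γ := hy
    have hxy : q • x + r • y ∈ Lb γ :=
      Submodule.add_mem _ (Submodule.smul_mem _ _ hx') (Submodule.smul_mem _ _ hy')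
    simp only [hx', hy', hxy, dif_pos]
    have h1 : (⟨p (q • x + r • y), hpB _ hxy⟩ : (A ⊓ Lb γ : Submodule ℚ V)) =
        q • ⟨p x, hpB x hx'⟩ + r • ⟨p y, hpB y hy'⟩ := Subtype.ext (hplin x y q r)
    rw [h1, map_add, map_rat_smul, map_rat_smul, Rat.smul_def, Rat.smul_def]
  · intro x hx h
    have hx' : x ∈ Lb γ := hx
    simp only [hx', dif_pos] at h
    rw [← hf0] at h
    have h1 : (0 : (A ⊓ Lb γ : Submodule ℚ V)) < ⟨p x, hpB x hx'⟩ := hmono.lt_iff_lt.1 h
    have h2 : (0 : V) < p x := h1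
    refine ArchimedeanClass.pos_of_pos_of_mk_lt h2 ?_
    rw [hmk _ (hpB x hx') h2.ne']
    exact hp2 x
  · intro x hx
    have hx' : x ∈ Lb γ := hx
    simp only [hx', dif_pos]
    constructor
    · intro h
      rw [← hf0] at h
      have h1 : p x = 0 := congrArg (fun v : (A ⊓ Lb γ : Submodule ℚ V) => (v : V)) (hf h)
      have h2 := hp2 x
      rw [h1, sub_zero] at h2
      exact h2
    · intro h
      have h1 : p x = 0 := hpu x 0 A.zero_mem (by rw [sub_zero]; exact h)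
      have h2 : (⟨p x, hpB x hx'⟩ : (A ⊓ Lb γ : Submodule ℚ V)) = 0 := Subtype.ext h1
      rw [h2, hf0]

end lead

variable {E : Type} [AddCommGroup E] [Module ℚ E]

theorem exists_index {V : Type} [AddCommGroup V] [LinearOrder V] [IsOrderedAddMonoid V]
    [Module ℚ V] [Countable V] [Nontrivial V] (ρ : V →ₗ[ℚ] E) :
    ∃ (z : Z E) (R : V → ℕ → Prop), Z0 z ∧ Rp z R ∧ ∀ v m, R v m → z.2.2 m = ρ v := by
  classical
  have hlead : ∀ γ : ArchimedeanClass V, ∃ φ : V → ℝ, γ ≠ ⊤ →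
    (∀ x y, γ ≤ ArchimedeanClass.mk x → γ ≤ ArchimedeanClass.mk y → ∀ q r : ℚ,
      φ (q • x + r • y) = q * φ x + r * φ y) ∧
    (∀ x, γ ≤ ArchimedeanClass.mk x → 0 < φ x → 0 < x) ∧
    (∀ x, γ ≤ ArchimedeanClass.mk x → (φ x = 0 ↔ γ < ArchimedeanClass.mk x)) := by
    intro γ
    by_cases hγ : γ = ⊤
    · exact ⟨fun _ => 0, fun h => absurd hγ h⟩
    · obtain ⟨φ, h⟩ := exists_lead γ hγ
      exact ⟨φ, fun _ => h⟩
  choose φ hφ using hlead
  have hsc : ∀ γ : ArchimedeanClass V, γ ≠ ⊤ → ∀ (n : ℕ) (v : V), γ ≤ ArchimedeanClass.mk v →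
      φ γ (n • v) = n * φ γ v := by
    intro γ hγ n v hv
    have h1 := (hφ γ hγ).1 v v hv hv n 0
    rw [zero_smul, add_zero, Nat.cast_smul_eq_nsmul] at h1
    rw [h1]
    push_cast
    ring
  -- the index set
  let D := {p : ArchimedeanClass V × V // p.1 ≠ ⊤ ∧ p.1 ≤ ArchimedeanClass.mk p.2}
  let pt : D → ArchimedeanClass V × ℝ × E := fun p => (p.1.1, φ p.1.1 p.1.2, ρ p.1.2)
  let I := {p // p ∈ range pt}
  have hDc : Countable D := by
    have : Countable (ArchimedeanClass V) := (ArchimedeanClass.mk_surjective V).countable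
    infer_instance
  have hIc : Countable I := (countable_range pt).to_subtype
  have hIi : Infinite I := by
    obtain ⟨v, hv⟩ := exists_ne (0 : V)
    have hv1 : ArchimedeanClass.mk v ≠ ⊤ := by
      rw [Ne, ArchimedeanClass.mk_eq_top_iff]
      exact hv
    have hle : ∀ n : ℕ, ArchimedeanClass.mk v ≤ ArchimedeanClass.mk (n • v) := by
      intro n
      rw [← Nat.cast_smul_eq_nsmul ℚ]
      exact mk_le_smul _ _
    have hφv : φ (ArchimedeanClass.mk v) v ≠ 0 := by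
      intro h
      exact lt_irrefl _ (((hφ _ hv1).2.2 v le_rfl).1 h)
    refine Infinite.of_injective (fun n : ℕ =>
      (⟨_, ⟨⟨(ArchimedeanClass.mk v, n • v), hv1, hle n⟩, rfl⟩⟩ : I)) ?_
    intro m n hmn
    have h1 : φ (ArchimedeanClass.mk v) (m • v) = φ (ArchimedeanClass.mk v) (n • v) :=
      congrArg (fun p : I => p.1.2.1) hmn
    rw [hsc _ hv1 _ _ le_rfl, hsc _ hv1 _ _ le_rfl] at h1
    exact_mod_cast mul_right_cancel₀ hφv h1
  obtain ⟨e⟩ := nonempty_equiv_of_countable (α := ℕ) (β := I)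
  have hrep : ∀ m, ∃ v, (e m).1.1 ≠ ⊤ ∧ (e m).1.1 ≤ ArchimedeanClass.mk v ∧
      φ (e m).1.1 v = (e m).1.2.1 ∧ ρ v = (e m).1.2.2 := by
    intro m
    obtain ⟨⟨p, hp⟩, hp2⟩ := (e m).2
    have h1 : (p.1, φ p.1 p.2, ρ p.2) = (e m).1 := hp2
    refine ⟨p.2, ?_, ?_, ?_, ?_⟩
    · rw [← h1]
      exact hp.1
    · rw [← h1]
      exact hp.2
    · rw [← h1]
    · rw [← h1]
  have hget : ∀ (γ : ArchimedeanClass V) (v : V), γ ≠ ⊤ → γ ≤ ArchimedeanClass.mk v →
      ∃ k, (e k).1.1 = γ ∧ (e k).1.2.1 = φ γ v ∧ (e k).1.2.2 = ρ v := by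
    intro γ v h1 h2
    refine ⟨e.symm ⟨_, ⟨⟨(γ, v), h1, h2⟩, rfl⟩⟩, ?_, ?_, ?_⟩
    · rw [Equiv.apply_symm_apply]
    · rw [Equiv.apply_symm_apply]
    · rw [Equiv.apply_symm_apply]
  set z : Z E := (fun m n => decide ((e m).1.1 < (e n).1.1), fun m => (e m).1.2.1,
    fun m => (e m).1.2.2) with hz
  have hz1 : ∀ m n, z.1 m n = true ↔ (e m).1.1 < (e n).1.1 := by
    intro m n
    rw [hz]
    exact decide_eq_true_iff
  have hz1f : ∀ m n, z.1 m n = false ↔ ¬ (e m).1.1 < (e n).1.1 := by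
    intro m n
    rw [hz]
    exact decide_eq_false_iff_not
  have hsm : ∀ m n, sm z m n ↔ (e m).1.1 = (e n).1.1 := by
    intro m n
    unfold sm
    rw [hz1f, hz1f]
    constructor
    · rintro ⟨h1, h2⟩
      exact le_antisymm (not_lt.1 h2) (not_lt.1 h1)
    · intro h1
      rw [h1]
      exact ⟨lt_irrefl _, lt_irrefl _⟩
  have hz2 : ∀ m, z.2.1 m = (e m).1.2.1 := fun m => rfl
  have hz3 : ∀ m, z.2.2 m = (e m).1.2.2 := fun m => rfl
  have hcomb : ∀ x y (γ : ArchimedeanClass V) (q r : ℚ), γ ≤ ArchimedeanClass.mk x →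
      γ ≤ ArchimedeanClass.mk y → γ ≤ ArchimedeanClass.mk (q • x + r • y) := by
    intro x y γ q r h1 h2
    exact (Lb γ).add_mem ((Lb γ).smul_mem q h1) ((Lb γ).smul_mem r h2)
  refine ⟨z, fun v m => (e m).1.1 ≤ ArchimedeanClass.mk v ∧ φ (e m).1.1 v = (e m).1.2.1 ∧
    ρ v = (e m).1.2.2, ?_, ?_, ?_⟩
  · refine ⟨?_, ?_, ?_, ?_, ?_, ?_, ?_, ?_⟩
    · intro m
      rw [hz1f]
      exact lt_irrefl _
    · intro m n k h1 h2
      rw [hz1] at h1 h2 ⊢
      exact h1.trans h2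
    · intro m n k h1
      rw [hz1] at h1
      rw [hz1, hz1]
      by_contra hcon
      push Not at hcon
      exact absurd h1 (hcon.2.trans hcon.1).not_gt
    · intro m n hs h1 h2
      rw [hsm] at hs
      apply e.injective
      exact Subtype.ext (Prod.ext hs (Prod.ext h1 h2))
    · intro m n hs q r
      rw [hsm] at hs
      obtain ⟨v, h1, h2, h3, h4⟩ := hrep m
      obtain ⟨w, h5, h6, h7, h8⟩ := hrep n
      rw [← hs] at h6 h7
      obtain ⟨k, h9, h10, h11⟩ := hget (e m).1.1 (q • v + r • w) h1 (hcomb _ _ _ _ _ h2 h6)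
      refine ⟨k, (hsm _ _).2 h9.symm, ?_, ?_⟩
      · rw [hz2, hz2, hz2, h10, (hφ _ h1).1 v w h2 h6, h3, h7]
      · rw [hz3, hz3, hz3, h11, map_add, map_smul, map_smul, h4, h8]
    · intro m
      obtain ⟨v, h1, h2, h3, h4⟩ := hrep m
      obtain ⟨w, hw⟩ := ArchimedeanClass.mk_surjective V (e m).1.1
      obtain ⟨k, h9, h10, h11⟩ := hget (e m).1.1 w h1 hw.ge
      refine ⟨k, (hsm _ _).2 h9.symm, ?_⟩
      rw [hz2, h10]
      intro h12
      have h13 := ((hφ _ h1).2.2 w hw.ge).1 h12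
      rw [hw] at h13
      exact lt_irrefl _ h13
    · intro m n h
      rw [hz1] at h
      obtain ⟨-, h1, -, -, -⟩ := hrep m
      obtain ⟨v, h5, h6, h7, h8⟩ := hrep n
      obtain ⟨k, h9, h10, h11⟩ := hget (e m).1.1 v h1 (h.le.trans h6)
      refine ⟨k, (hsm _ _).2 h9.symm, ?_, ?_⟩
      · rw [hz2, h10]
        exact ((hφ _ h1).2.2 v (h.le.trans h6)).2 (h.trans_le h6)
      · rw [hz3, h11, h8]
    · intro m h1 h2
      obtain ⟨v, h3, h4, h5, h6⟩ := hrep m
      rw [hz2, ← h5] at h1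
      rw [hz3, ← h6] at h2
      have h7 := ((hφ _ h3).2.2 v h4).1 h1
      have hv : v ≠ 0 := by
        rintro rfl
        exact h2 (map_zero ρ)
      have h8 : ArchimedeanClass.mk v ≠ ⊤ := by
        rw [Ne, ArchimedeanClass.mk_eq_top_iff]
        exact hv
      obtain ⟨k, h9, h10, h11⟩ := hget (ArchimedeanClass.mk v) v h8 le_rfl
      refine ⟨k, ?_, ?_, ?_⟩
      · rw [hz1, h9]
        exact h7
      · rw [hz2, h10]
        intro h12
        exact lt_irrefl _ (((hφ _ h8).2.2 v le_rfl).1 h12)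
      · rw [hz3, hz3, h11, h6]
  · refine ⟨⟨⟨?_, ?_, ?_⟩, ?_, ?_⟩, ?_⟩
    · rintro v w m n ⟨h1, h2, h3⟩ ⟨h4, h5, h6⟩ hs q r k hk ha hw
      rw [hsm] at hs hk
      obtain ⟨-, h7, -, -, -⟩ := hrep m
      rw [← hs] at h4 h5
      refine ⟨?_, ?_, ?_⟩
      · rw [← hk]
        exact hcomb _ _ _ _ _ h1 h4
      · rw [← hk, (hφ _ h7).1 v w h1 h4, h2, h5]
        exact ha.symm
      · rw [map_add, map_smul, map_smul, h3, h6]
        exact hw.symm
    · rintro v m k ⟨h1, h2, h3⟩ h4 h5 h6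
      rw [hz1] at h4
      obtain ⟨-, h7, -, -, -⟩ := hrep k
      refine ⟨h4.le.trans h1, ?_, ?_⟩
      · rw [((hφ _ h7).2.2 v (h4.le.trans h1)).2 (h4.trans_le h1)]
        exact h5.symm
      · rw [h3]
        exact h6.symm
    · rintro v m n ⟨h1, h2, h3⟩ ⟨h4, h5, h6⟩ hs
      rw [hsm] at hs
      apply e.injective
      refine Subtype.ext (Prod.ext hs (Prod.ext ?_ ?_))
      · rw [← h2, ← h5, hs]
      · rw [← h3, ← h6]
    · intro v hv
      have h8 : ArchimedeanClass.mk v ≠ ⊤ := by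
        rw [Ne, ArchimedeanClass.mk_eq_top_iff]
        exact hv
      obtain ⟨k, h9, h10, h11⟩ := hget (ArchimedeanClass.mk v) v h8 le_rfl
      refine ⟨k, ?_, ?_, ?_, ?_⟩
      · rw [hz2, h10]
        intro h12
        exact lt_irrefl _ (((hφ _ h8).2.2 v le_rfl).1 h12)
      · rw [h9]
      · rw [h9, h10]
      · rw [h11]
    · rintro v m ⟨h1, h2, h3⟩ h4
      obtain ⟨-, h7, -, -, -⟩ := hrep m
      refine (hφ _ h7).2.1 v h1 ?_
      rw [h2]
      exact h4
    · intro m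
      obtain ⟨v, h3, h4, h5, h6⟩ := hrep m
      exact ⟨v, h4, h5, h6⟩
  · rintro v m ⟨h1, h2, h3⟩
    exact h3.symm

end Pool.Agent.Y566.ZG
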