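import Mathlib

set_option autoImplicit false
set_option linter.unusedSectionVars false

/-! Extension of homomorphisms from subgroups to rational vector spaces. -/

namespace Pool.Agent.Y566.ZG

open Set

variable {V V' : Type} [AddCommGroup V] [LinearOrder V] [IsOrderedAddMonoid V] [Module ℚ V]
  [AddCommGroup V'] [LinearOrder V'] [IsOrderedAddMonoid V'] [Module ℚ V']

theorem nsmul_cancel {N : ℕ} (hN : N ≠ 0) {a b : V} (h : N • a = N • b) : a = b := by
  rw [← Nat.cast_smul_eq_nsmul ℚ, ← Nat.cast_smul_eq_nsmul ℚ] at h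
  have h1 : (N : ℚ) ≠ 0 := by exact_mod_cast hN
  have h2 := congrArg (fun x => (N : ℚ)⁻¹ • x) h
  simp only [smul_smul, inv_mul_cancel₀ h1, one_smul] at h2
  exact h2

/-- Extension of a strictly monotone homomorphism. -/
theorem exists_ext (G : AddSubgroup V) (hG : ∀ v, ∃ N : ℕ, N ≠ 0 ∧ N • v ∈ G) (f : G →+ V')
    (hf : ∀ g : G, 0 < (g : V) → 0 < f g) : ∃ F : V →ₗ[ℚ] V', (∀ g : G, F g = f g) ∧
      ∀ v w, F v < F w ↔ v < w := by
  choose N hN1 hN2 using hG
  let F0 : V → V' := fun v => (N v : ℚ)⁻¹ • f ⟨N v • v, hN2 v⟩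
  have key : ∀ (v : V) (M : ℕ) (hM : M • v ∈ G), M • F0 v = f ⟨M • v, hM⟩ := by
    intro v M hM
    have h1 : (N v : ℚ) ≠ 0 := by exact_mod_cast hN1 v
    apply nsmul_cancel (hN1 v)
    have h2 : N v • F0 v = f ⟨N v • v, hN2 v⟩ := by
      rw [← Nat.cast_smul_eq_nsmul ℚ]
      show (N v : ℚ) • ((N v : ℚ)⁻¹ • f ⟨N v • v, hN2 v⟩) = _
      rw [smul_smul, mul_inv_cancel₀ h1, one_smul]
    rw [smul_comm (N v) M, h2, ← map_nsmul, ← map_nsmul]
    congr 1
    apply Subtype.ext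
    show M • (N v • v) = N v • (M • v)
    rw [smul_comm]
  have hadd : ∀ v w, F0 (v + w) = F0 v + F0 w := by
    intro v w
    have hv : (N v * N w) • v ∈ G := by
      rw [mul_comm, mul_smul]
      exact G.nsmul_mem (hN2 v) _
    have hw : (N v * N w) • w ∈ G := by
      rw [mul_smul]
      exact G.nsmul_mem (hN2 w) _
    have hvw : (N v * N w) • (v + w) ∈ G := by
      rw [smul_add]
      exact G.add_mem hv hw
    apply nsmul_cancel (mul_ne_zero (hN1 v) (hN1 w))
    rw [key _ _ hvw, smul_add (N v * N w) (F0 v) (F0 w), key _ _ hv, key _ _ hw, ← map_add]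
    congr 1
    apply Subtype.ext
    show _ = (N v * N w) • v + (N v * N w) • w
    rw [← smul_add]
  have hpos : ∀ v, 0 < v → 0 < F0 v := by
    intro v hv
    have h1 : 0 < f ⟨N v • v, hN2 v⟩ := hf _ (nsmul_pos hv (hN1 v))
    rw [← key v (N v) (hN2 v)] at h1
    by_contra hcon
    rw [not_lt] at hcon
    exact absurd (nsmul_nonpos hcon (N v)) (not_le.2 h1)
  let F1 : V →+ V' := AddMonoidHom.mk' F0 hadd
  refine ⟨F1.toRatLinearMap, ?_, ?_⟩
  · intro g
    show F0 g = f g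
    have h1 := key (g : V) 1 (by rw [one_smul]; exact g.2)
    rw [one_smul] at h1
    rw [h1]
    congr 1
    apply Subtype.ext
    show 1 • (g : V) = g
    rw [one_smul]
  · intro v w
    show F0 v < F0 w ↔ v < w
    have hneg : ∀ v, F0 (-v) = - F0 v := fun v => map_neg F1 v
    have hmono : ∀ v w, v < w → F0 v < F0 w := by
      intro v w h
      have h1 := hpos (w - v) (sub_pos.2 h)
      rw [sub_eq_add_neg, hadd, hneg, ← sub_eq_add_neg, sub_pos] at h1
      exact h1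
    refine ⟨fun h => ?_, hmono v w⟩
    by_contra hcon
    rcases (not_lt.1 hcon).eq_or_lt with h1 | h1
    · rw [h1] at h
      exact lt_irrefl _ h
    · exact absurd (hmono _ _ h1) h.not_gt

theorem ext_surj (G : AddSubgroup V) (f : G →+ V') (F : V →ₗ[ℚ] V') (hF : ∀ g : G, F g = f g)
    (hs : ∀ v', ∃ N : ℕ, N ≠ 0 ∧ ∃ g : G, f g = N • v') : Function.Surjective F := by
  intro v'
  obtain ⟨N, hN, g, hg⟩ := hs v'
  have h1 : (N : ℚ) ≠ 0 := by exact_mod_cast hN
  refine ⟨(N : ℚ)⁻¹ • (g : V), ?_⟩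
  rw [map_smul, hF, hg, ← Nat.cast_smul_eq_nsmul ℚ, smul_smul, inv_mul_cancel₀ h1, one_smul]

end Pool.Agent.Y566.ZG
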