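import Pool.Agent.Y566.ZG.DW
import Pool.Agent.Y566.ZG.Ext

set_option autoImplicit false
set_option linter.unusedSectionVars false

/-! The correspondence between pointed ordered groups and marked index structures. -/

namespace Pool.Agent.Y566.ZG

open Set

/-- Structures on `ℕ` with an order, an addition and constants. -/
abbrev XS (n : ℕ) : Type := (ℕ → ℕ → Bool) × (ℕ → ℕ → ℕ) × (Fin n → ℕ)

/-- Isomorphism. -/
def XIso {n : ℕ} (x x' : XS n) : Prop := ∃ τ : Equiv.Perm ℕ,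
  (∀ m k, x'.1 (τ m) (τ k) = x.1 m k) ∧ (∀ m k, x'.2.1 (τ m) (τ k) = τ (x.2.1 m k)) ∧
  ∀ i, x'.2.2 i = τ (x.2.2 i)

variable {C : Type} [AddCommGroup C]
  {W : Type} [AddCommGroup W] [LinearOrder W] [IsOrderedAddMonoid W] [Module ℚ W]

/-- Positive elements of the ambient space. -/
def Ps (z : Z (Hq C)) (c : F) : Prop := ∃ k, 0 < z.2.1 k ∧ Rc z c k

/-- The pointed ordered group `x` is coded by the index structure `y`, through the space `A`, the
map `h` from `x` to `A` and the map `j` from the base to `A`. -/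
structure Cz {n : ℕ} (π : W →+ C) (cd : W → ℕ) (t : Fin n → W) (x : XS n) (y : Yc C) (A : F → Prop)
    (h : ℕ → F) (j : W → F) : Prop where
  dw : DW π cd y
  zero : A 0
  add : ∀ c d, A c → A d → A (c + d)
  smul : ∀ (q : ℚ) c, A c → A (q • c)
  tot : ∀ c, A c → c ≠ 0 → ∃ k, y.1.2.1 k ≠ 0 ∧ Rc y.1 c k
  sur : ∀ m, ∃ c, A c ∧ Rc y.1 c m
  hA : ∀ m, A (h m)
  hinj : ∀ m k, h m = h k → m = k
  hlt : ∀ m k, x.1 m k = true ↔ Ps y.1 (h k - h m)
  hadd : ∀ m k, h (x.2.1 m k) = h m + h k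
  himg : ∀ c, A c → ((∃ m, h m = c) ↔ (Rho y.1 c).ev 1 = 0)
  jA : ∀ w, A (j w)
  jlin : ∀ (q r : ℚ) (w w' : W), j (q • w + r • w') = q • j w + r • j w'
  jmk : ∀ w m, Mk cd y w m ↔ Rc y.1 (j w) m
  jconv : ∀ c, A c → ∀ k, y.1.2.1 k ≠ 0 → Rc y.1 c k → ∀ w m, Mk cd y w m → y.1.2.1 m ≠ 0 →
    (sm y.1 m k ∨ y.1.1 m k = true) → ∃ w', j w' = c
  js : ∀ i, h (x.2.2 i) = j (t i)

variable {n : ℕ} {π : W →+ C} {cd : W → ℕ} {t : Fin n → W} {x x' : XS n} {y y' : Yc C}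
  {A A' : F → Prop} {h h' : ℕ → F} {j j' : W → F}

/-- The subspace. -/
def Cz.sub (hc : Cz π cd t x y A h j) : Submodule ℚ F where
  carrier := {c | A c}
  zero_mem' := hc.zero
  add_mem' := fun {_ _} h1 h2 => hc.add _ _ h1 h2
  smul_mem' := fun q _ h1 => hc.smul q _ h1

theorem Cz.gen (hc : Cz π cd t x y A h j) : Gen y.1 hc.sub :=
  ⟨fun c h1 h2 => hc.tot c h1 h2, fun m => hc.sur m⟩

/-- The elements of the group. -/
def Cz.H (hc : Cz π cd t x y A h j) (m : ℕ) : MA hc.sub := MA.of (h m) (hc.hA m)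

/-- The elements of the base. -/
def Cz.J (hc : Cz π cd t x y A h j) (w : W) : MA hc.sub := MA.of (j w) (hc.jA w)

theorem Cz.J_lin (hc : Cz π cd t x y A h j) (q r : ℚ) (w w' : W) :
    hc.J (q • w + r • w') = q • hc.J w + r • hc.J w' := MA.ext (hc.jlin q r w w')

theorem Cz.J_add (hc : Cz π cd t x y A h j) (w w' : W) : hc.J (w + w') = hc.J w + hc.J w' := by
  have := hc.J_lin 1 1 w w'
  simpa using this

theorem Cz.J_smul (hc : Cz π cd t x y A h j) (q : ℚ) (w : W) : hc.J (q • w) = q • hc.J w := by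
  have := hc.J_lin q 0 w w
  simpa using this

/-- The map from the base as a linear map. -/
noncomputable def Cz.JL (hc : Cz π cd t x y A h j) : W →ₗ[ℚ] MA hc.sub where
  toFun := hc.J
  map_add' := hc.J_add
  map_smul' := hc.J_smul

theorem Cz.res_J (hc : Cz π cd t x y A h j) (w : W) : Rho y.1 (j w) = rW π w := by
  by_cases hw : w = 0
  · have h1 : j 0 = 0 := by
      have := hc.jlin 0 0 0 0
      simpa using this
    rw [hw, h1, map_zero]
    refine Hq.ext fun q => ?_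
    rw [rW_ev, smul_zero, map_zero, Hq.ev_zero]
  · obtain ⟨k, h1, h2⟩ := hc.dw.rq.tot w hw
    rw [← hc.dw.res w k h2]
    exact ((hc.jmk w k).1 h2).2.2

section ord

variable (hc : Cz π cd t x y A h j) [LinearOrder (MA hc.sub)] [IsOrderedAddMonoid (MA hc.sub)]

theorem Cz.J_pos (hR : Rp y.1 (RA y.1 hc.sub)) {w : W} (hw : 0 < w) : 0 < hc.J w := by
  obtain ⟨k, h1, h2⟩ := hc.dw.rq.tot w hw.ne'
  have h3 := (hc.dw.rq.pos_iff hc.dw.z0 h2 h1).1 hw
  exact hR.pos _ k ((hc.jmk w k).1 h2) h3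

theorem Cz.J_mono (hR : Rp y.1 (RA y.1 hc.sub)) {w w' : W} (hw : w < w') : hc.J w < hc.J w' := by
  have h1 := hc.J_pos hR (sub_pos.2 hw)
  have h2 : hc.J (w' - w) = hc.J w' - hc.J w := by
    have := hc.J_lin 1 (-1) w' w
    simpa [sub_eq_add_neg] using this
  rw [h2, sub_pos] at h1
  exact h1

theorem Cz.J_abs (hR : Rp y.1 (RA y.1 hc.sub)) (w : W) : hc.J |w| = |hc.J w| := by
  have h0 : hc.J 0 = 0 := by
    have := hc.J_smul 0 0
    simpa using this
  rcases lt_trichotomy w 0 with h1 | h1 | h1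
  · have h2 : hc.J (-w) = - hc.J w := by
      have := hc.J_smul (-1) w
      simpa using this
    have h3 := hc.J_mono hR h1
    rw [h0] at h3
    rw [abs_of_neg h1, abs_of_neg h3, h2]
  · rw [h1, abs_zero, h0, abs_zero]
  · rw [abs_of_pos h1, abs_of_pos (hc.J_pos hR h1)]

/-- Convexity of the image of the base. -/
theorem Cz.J_conv (hR : Rp y.1 (RA y.1 hc.sub)) {v : MA hc.sub} {w : W} (hv : |v| ≤ |hc.J w|) :
    ∃ w', hc.J w' = v := by
  by_cases hv0 : v = 0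
  · refine ⟨0, ?_⟩
    have := hc.J_smul 0 0
    rw [hv0]
    simpa using this
  have hJ0 : hc.J w ≠ 0 := by
    intro h0
    rw [h0, abs_zero] at hv
    exact hv0 (abs_eq_zero.1 (le_antisymm hv (abs_nonneg _)))
  have hw0 : w ≠ 0 := by
    rintro rfl
    apply hJ0
    have := hc.J_smul 0 0
    simpa using this
  obtain ⟨k, h1, h2⟩ := hR.tot v hv0
  obtain ⟨m, h3, h4⟩ := hc.dw.rq.tot w hw0
  have h5 : RA y.1 hc.sub (hc.J w) m := (hc.jmk w m).1 h4
  have h6 : ¬ y.1.1 k m = true := by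
    intro h6
    have h7 := hR.mk_lt hc.dw.z0 h2 h1 h5 h6
    rw [ArchimedeanClass.mk_lt_mk] at h7
    have h8 := h7 1
    rw [one_nsmul] at h8
    exact absurd h8 (not_lt.2 hv)
  obtain ⟨w', h7⟩ := hc.jconv v.val v.mem k h1 h2 w m h4 h3 (by
    rcases trich y.1 m k with h7 | h7 | h7
    · exact Or.inr h7
    · exact Or.inl h7
    · exact absurd h7 h6)
  exact ⟨w', MA.ext h7⟩

end ord

/-- Residues are preserved. -/
theorem res_of_R {z z' : Z (Hq C)} {A A' : Submodule ℚ F} {σ : Equiv.Perm ℕ} (hσ : ZIso z z' σ)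
    (hA : Gen z A) (θ : MA A → MA A') (h0 : θ 0 = 0)
    (hθ : ∀ v m, RA z A v m → RA z' A' (θ v) (σ m)) (v : MA A) :
    Rho z' (θ v).val = Rho z v.val := by
  by_cases hv : v = 0
  · rw [hv, h0, MA.val_zero, MA.val_zero, map_zero, map_zero]
  · obtain ⟨k, h1, h2⟩ := hA.tot v.val v.mem (fun h => hv (MA.ext h))
    have h3 := hθ v k h2
    rw [h3.2.2, h2.2.2, hσ.res]

theorem cz_iso_of [Countable W] (hc : Cz π cd t x y A h j) (hc' : Cz π cd t x' y' A' h' j')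
    {σ : Equiv.Perm ℕ} (hσ : YIso y y' σ) : XIso x x' := by
  classical
  have hz := hc.dw.z0
  have hz' := hc'.dw.z0
  obtain ⟨i1, i2, hR, hlt⟩ := model hz hc.gen
  obtain ⟨i1', i2', hR', hlt'⟩ := model hz' hc'.gen
  let P₀ : Submodule ℚ (MA hc.sub × MA hc'.sub) :=
    Submodule.span ℚ (range fun i => (hc.J (t i), hc'.J (t i)))
  have hfd : FiniteDimensional ℚ P₀ := FiniteDimensional.span_of_finite ℚ (finite_range _)
  have hP : ∀ p ∈ P₀, ∃ w, p = (hc.J w, hc'.J w) := by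
    intro p hp
    have h1 : P₀ ≤ LinearMap.range (hc.JL.prod hc'.JL) := by
      refine Submodule.span_le.2 ?_
      rintro _ ⟨i, rfl⟩
      exact ⟨t i, rfl⟩
    obtain ⟨w, hw⟩ := h1 hp
    exact ⟨w, hw.symm⟩
  have hP₀ : Tot y.1 (R2 (RA y.1 hc.sub) (RA y'.1 hc'.sub) σ) P₀ := by
    intro p hp hp0
    obtain ⟨w, rfl⟩ := hP p hp
    have hw : w ≠ 0 := by
      rintro rfl
      apply hp0
      have h1 := hc.JL.map_zero
      have h2 := hc'.JL.map_zero
      exact Prod.ext h1 h2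
    obtain ⟨k, h1, h2⟩ := hc.dw.rq.tot w hw
    exact ⟨k, h1, (hc.jmk w k).1 h2, (hc'.jmk w _).1 ((Mk_iso hσ w k).2 h2)⟩
  obtain ⟨θ, h1, h2, h3, h4⟩ := unique hz hz' hR hR' hσ.iso P₀ hP₀
  have h0 : θ 0 = 0 := by
    have := h1 0 0
    rw [add_zero] at this
    exact left_eq_add.1 this
  have hres := res_of_R hσ.iso hc.gen θ h0 (fun v m => (h3 v m).1)
  have hts : ∀ i, θ (hc.J (t i)) = hc'.J (t i) := fun i =>
    h4 (hc.J (t i), hc'.J (t i)) (Submodule.subset_span ⟨i, rfl⟩)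
  have fw : ∀ m, ∃ m', hc'.H m' = θ (hc.H m) := by
    intro m
    have h5 : (Rho y'.1 (θ (hc.H m)).val).ev 1 = 0 := by
      rw [hres]
      exact (hc.himg (h m) (hc.hA m)).1 ⟨m, rfl⟩
    obtain ⟨m', h6⟩ := (hc'.himg _ (θ (hc.H m)).mem).2 h5
    exact ⟨m', MA.ext h6⟩
  have bw : ∀ m', ∃ m, hc'.H m' = θ (hc.H m) := by
    intro m'
    obtain ⟨v, hv⟩ := θ.surjective (hc'.H m')
    have h5 : (Rho y.1 v.val).ev 1 = 0 := by
      rw [← hres, hv]
      exact (hc'.himg (h' m') (hc'.hA m')).1 ⟨m', rfl⟩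
    obtain ⟨m, h6⟩ := (hc.himg _ v.mem).2 h5
    have h7 : hc.H m = v := MA.ext h6
    exact ⟨m, by rw [h7, hv]⟩
  have hHi : ∀ m k, hc.H m = hc.H k → m = k := fun m k h5 => hc.hinj m k (congrArg MA.val h5)
  have hHi' : ∀ m k, hc'.H m = hc'.H k → m = k := fun m k h5 => hc'.hinj m k (congrArg MA.val h5)
  choose f hf using fw
  choose g hg using bw
  have hgf : ∀ m, g (f m) = m := by
    intro m
    apply hHi
    apply θ.injective
    rw [← hg, ← hf]
  have hfg : ∀ m, f (g m) = m := by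
    intro m
    apply hHi'
    rw [hf, ← hg]
  refine ⟨⟨f, g, hgf, hfg⟩, ?_, ?_, ?_⟩
  · intro m k
    show x'.1 (f m) (f k) = x.1 m k
    rw [Bool.eq_iff_iff, hc.hlt, hc'.hlt]
    have h5 := hlt (hc.H m) (hc.H k)
    have h6 := hlt' (hc'.H (f m)) (hc'.H (f k))
    rw [hf, hf, h2] at h6
    have h7 : Ps y'.1 (h' (f k) - h' (f m)) ↔ ∃ i, 0 < y'.1.2.1 i ∧
        Rc y'.1 ((θ (hc.H k)).val - (θ (hc.H m)).val) i := by
      rw [← hf, ← hf]
      exact Iff.rfl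
    rw [h7, ← h6]
    exact h5
  · intro m k
    show x'.2.1 (f m) (f k) = f (x.2.1 m k)
    apply hHi'
    rw [hf]
    have h5 : hc.H (x.2.1 m k) = hc.H m + hc.H k := MA.ext (hc.hadd m k)
    have h6 : hc'.H (x'.2.1 (f m) (f k)) = hc'.H (f m) + hc'.H (f k) := MA.ext (hc'.hadd _ _)
    rw [h5, h6, h1, hf, hf]
  · intro i
    show x'.2.2 i = f (x.2.2 i)
    apply hHi'
    rw [hf]
    have h5 : hc.H (x.2.2 i) = hc.J (t i) := MA.ext (hc.js i)
    have h6 : hc'.H (x'.2.2 i) = hc'.J (t i) := MA.ext (hc'.js i)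
    rw [h5, h6, hts]

end Pool.Agent.Y566.ZG
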