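import Pool.Agent.Y566.ZG.Cz

set_option autoImplicit false
set_option linter.unusedSectionVars false

/-! Isomorphic pointed ordered groups have isomorphic index structures. -/

namespace Pool.Agent.Y566.ZG

open Set

variable {C : Type} [AddCommGroup C]
  {W : Type} [AddCommGroup W] [LinearOrder W] [IsOrderedAddMonoid W] [Module ℚ W]
  {n : ℕ} {π : W →+ C} {cd : W → ℕ} {t : Fin n → W} {x x' : XS n} {y y' : Yc C}
  {A A' : F → Prop} {h h' : ℕ → F} {j j' : W → F}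

/-- The group coded by `x` inside the space. -/
noncomputable def Cz.G (hc : Cz π cd t x y A h j) : AddSubgroup (MA hc.sub) where
  carrier := {v | (Rho y.1 v.val).ev 1 = 0}
  zero_mem' := by
    show (Rho y.1 (0 : MA hc.sub).val).ev 1 = 0
    rw [MA.val_zero, map_zero, Hq.ev_zero]
  add_mem' := by
    intro v w hv hw
    show (Rho y.1 (v + w).val).ev 1 = 0
    have hv' : (Rho y.1 v.val).ev 1 = 0 := hv
    have hw' : (Rho y.1 w.val).ev 1 = 0 := hw
    rw [MA.val_add, map_add, Hq.ev_add, hv', hw', add_zero]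
  neg_mem' := by
    intro v hv
    have hv' : (Rho y.1 v.val).ev 1 = 0 := hv
    show (Rho y.1 (-v).val).ev 1 = 0
    have h1 : (-v).val = - v.val := rfl
    rw [h1, map_neg, Hq.ev_neg, hv', neg_zero]

theorem Cz.mem_G (hc : Cz π cd t x y A h j) {v : MA hc.sub} :
    v ∈ hc.G ↔ (Rho y.1 v.val).ev 1 = 0 := Iff.rfl

theorem Cz.H_mem (hc : Cz π cd t x y A h j) (m : ℕ) : hc.H m ∈ hc.G :=
  (hc.himg (h m) (hc.hA m)).1 ⟨m, rfl⟩

theorem Cz.exists_H (hc : Cz π cd t x y A h j) {v : MA hc.sub} (hv : v ∈ hc.G) :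
    ∃ m, hc.H m = v := by
  obtain ⟨m, h1⟩ := (hc.himg v.val v.mem).2 hv
  exact ⟨m, MA.ext h1⟩

theorem Cz.H_inj (hc : Cz π cd t x y A h j) {m k : ℕ} (h1 : hc.H m = hc.H k) : m = k :=
  hc.hinj m k (congrArg MA.val h1)

theorem Cz.H_add (hc : Cz π cd t x y A h j) (m k : ℕ) : hc.H (x.2.1 m k) = hc.H m + hc.H k :=
  MA.ext (hc.hadd m k)

theorem ev_nsmul (f : Hq C) (N : ℕ) (q : ℚ) : (N • f).ev q = N • f.ev q := by
  induction N with
  | zero => rw [zero_nsmul, zero_nsmul, Hq.ev_zero]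
  | succ N ih => rw [succ_nsmul, succ_nsmul, Hq.ev_add, ih]

theorem val_nsmul {A : Submodule ℚ F} (v : MA A) (N : ℕ) : (N • v).val = N • v.val := by
  induction N with
  | zero => rw [zero_nsmul, zero_nsmul, MA.val_zero]
  | succ N ih => rw [succ_nsmul, succ_nsmul, MA.val_add, ih]

/-- The group spans the space. -/
theorem Cz.span_G (hb : Bs π t) (hc : Cz π cd t x y A h j) (v : MA hc.sub) :
    ∃ N : ℕ, N ≠ 0 ∧ N • v ∈ hc.G := by
  obtain ⟨w, hw⟩ := hb.sur ((Rho y.1 v.val).ev 1)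
  obtain ⟨N, hN, h1⟩ := hb.tors w
  refine ⟨N, hN, ?_⟩
  rw [hc.mem_G, val_nsmul, map_nsmul, ev_nsmul, ← hw, ← map_nsmul, h1]

theorem Cz.iso_cz (hb : Bs π t) (hc : Cz π cd t x y A h j)
    (hc' : Cz π cd t x' y' A' h' j') (hx : XIso x x') : ∃ σ, YIso y y' σ := by
  classical
  have hz := hc.dw.z0
  have hz' := hc'.dw.z0
  obtain ⟨i1, i2, hR, hlt⟩ := model hz hc.gen
  obtain ⟨i1', i2', hR', hlt'⟩ := model hz' hc'.gen
  obtain ⟨τ, hτ1, hτ2, hτ3⟩ := hx
  -- the isomorphism of the groups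
  choose ix hix using fun g : hc.G => hc.exists_H g.2
  have hix2 : ∀ (m : ℕ), ix ⟨hc.H m, hc.H_mem m⟩ = m := fun m => hc.H_inj (hix _)
  let f : hc.G →+ MA hc'.sub := AddMonoidHom.mk' (fun g => hc'.H (τ (ix g))) (by
    intro g g'
    show hc'.H (τ (ix (g + g'))) = hc'.H (τ (ix g)) + hc'.H (τ (ix g'))
    rw [← hc'.H_add, hτ2]
    congr 2
    apply hc.H_inj
    rw [hix, hc.H_add, hix, hix]
    rfl)
  have hfH : ∀ m, f ⟨hc.H m, hc.H_mem m⟩ = hc'.H (τ m) := by
    intro m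
    show hc'.H (τ (ix _)) = _
    rw [hix2]
  have hltH : ∀ m k, hc.H m < hc.H k ↔ x.1 m k = true := by
    intro m k
    rw [hc.hlt]
    exact hlt (hc.H m) (hc.H k)
  have hltH' : ∀ m k, hc'.H m < hc'.H k ↔ x'.1 m k = true := by
    intro m k
    rw [hc'.hlt]
    exact hlt' (hc'.H m) (hc'.H k)
  have hfpos : ∀ g : hc.G, 0 < (g : MA hc.sub) → 0 < f g := by
    intro g hg
    have h0 : hc'.H (τ (ix 0)) = 0 := map_zero f
    rw [← h0]
    show hc'.H (τ (ix 0)) < hc'.H (τ (ix g))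
    rw [hltH', hτ1, ← hltH, hix, hix]
    exact hg
  obtain ⟨Φ, hΦ1, hΦ2⟩ := exists_ext hc.G (hc.span_G hb) f hfpos
  have hΦs : Function.Surjective Φ := by
    refine ext_surj hc.G f Φ hΦ1 fun v' => ?_
    obtain ⟨N, hN, h1⟩ := hc'.span_G hb v'
    obtain ⟨m', h2⟩ := hc'.exists_H h1
    refine ⟨N, hN, ⟨hc.H (τ⁻¹ m'), hc.H_mem _⟩, ?_⟩
    rw [hfH, ← h2]
    simp
  have hΦH : ∀ m, Φ (hc.H m) = hc'.H (τ m) := fun m => by
    rw [← hfH]
    exact hΦ1 ⟨hc.H m, hc.H_mem m⟩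
  have hΦabs : ∀ v, Φ |v| = |Φ v| := by
    intro v
    rcases lt_trichotomy v 0 with h1 | h1 | h1
    · have h2 := (hΦ2 v 0).2 h1
      rw [map_zero] at h2
      rw [abs_of_neg h1, abs_of_neg h2, map_neg]
    · rw [h1, abs_zero, map_zero, abs_zero]
    · have h2 := (hΦ2 0 v).2 h1
      rw [map_zero] at h2
      rw [abs_of_pos h1, abs_of_pos h2]
  have hΦle : ∀ v w, v ≤ w → Φ v ≤ Φ w := by
    intro v w hvw
    rcases hvw.eq_or_lt with rfl | h1
    · exact le_rfl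
    · exact ((hΦ2 _ _).2 h1).le
  -- the base is preserved
  have hΦt : ∀ i, Φ (hc.J (t i)) = hc'.J (t i) := by
    intro i
    have h5 : hc.H (x.2.2 i) = hc.J (t i) := MA.ext (hc.js i)
    have h6 : hc'.H (x'.2.2 i) = hc'.J (t i) := MA.ext (hc'.js i)
    rw [← h5, hΦH, ← hτ3, h6]
  have hJsum : ∀ a : Fin n → ℤ, Φ (hc.J (∑ i, a i • t i)) = hc'.J (∑ i, a i • t i) := by
    intro a
    have h1 : Φ (hc.JL (∑ i, a i • t i)) = hc'.JL (∑ i, a i • t i) := by
      rw [map_sum, map_sum, map_sum]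
      refine Finset.sum_congr rfl fun i _ => ?_
      rw [map_zsmul, map_zsmul, map_zsmul]
      congr 1
      exact hΦt i
    exact h1
  have hΦJ : ∀ w, Φ (hc.J w) = hc'.J w := by
    intro w
    obtain ⟨N, hN⟩ := hb.cof w
    have h1 : |Φ (hc.J w)| ≤ |hc'.J (N • ∑ i, |t i|)| := by
      have h2 : hc.J |w| ≤ hc.J (N • ∑ i, |t i|) := by
        rcases hN.eq_or_lt with h3 | h3
        · rw [h3]
        · exact (hc.J_mono hR h3).le
      have h3 := hΦle _ _ h2
      rw [hc.J_abs hR, hΦabs] at h3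
      refine h3.trans ?_
      have h4 : Φ (hc.J (N • ∑ i, |t i|)) = hc'.J (N • ∑ i, |t i|) := by
        have h5 : Φ (hc.JL (N • ∑ i, |t i|)) = hc'.JL (N • ∑ i, |t i|) := by
          rw [map_nsmul, map_nsmul, map_nsmul, map_sum, map_sum, map_sum]
          congr 1
          refine Finset.sum_congr rfl fun i _ => ?_
          show Φ (hc.J |t i|) = hc'.J |t i|
          rw [hc.J_abs hR, hΦabs, hΦt, hc'.J_abs hR']
        exact h5
      rw [h4]
      exact le_abs_self _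
    obtain ⟨u, hu⟩ := hc'.J_conv hR' h1
    rw [← hu]
    have hmono1 : ∀ a b : W, a < b → Φ (hc.J a) < Φ (hc.J b) := fun a b hab =>
      (hΦ2 _ _).2 (hc.J_mono hR hab)
    have hmono1' : ∀ a b : W, a ≤ b → Φ (hc.J a) ≤ Φ (hc.J b) := fun a b hab => by
      rcases hab.eq_or_lt with rfl | h3
      · exact le_rfl
      · exact (hmono1 _ _ h3).le
    have hmono2 : ∀ a b : W, a < b → hc'.J a < hc'.J b := fun a b hab => hc'.J_mono hR' hab
    have hmono2' : ∀ a b : W, a ≤ b → hc'.J a ≤ hc'.J b := fun a b hab => by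
      rcases hab.eq_or_lt with rfl | h3
      · exact le_rfl
      · exact (hmono2 _ _ h3).le
    have hn1 : ∀ (N : ℕ) (a : W), Φ (hc.J (N • a)) = N • Φ (hc.J a) := by
      intro N a
      have : Φ (hc.JL (N • a)) = N • Φ (hc.JL a) := by rw [map_nsmul, map_nsmul]
      exact this
    have hn2 : ∀ (N : ℕ) (a : W), hc'.J (N • a) = N • hc'.J a := by
      intro N a
      have : hc'.JL (N • a) = N • hc'.JL a := by rw [map_nsmul]
      exact this
    congr 1
    rcases lt_trichotomy u w with h2 | h2 | h2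
    · exfalso
      obtain ⟨M, a, hM, h3, h4⟩ := hb.sep u w h2
      have h5 := hmono2' _ _ h3
      have h6 := hmono1 _ _ h4
      rw [hn2, hu] at h5
      rw [hJsum, hn1] at h6
      exact absurd (h5.trans_lt h6) (lt_irrefl _)
    · exact h2
    · exfalso
      obtain ⟨M, a, hM, h3, h4⟩ := hb.sep w u h2
      have h5 := hmono1' _ _ h3
      have h6 := hmono2 _ _ h4
      rw [hJsum, hn1] at h5
      rw [hn2, hu] at h6
      exact absurd (h5.trans_lt h6) (lt_irrefl _)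
  -- residues
  have hev1 : ∀ v, (Rho y'.1 (Φ v).val).ev 1 = (Rho y.1 v.val).ev 1 := by
    intro v
    obtain ⟨w, hw⟩ := hb.sur ((Rho y.1 v.val).ev 1)
    have h1 : v - hc.J w ∈ hc.G := by
      rw [hc.mem_G, MA.val_sub, map_sub]
      have h2 : Rho y.1 (hc.J w).val = rW π w := hc.res_J w
      rw [h2, sub_eq_add_neg, Hq.ev_add, Hq.ev_neg, ← hw, rW_ev, one_smul, add_neg_cancel]
    obtain ⟨m, hm⟩ := hc.exists_H h1
    have h2 : Φ v = hc'.H (τ m) + hc'.J w := by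
      rw [← hΦH, hm, map_sub, hΦJ, sub_add_cancel]
    have h3 : (Rho y'.1 (hc'.H (τ m)).val).ev 1 = 0 := hc'.H_mem _
    have h4 : Rho y'.1 (hc'.J w).val = rW π w := hc'.res_J w
    rw [h2, MA.val_add, map_add, Hq.ev_add, h3, h4, zero_add, rW_ev, one_smul, hw]
  have hres : ∀ v, Rho y'.1 (Φ v).val = Rho y.1 v.val := by
    intro v
    refine Hq.ext fun q => ?_
    have h1 := hev1 (q • v)
    rw [map_smul, MA.val_smul, MA.val_smul, map_smul, map_smul, Hq.ev_smul, Hq.ev_smul,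
      mul_one] at h1
    exact h1
  -- the transported representation
  have hR2 : Rp y'.1 (fun v m => RA y'.1 hc'.sub (Φ v) m) := by
    refine ⟨⟨⟨?_, ?_, ?_⟩, ?_, ?_⟩, ?_⟩
    · intro v w m k h1 h2 hs q r l hl ha hw
      have h3 := hR'.lin (Φ v) (Φ w) m k h1 h2 hs q r l hl ha hw
      show RA y'.1 hc'.sub (Φ (q • v + r • w)) l
      rw [map_add, map_smul, map_smul]
      exact h3
    · intro v m k h1
      exact hR'.low (Φ v) m k h1
    · intro v m k h1
      exact hR'.fn (Φ v) m k h1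
    · intro v hv
      refine hR'.tot (Φ v) ?_
      intro h1
      rcases lt_trichotomy v 0 with h2 | h2 | h2
      · have h3 := (hΦ2 _ _).2 h2
        rw [h1, map_zero] at h3
        exact lt_irrefl _ h3
      · exact hv h2
      · have h3 := (hΦ2 _ _).2 h2
        rw [h1, map_zero] at h3
        exact lt_irrefl _ h3
    · intro v m h1 h2
      have h3 := hR'.pos (Φ v) m h1 h2
      rw [← map_zero Φ] at h3
      exact (hΦ2 _ _).1 h3
    · intro m
      obtain ⟨v', h1⟩ := hR'.sur m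
      obtain ⟨v, rfl⟩ := hΦs v'
      exact ⟨v, h1⟩
  have hag : Agree y.1 y'.1 (RA y.1 hc.sub) (fun v m => RA y'.1 hc'.sub (Φ v) m) := by
    intro v m m' h1 h2
    have h3 : Rho y'.1 (Φ v).val = y'.1.2.2 m' := h2.2.2
    have h4 : Rho y.1 v.val = y.1.2.2 m := h1.2.2
    rw [← h3, ← h4, hres]
  obtain ⟨σ, hσ1, hσ2⟩ := skel hz hz' hR hR2 hag
  refine ⟨σ, hσ1, ?_⟩
  have hMk : ∀ w m, Mk cd y w m ↔ Mk cd y' w (σ m) := by
    intro w m
    rw [hc.jmk, hc'.jmk]
    have h1 := hσ2 (hc.J w) m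
    rw [hΦJ] at h1
    exact h1
  intro m i
  rw [Bool.eq_iff_iff]
  constructor
  · intro h1
    obtain ⟨w, rfl⟩ := hc'.dw.junk _ _ h1
    exact (hMk w m).2 h1
  · intro h1
    obtain ⟨w, rfl⟩ := hc.dw.junk _ _ h1
    exact (hMk w m).1 h1

end Pool.Agent.Y566.ZG
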