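import Pool.Agent.Y566.ZG.CzEx
import Pool.Agent.Y566.ZG.Cov

set_option autoImplicit false
set_option linter.unusedSectionVars false

/-! Ordered groups which are divisible modulo a copy of the base have index structures. -/

namespace Pool.Agent.Y566.ZG

open Set

section hull

variable {G : Type} [AddCommGroup G] [LinearOrder G] [IsOrderedAddMonoid G]

/-- The inclusion in the divisible hull. -/
noncomputable def ch : G →+ DivisibleHull G := DivisibleHull.coeAddMonoidHom G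

theorem ch_lt {a b : G} : (ch a : DivisibleHull G) < ch b ↔ a < b := by
  show DivisibleHull.mk a 1 < DivisibleHull.mk b 1 ↔ a < b
  rw [DivisibleHull.mk_lt_mk]
  simp

theorem ch_inj {a b : G} (h : (ch a : DivisibleHull G) = ch b) : a = b :=
  DivisibleHull.coe_injective h

theorem ch_abs (a : G) : (ch |a| : DivisibleHull G) = |ch a| := by
  rcases lt_trichotomy a 0 with h | h | h
  · have h1 := ch_lt.2 h
    rw [map_zero] at h1
    rw [abs_of_neg h, abs_of_neg h1, map_neg]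
  · rw [h, abs_zero, map_zero, abs_zero]
  · have h1 := ch_lt.2 h
    rw [map_zero] at h1
    rw [abs_of_pos h, abs_of_pos h1]

theorem ch_le {a b : G} : (ch a : DivisibleHull G) ≤ ch b ↔ a ≤ b := by
  rw [← not_lt, ← not_lt, ch_lt]

theorem ch_span (v : DivisibleHull G) : ∃ N : ℕ, N ≠ 0 ∧ ∃ g : G, N • v = ch g := by
  induction v with
  | mk g s =>
    refine ⟨s.val, s.ne_zero, g, ?_⟩
    rw [DivisibleHull.nsmul_mk]
    show DivisibleHull.mk (s.val • g) s = DivisibleHull.mk g 1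
    rw [DivisibleHull.mk_eq_mk]
    exact ⟨1, by simp⟩

end hull

variable {C : Type} [AddCommGroup C]
  {W : Type} [AddCommGroup W] [LinearOrder W] [IsOrderedAddMonoid W] [Module ℚ W]
  {n : ℕ} {π : W →+ C} {cd : W → ℕ} {t : Fin n → W}

/-- `ι` embeds the kernel of `π` as a convex subgroup of `G` modulo which `G` is divisible. -/
structure Emb (π : W →+ C) {G : Type} [AddCommGroup G] [LinearOrder G] (ι : π.ker →+ G) : Prop where
  pos : ∀ w : π.ker, 0 < (w : W) → 0 < ι w
  conv : ∀ (g : G) (w : π.ker), |g| ≤ |ι w| → ∃ w', ι w' = g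
  div : ∀ (g : G) (N : ℕ), N ≠ 0 → ∃ g' w, g = N • g' + ι w

theorem cz_cov [Countable W] (hcd : Function.Injective cd) (hb : Bs π t)
    {G : Type} [AddCommGroup G] [LinearOrder G] [IsOrderedAddMonoid G] {ι : π.ker →+ G}
    (hι : Emb π ι) {x : XS n} (e : ℕ ≃ G) (he1 : ∀ m k, x.1 m k = true ↔ e m < e k)
    (he2 : ∀ m k, e (x.2.1 m k) = e m + e k) (he3 : ∀ i, e (x.2.2 i) = ι ⟨t i, hb.tπ i⟩) :
    ∃ (y : Yc C) (A : F → Prop) (h : ℕ → F) (j : W → F), Cz π cd t x y A h j := by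
  classical
  have hGc : Countable G := e.symm.injective.countable
  have hVc : Countable (DivisibleHull G) := by
    have hs : Function.Surjective fun p : G × ℕ+ => DivisibleHull.mk p.1 p.2 := by
      intro v
      induction v with
      | mk g s => exact ⟨(g, s), rfl⟩
    exact hs.countable
  have hVn : Nontrivial (DivisibleHull G) := by
    refine ⟨ch (e 0), ch (e 1), fun h => ?_⟩
    exact absurd (e.injective (ch_inj h)) zero_ne_one
  -- the embedding of the base
  obtain ⟨j₀, hj1, hj2⟩ := exists_ext π.ker (fun w => by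
    obtain ⟨N, hN, h1⟩ := hb.tors w
    exact ⟨N, hN, h1⟩) (ch.comp ι : π.ker →+ DivisibleHull G) (fun g hg => by
      have h1 := ch_lt.2 (hι.pos g hg)
      rw [map_zero] at h1
      exact h1)
  have hj1' : ∀ w : π.ker, j₀ w = ch (ι w) := fun w => hj1 w
  have hj0 : ∀ w, j₀ w = 0 → w = 0 := by
    intro w h1
    rcases lt_trichotomy w 0 with h2 | h2 | h2
    · have h3 := (hj2 _ _).2 h2
      rw [map_zero, h1] at h3
      exact absurd h3 (lt_irrefl _)
    · exact h2
    · have h3 := (hj2 _ _).2 h2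
      rw [map_zero, h1] at h3
      exact absurd h3 (lt_irrefl _)
  have hji : ∀ w w', j₀ w = j₀ w' → w = w' := by
    intro w w' h1
    have h2 := hj0 (w - w') (by rw [map_sub, h1, sub_self])
    exact sub_eq_zero.1 h2
  have hjabs : ∀ w, j₀ |w| = |j₀ w| := by
    intro w
    rcases lt_trichotomy w 0 with h1 | h1 | h1
    · have h2 := (hj2 w 0).2 h1
      rw [map_zero] at h2
      rw [abs_of_neg h1, abs_of_neg h2, map_neg]
    · rw [h1, abs_zero, map_zero, abs_zero]
    · have h2 := (hj2 0 w).2 h1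
      rw [map_zero] at h2
      rw [abs_of_pos h1, abs_of_pos h2]
  -- convexity
  have hconv0 : ∀ (g : G) (w : W), |(ch g : DivisibleHull G)| ≤ |j₀ w| → ∃ N : ℕ, N ≠ 0 ∧
      ∃ w' : π.ker, N • g = ι w' := by
    intro g w h1
    obtain ⟨N, hN, h2⟩ := hb.tors w
    refine ⟨N, hN, ?_⟩
    have h3 : |N • g| ≤ |ι ⟨N • w, h2⟩| := by
      rw [← ch_le, ch_abs, ch_abs, ← hj1']
      show |ch (N • g)| ≤ |j₀ (N • w)|
      rw [map_nsmul, map_nsmul, abs_nsmul, abs_nsmul]
      exact nsmul_le_nsmul_right h1 N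
    obtain ⟨w', h4⟩ := hι.conv _ _ h3
    exact ⟨w', h4.symm⟩
  have hconv : ∀ (v : DivisibleHull G) (w : W), |v| ≤ |j₀ w| → ∃ w', j₀ w' = v := by
    intro v w h1
    obtain ⟨M, hM, g, hg⟩ := ch_span v
    obtain ⟨N, hN, w', h2⟩ := hconv0 g (M • w) (by
      rw [← hg, map_nsmul, abs_nsmul, abs_nsmul]
      exact nsmul_le_nsmul_right h1 M)
    have hMN : ((M * N : ℕ) : ℚ) ≠ 0 := by exact_mod_cast mul_ne_zero hM hN
    refine ⟨((M * N : ℕ) : ℚ)⁻¹ • (w' : W), ?_⟩
    rw [map_smul, hj1', ← h2, map_nsmul, ← hg, ← mul_smul N M, mul_comm N M,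
      ← Nat.cast_smul_eq_nsmul ℚ (M * N), smul_smul, inv_mul_cancel₀ hMN, one_smul]
  -- decomposition
  have hdec : ∀ v : DivisibleHull G, ∃ (w : W) (g : G), v = ch g + j₀ w := by
    intro v
    obtain ⟨M, hM, g, hg⟩ := ch_span v
    obtain ⟨g', w, h1⟩ := hι.div g M hM
    have hM' : (M : ℚ) ≠ 0 := by exact_mod_cast hM
    refine ⟨(M : ℚ)⁻¹ • (w : W), g', ?_⟩
    apply nsmul_cancel hM
    rw [hg, h1, map_add, map_nsmul, nsmul_add]
    congr 1
    rw [map_smul, hj1', ← Nat.cast_smul_eq_nsmul ℚ M, smul_smul, mul_inv_cancel₀ hM', one_smul]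
  have huni : ∀ (g g' : G) (w w' : W), ch g + j₀ w = (ch g' + j₀ w' : DivisibleHull G) →
      π w = π w' := by
    intro g g' w w' h1
    have h2 : j₀ (w - w') = ch (g' - g) := by
      rw [map_sub, map_sub, sub_eq_sub_iff_add_eq_add, add_comm (j₀ w), h1]
    obtain ⟨N, hN, w₁, h3⟩ := hconv0 (g' - g) (w - w') (by rw [h2])
    have h4 : |g' - g| ≤ |ι w₁| := by
      rw [← h3, abs_nsmul]
      have h5 : 1 • |g' - g| ≤ N • |g' - g| :=
        nsmul_le_nsmul_left (abs_nonneg _) (Nat.one_le_iff_ne_zero.2 hN)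
      rw [one_nsmul] at h5
      exact h5
    obtain ⟨w₂, h5⟩ := hι.conv _ _ h4
    have h6 : w - w' = (w₂ : W) := by
      apply hji
      rw [h2, hj1', h5]
    have h7 : π (w - w') = 0 := by
      rw [h6]
      exact w₂.2
    rw [map_sub] at h7
    exact sub_eq_zero.1 h7
  choose dw dg hdw using hdec
  let χ : DivisibleHull G → C := fun v => π (dw v)
  have hχ : ∀ (g : G) (w : W), χ (ch g + j₀ w) = π w := by
    intro g w
    exact huni _ _ _ _ (hdw (ch g + j₀ w)).symm
  have hχadd : ∀ v v', χ (v + v') = χ v + χ v' := by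
    intro v v'
    have h1 : v + v' = ch (dg v + dg v') + j₀ (dw v + dw v') := by
      conv_lhs => rw [hdw v, hdw v']
      rw [map_add, map_add]
      abel
    rw [h1, hχ, map_add]
  have hχj : ∀ w, χ (j₀ w) = π w := by
    intro w
    have := hχ 0 w
    rw [map_zero, zero_add] at this
    exact this
  have hχ0 : ∀ v, χ v = 0 ↔ ∃ g : G, v = ch g := by
    intro v
    constructor
    · intro h1
      refine ⟨dg v + ι ⟨dw v, h1⟩, ?_⟩
      rw [map_add, ← hj1' ⟨dw v, h1⟩]
      exact hdw v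
    · rintro ⟨g, rfl⟩
      have := hχ g 0
      rw [map_zero, map_zero, add_zero] at this
      exact this
  let ρ : DivisibleHull G →ₗ[ℚ] Hq C :=
    { toFun := fun v => Hq.mk (fun q => χ (q • v)) (fun a b => by rw [add_smul, hχadd])
      map_add' := fun v w => Hq.ext fun q => by
        rw [Hq.ev_add, Hq.ev_mk, Hq.ev_mk, Hq.ev_mk, smul_add, hχadd]
      map_smul' := fun q v => Hq.ext fun r => by
        rw [Hq.ev_mk, RingHom.id_apply, Hq.ev_smul, Hq.ev_mk, smul_smul, mul_comm] }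
  have hρ : ∀ v q, (ρ v).ev q = χ (q • v) := fun v q => rfl
  obtain ⟨z, R, hz, hR, hres⟩ := exists_index ρ
  let y : Yc C := (z, fun m i => decide (∃ w, cd w = i ∧ R (j₀ w) m))
  have hMk : ∀ w m, Mk cd y w m ↔ R (j₀ w) m := by
    intro w m
    show decide (∃ w', cd w' = cd w ∧ R (j₀ w') m) = true ↔ _
    rw [decide_eq_true_iff]
    constructor
    · rintro ⟨w', h1, h2⟩
      rw [← hcd h1]
      exact h2
    · exact fun h1 => ⟨w, rfl, h1⟩
  have hrng : ∀ v k, z.2.1 k ≠ 0 → R v k → ∀ w m, R (j₀ w) m → z.2.1 m ≠ 0 →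
      (sm z m k ∨ z.1 m k = true) → ∃ w', j₀ w' = v := by
    intro v k h1 h2 w m h3 h4 h5
    have h6 : ArchimedeanClass.mk (j₀ w) ≤ ArchimedeanClass.mk v := by
      rcases h5 with h5 | h5
      · exact hR.mk_le hz h3 h4 h2 h1 h5
      · exact (hR.mk_lt hz h3 h4 h2 h5).le
    rw [ArchimedeanClass.mk_le_mk] at h6
    obtain ⟨N, hN⟩ := h6
    refine hconv v (N • w) ?_
    rw [map_nsmul, abs_nsmul]
    exact hN
  have hy : DW π cd y := by
    refine ⟨hz, ⟨⟨?_, ?_, ?_⟩, ?_, ?_⟩, ?_, ?_, ?_, ?_⟩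
    · intro v w m k h1 h2 hs q r l hl ha hw
      rw [hMk] at h1 h2 ⊢
      rw [map_add, map_smul, map_smul]
      exact hR.lin _ _ m k h1 h2 hs q r l hl ha hw
    · intro v m k h1 h2 h3 h4
      rw [hMk] at h1 ⊢
      exact hR.low _ m k h1 h2 h3 h4
    · intro v m k h1 h2
      rw [hMk] at h1 h2
      exact hR.fn _ m k h1 h2
    · intro v hv
      obtain ⟨k, h1, h2⟩ := hR.tot (j₀ v) (fun h1 => hv (hj0 _ h1))
      exact ⟨k, h1, (hMk _ _).2 h2⟩
    · intro v m h1 h2
      rw [hMk] at h1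
      have h3 := hR.pos _ m h1 h2
      rw [← map_zero j₀] at h3
      exact (hj2 _ _).1 h3
    · intro w m h1
      rw [hMk] at h1
      rw [hres _ _ h1]
      refine Hq.ext fun q => ?_
      rw [hρ, rW_ev, ← map_smul, hχj]
    · intro w m m' h1 h2 h3
      rw [hMk] at h1
      obtain ⟨v, hv⟩ := hR.sur m'
      by_cases hv0 : v = 0
      · refine ⟨0, (hMk _ _).2 ?_⟩
        rw [map_zero, ← hv0]
        exact hv
      · obtain ⟨k, h4, h5⟩ := hR.tot v hv0
        have h6 : sm z m k ∨ z.1 m k = true := by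
          rcases (hR.toRq.iff_of hz h5 h4 m').1 hv with h7 | ⟨h7, -⟩
          · rw [← h7]
            exact h3
          · right
            rcases h3 with h3 | h3
            · exact hz.lt_left h3 h7
            · exact hz.tr _ _ _ h3 h7
        obtain ⟨w', h7⟩ := hrng v k h4 h5 w m h1 h2 h6
        exact ⟨w', (hMk _ _).2 (by rw [h7]; exact hv)⟩
    · intro m h1 h2
      rw [hMk, map_zero, hR.zero_iff hz]
      exact ⟨h1, h2⟩
    · intro m i h1
      have h2 : ∃ w, cd w = i ∧ R (j₀ w) m := of_decide_eq_true h1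
      obtain ⟨w, h3, -⟩ := h2
      exact ⟨w, h3⟩
  -- the model
  obtain ⟨A, hA⟩ := exists_gen hz
  obtain ⟨i1, i2, hRA, hlt⟩ := model hz hA
  obtain ⟨θ, hθ1, hθ2, hθ3, -⟩ := unique hz hz hR hRA (ZIso.refl hz) ⊥ tot_bot
  have hθ3' : ∀ v m, R v m ↔ RA z A (θ v) m := fun v m => hθ3 v m
  let θ' : DivisibleHull G →+ MA A := AddMonoidHom.mk' θ hθ1
  have hθq : ∀ (q : ℚ) v, θ (q • v) = q • θ v := fun q v => map_rat_smul θ' q v
  have hθ0 : θ 0 = 0 := map_zero θ'
  have hθr : ∀ v, Rho z (θ v).val = ρ v := by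
    intro v
    by_cases hv : v = 0
    · rw [hv, hθ0, MA.val_zero, map_zero, map_zero]
    · obtain ⟨k, h1, h2⟩ := hR.tot v hv
      have h3 := (hθ3' v k).1 h2
      rw [h3.2.2, hres v k h2]
  refine ⟨y, fun c => c ∈ A, fun m => (θ (ch (e m))).val, fun w => (θ (j₀ w)).val, ?_⟩
  refine ⟨hy, A.zero_mem, fun _ _ => A.add_mem, fun q _ => A.smul_mem q,
    fun c h1 h2 => hA.tot c h1 h2, hA.sur, fun m => MA.mem _, ?_, ?_, ?_, ?_, fun w => MA.mem _,
    ?_, ?_, ?_, ?_⟩
  · intro m k h1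
    exact e.injective (ch_inj (θ.injective (MA.ext h1)))
  · intro m k
    rw [he1, ← ch_lt, ← hθ2, hlt]
    exact Iff.rfl
  · intro m k
    show (θ (ch (e (x.2.1 m k)))).val = _
    rw [he2, map_add, hθ1]
    rfl
  · intro c hc
    obtain ⟨v, hv⟩ := θ.surjective (MA.of c hc)
    have h1 : (θ v).val = c := by rw [hv]; rfl
    have h2 : (Rho z c).ev 1 = 0 ↔ χ v = 0 := by
      rw [← h1, hθr, hρ, one_smul]
    rw [h2, hχ0]
    constructor
    · rintro ⟨m, hm⟩
      refine ⟨e m, ?_⟩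
      apply θ.injective
      rw [hv]
      exact MA.ext hm.symm
    · rintro ⟨g, rfl⟩
      refine ⟨e.symm g, ?_⟩
      show (θ (ch (e (e.symm g)))).val = c
      rw [e.apply_symm_apply, h1]
  · intro q r w w'
    show (θ (j₀ (q • w + r • w'))).val = _
    rw [map_add, map_smul, map_smul, hθ1, hθq, hθq]
    rfl
  · intro w m
    rw [hMk, hθ3']
    exact Iff.rfl
  · intro c hc k h1 h2 w m h3 h4 h5
    obtain ⟨v, hv⟩ := θ.surjective (MA.of c hc)
    have h6 : R v k := by
      rw [hθ3', hv]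
      exact h2
    rw [hMk] at h3
    obtain ⟨w', h7⟩ := hrng v k h1 h6 w m h3 h4 h5
    refine ⟨w', ?_⟩
    show (θ (j₀ w')).val = c
    rw [h7, hv]
    rfl
  · intro i
    show (θ (ch (e (x.2.2 i)))).val = (θ (j₀ (t i))).val
    rw [he3, ← hj1' ⟨t i, hb.tπ i⟩]

end Pool.Agent.Y566.ZG
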