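import Pool.Agent.Y566.ZG.Cz2

set_option autoImplicit false
set_option linter.unusedSectionVars false

/-! Every marked index structure codes a pointed ordered group. -/

namespace Pool.Agent.Y566.ZG

open Set

variable {C : Type} [AddCommGroup C]
  {W : Type} [AddCommGroup W] [LinearOrder W] [IsOrderedAddMonoid W] [Module ℚ W]
  {n : ℕ} {π : W →+ C} {cd : W → ℕ} {t : Fin n → W} {y : Yc C}

/-- The bottom part. -/
def Vb {V : Type} [AddCommGroup V] [Module ℚ V] {R : V → ℕ → Prop} (cd : W → ℕ) (y : Yc C)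
    (hz : Z0 y.1) (hR : PR y.1 R) : Submodule ℚ V where
  carrier := {v | v = 0 ∨ ∃ w m, Mk cd y w m ∧ y.1.2.1 m ≠ 0 ∧ ∃ k, sm y.1 m k ∧ R v k}
  zero_mem' := Or.inl rfl
  add_mem' := by
    rintro v v' (rfl | ⟨w, m, h1, h2, k, h3, h4⟩) (rfl | ⟨w', m', h1', h2', k', h3', h4'⟩)
    · left
      rw [add_zero]
    · right
      rw [zero_add]
      exact ⟨w', m', h1', h2', k', h3', h4'⟩
    · right
      rw [add_zero]
      exact ⟨w, m, h1, h2, k, h3, h4⟩
    · right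
      rcases trich y.1 m m' with h5 | h5 | h5
      · obtain ⟨l, h6, -, -, h7⟩ := hR.up hz h4' (hz.lt_right h5 h3')
        obtain ⟨i, h8, -, -, h9⟩ := hR.comb hz h4 h7 (hz.trans h3.symm h6) 1 1
        rw [one_smul, one_smul] at h9
        exact ⟨w, m, h1, h2, i, hz.trans h3 h8, h9⟩
      · obtain ⟨i, h8, -, -, h9⟩ := hR.comb hz h4 h4' (hz.trans h3.symm (hz.trans h5 h3')) 1 1
        rw [one_smul, one_smul] at h9
        exact ⟨w, m, h1, h2, i, hz.trans h3 h8, h9⟩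
      · obtain ⟨l, h6, -, -, h7⟩ := hR.up hz h4 (hz.lt_right h5 h3)
        obtain ⟨i, h8, -, -, h9⟩ := hR.comb hz h7 h4' (hz.trans h6.symm h3') 1 1
        rw [one_smul, one_smul] at h9
        exact ⟨w', m', h1', h2', i, hz.trans h6 h8, h9⟩
  smul_mem' := by
    rintro q v (rfl | ⟨w, m, h1, h2, k, h3, h4⟩)
    · left
      rw [smul_zero]
    · right
      obtain ⟨i, h9, -, -, h10⟩ := hR.smul hz h4 q
      exact ⟨w, m, h1, h2, i, hz.trans h3 h9, h10⟩

theorem exists_j [Countable W] {V : Type} [AddCommGroup V] [Module ℚ V] [LinearOrder V]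
    [IsOrderedAddMonoid V] [Countable V] {R : V → ℕ → Prop} (hy : DW π cd y) (hR : Rp y.1 R) :
    ∃ j : W → V, (∀ (q r : ℚ) (w w' : W), j (q • w + r • w') = q • j w + r • j w') ∧
      (∀ w m, Mk cd y w m ↔ R (j w) m) ∧
      ∀ v k, y.1.2.1 k ≠ 0 → R v k → ∀ w m, Mk cd y w m → y.1.2.1 m ≠ 0 →
        (sm y.1 m k ∨ y.1.1 m k = true) → ∃ w', j w' = v := by
  have hz := hy.z0
  let B : Submodule ℚ V := Vb cd y hz hR.toPR
  have hB : Rq y.1 (fun (v : B) m => R v.1 m) := by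
    refine ⟨⟨?_, ?_, ?_⟩, ?_, ?_⟩
    · intro v w m k h1 h2 hs q r l hl ha hw
      exact hR.lin v.1 w.1 m k h1 h2 hs q r l hl ha hw
    · intro v m k h1
      exact hR.low v.1 m k h1
    · intro v m k h1
      exact hR.fn v.1 m k h1
    · intro v hv
      exact hR.tot v.1 (fun h1 => hv (Subtype.ext h1))
    · intro v m h1 h2
      exact hR.pos v.1 m h1 h2
  have hc : ∀ (w : W) (m : ℕ), Mk cd y w m → ∃ v : B, R v.1 m := by
    intro w m h1
    by_cases hw : w = 0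
    · subst hw
      obtain ⟨h2, h3⟩ := hy.rq.toPR.of_zero hz h1
      exact ⟨0, (hR.zero_iff hz m).2 ⟨h2, h3⟩⟩
    · obtain ⟨k, h2, h3⟩ := hy.rq.tot w hw
      obtain ⟨v, hv⟩ := hR.sur k
      have hvB : v ∈ B := Or.inr ⟨w, k, h3, h2, k, hz.refl k, hv⟩
      refine ⟨⟨v, hvB⟩, ?_⟩
      rw [hR.toRq.iff_of hz hv h2]
      exact (hy.rq.iff_of hz h3 h2 m).1 h1
  have hc' : ∀ (v : B) (m : ℕ), R v.1 m → ∃ w : W, Mk cd y w ((1 : Equiv.Perm ℕ)⁻¹ m) := by
    intro v m h1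
    have h0 : (1 : Equiv.Perm ℕ)⁻¹ m = m := by simp
    rw [h0]
    by_cases hv : v.1 = 0
    · rw [hv] at h1
      obtain ⟨h2, h3⟩ := (hR.zero_iff hz m).1 h1
      exact ⟨0, hy.zero m h2 h3⟩
    · obtain ⟨k, h2, h3⟩ := hR.tot v.1 hv
      rcases v.2 with h4 | ⟨w, l, h4, h5, i, h6, h7⟩
      · exact absurd h4 hv
      · have h8 : sm y.1 l k ∨ y.1.1 l k = true := by
          rcases (hR.toRq.iff_of hz h3 h2 i).1 h7 with h9 | ⟨h9, -⟩
          · left
            rw [← h9]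
            exact h6
          · right
            exact hz.lt_left h6 h9
        obtain ⟨w', h9⟩ := hy.cov w l k h4 h5 h8
        refine ⟨w', ?_⟩
        rw [hy.rq.iff_of hz h9 h2]
        exact (hR.toRq.iff_of hz h3 h2 m).1 h1
  obtain ⟨θ, h1, h2, h3, -⟩ := unique' hz hz hy.rq hB (ZIso.refl hz) hc hc' ⊥ tot_bot
  let θ' : W →+ B := AddMonoidHom.mk' θ h1
  have hq : ∀ (q : ℚ) (w : W), θ (q • w) = q • θ w := fun q w => map_rat_smul θ' q w
  refine ⟨fun w => (θ w).1, ?_, ?_, ?_⟩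
  · intro q r w w'
    show (θ (q • w + r • w')).1 = q • (θ w).1 + r • (θ w').1
    rw [h1, hq, hq]
    rfl
  · intro w m
    exact h3 w m
  · intro v k h4 h5 w m h6 h7 h8
    have hv : v ∈ B := by
      right
      rcases h8 with h8 | h8
      · exact ⟨w, m, h6, h7, k, h8, h5⟩
      · obtain ⟨i, h9, -, -, h10⟩ := hR.toPR.up hz h5 h8
        exact ⟨w, m, h6, h7, i, h9, h10⟩
    obtain ⟨w', h9⟩ := θ.surjective ⟨v, hv⟩
    exact ⟨w', congrArg Subtype.val h9⟩

theorem cz_exists [Countable W] (hb : Bs π t) (hy : DW π cd y) :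
    ∃ (x : XS n) (A : F → Prop) (h : ℕ → F) (j : W → F), Cz π cd t x y A h j := by
  classical
  have hz := hy.z0
  obtain ⟨A, hA⟩ := exists_gen hz
  obtain ⟨i1, i2, hR, hlt⟩ := model hz hA
  obtain ⟨j, hj1, hj2, hj3⟩ := exists_j hy hR
  have hresj : ∀ w, Rho y.1 (j w).val = rW π w := by
    intro w
    by_cases hw : w = 0
    · have h1 : j 0 = 0 := by
        have := hj1 0 0 0 0
        simpa using this
      rw [hw, h1, MA.val_zero, map_zero]
      refine Hq.ext fun q => ?_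
      rw [rW_ev, smul_zero, map_zero, Hq.ev_zero]
    · obtain ⟨k, h1, h2⟩ := hy.rq.tot w hw
      rw [← hy.res w k h2]
      exact ((hj2 w k).1 h2).2.2
  let G := {v : MA A // (Rho y.1 v.val).ev 1 = 0}
  have hGadd : ∀ v w : G, (Rho y.1 (v.1 + w.1).val).ev 1 = 0 := by
    intro v w
    rw [MA.val_add, map_add, Hq.ev_add, v.2, w.2, add_zero]
  have hspan : ∀ v : MA A, ∃ N : ℕ, N ≠ 0 ∧ (Rho y.1 (N • v).val).ev 1 = 0 := by
    intro v
    obtain ⟨w, hw⟩ := hb.sur ((Rho y.1 v.val).ev 1)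
    obtain ⟨N, hN, h1⟩ := hb.tors w
    refine ⟨N, hN, ?_⟩
    rw [val_nsmul, map_nsmul, ev_nsmul, ← hw, ← map_nsmul, h1]
  have hGi : Infinite G := by
    obtain ⟨k, -, hk⟩ := hz.nz 0
    obtain ⟨v, hv⟩ := hR.sur k
    have hv0 : v ≠ 0 := hR.toRq.ne_zero hz hv hk
    obtain ⟨N, hN, h1⟩ := hspan v
    have hN0 : N • v ≠ 0 := by
      intro h2
      apply hv0
      apply nsmul_cancel hN
      rw [h2, smul_zero]
    have h2 : ∀ l : ℕ, (Rho y.1 (l • (N • v)).val).ev 1 = 0 := by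
      intro l
      rw [val_nsmul, map_nsmul, ev_nsmul, h1, smul_zero]
    refine Infinite.of_injective (fun l : ℕ => (⟨l • (N • v), h2 l⟩ : G)) ?_
    intro a b hab
    have h3 : a • (N • v) = b • (N • v) := congrArg (fun g : G => g.1) hab
    rw [← Nat.cast_smul_eq_nsmul ℚ a, ← Nat.cast_smul_eq_nsmul ℚ b] at h3
    have h4 := smul_left_injective ℚ hN0 h3
    exact_mod_cast h4
  obtain ⟨e⟩ := nonempty_equiv_of_countable (α := ℕ) (β := G)
  let x : XS n := (fun m k => decide ((e m).1 < (e k).1),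
    fun m k => e.symm ⟨(e m).1 + (e k).1, hGadd _ _⟩,
    fun i => e.symm ⟨j (t i), by rw [hresj, rW_ev, one_smul, hb.tπ]⟩)
  refine ⟨x, fun c => c ∈ A, fun m => (e m).1.val, fun w => (j w).val, ?_⟩
  refine ⟨hy, A.zero_mem, fun _ _ => A.add_mem, fun q _ => A.smul_mem q, fun c h1 h2 => hA.tot c h1 h2,
    hA.sur, fun m => (e m).1.mem, ?_, ?_, ?_, ?_, fun w => (j w).mem, ?_, hj2, ?_, ?_⟩
  · intro m k h1
    exact e.injective (Subtype.ext (MA.ext h1))
  · intro m k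
    show decide ((e m).1 < (e k).1) = true ↔ _
    rw [decide_eq_true_iff, hlt]
    exact Iff.rfl
  · intro m k
    show (e (e.symm ⟨(e m).1 + (e k).1, hGadd _ _⟩)).1.val = _
    rw [e.apply_symm_apply]
    rfl
  · intro c hc
    constructor
    · rintro ⟨m, rfl⟩
      exact (e m).2
    · intro h1
      refine ⟨e.symm ⟨MA.of c hc, h1⟩, ?_⟩
      rw [e.apply_symm_apply]
      rfl
  · intro q r w w'
    show (j (q • w + r • w')).val = _
    rw [hj1]
    rfl
  · intro c hc k h1 h2 w m h3 h4 h5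
    obtain ⟨w', h6⟩ := hj3 (MA.of c hc) k h1 h2 w m h3 h4 h5
    exact ⟨w', congrArg MA.val h6⟩
  · intro i
    show (e (e.symm _)).1.val = (j (t i)).val
    rw [e.apply_symm_apply]

end Pool.Agent.Y566.ZG
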