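import Pool.Agent.Y566.ZG.Vcd

set_option autoImplicit false
set_option linter.unusedSectionVars false

/-! Index structures with a marked bottom part. -/

namespace Pool.Agent.Y566.ZG

open Set MeasureTheory

section tr

variable {E : Type} [AddCommGroup E] [Module ℚ E] {z z' : Z E}
  {V : Type} [AddCommGroup V] [LinearOrder V] [IsOrderedAddMonoid V] [Module ℚ V]

theorem Rq.transport {R : V → ℕ → Prop} (h : Rq z R) (hz : Z0 z) (hz' : Z0 z')
    {σ : Equiv.Perm ℕ} (hσ : ZIso z z' σ) : Rq z' (fun v m => R v (σ⁻¹ m)) := by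
  have hτ := hσ.symm
  refine ⟨⟨?_, ?_, ?_⟩, ?_, ?_⟩
  · intro v v' m n h1 h2 hs q r k hk ha hw
    refine h.lin v v' _ _ h1 h2 ((hτ.sm _ _).2 hs) q r _ ((hτ.sm _ _).2 hk) ?_ ?_
    · obtain ⟨c, hc, hc2⟩ := hτ.sc m
      rw [hc2 k hk, hc2 n hs, hc2 m (hz'.refl m), ha]
      ring
    · rw [hτ.res, hτ.res, hτ.res, hw]
  · intro v m k h1 h2 h3 h4
    refine h.low v _ _ h1 (by rw [hτ.ord]; exact h2) ?_ (by rw [hτ.res, hτ.res, h4])
    obtain ⟨c, hc, hc2⟩ := hτ.sc k
    rw [hc2 k (hz'.refl k), h3, mul_zero]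
  · intro v m n h1 h2 hs
    exact σ⁻¹.injective (h.fn v _ _ h1 h2 ((hτ.sm _ _).2 hs))
  · intro v hv
    obtain ⟨k, h1, h2⟩ := h.tot v hv
    refine ⟨σ k, (hσ.ne_zero hz).2 h1, ?_⟩
    rw [show σ⁻¹ (σ k) = k by simp]
    exact h2
  · intro v m h1 h2
    refine h.pos v _ h1 ?_
    rw [hτ.pos hz']
    exact h2

end tr

variable {C : Type} [AddCommGroup C]
  {W : Type} [AddCommGroup W] [LinearOrder W] [IsOrderedAddMonoid W] [Module ℚ W]

/-- The base: an ordered rational vector space `W` with a homomorphism `π` and a tuple `t`. -/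
structure Bs (π : W →+ C) {n : ℕ} (t : Fin n → W) : Prop where
  sur : Function.Surjective π
  tors : ∀ w, ∃ N : ℕ, N ≠ 0 ∧ π (N • w) = 0
  tπ : ∀ i, π (t i) = 0
  sep : ∀ x y, x < y → ∃ (N : ℕ) (a : Fin n → ℤ), N ≠ 0 ∧ N • x ≤ ∑ i, a i • t i ∧
    ∑ i, a i • t i < N • y
  cof : ∀ w, ∃ N : ℕ, |w| ≤ N • ∑ i, |t i|

/-- The residue of an element of the base. -/
def rW (π : W →+ C) (w : W) : Hq C := Hq.mk (fun q => π (q • w)) (fun a b => by
  rw [add_smul, map_add])

@[simp] theorem rW_ev (π : W →+ C) (w : W) (q : ℚ) : (rW π w).ev q = π (q • w) := rfl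

/-- The element `w` of the base is represented by the point `m`. -/
def Mk (cd : W → ℕ) (y : Yc C) (w : W) (m : ℕ) : Prop := y.2 m (cd w) = true

/-- Index structures whose bottom part is marked by the base. -/
structure DW (π : W →+ C) (cd : W → ℕ) (y : Yc C) : Prop where
  z0 : Z0 y.1
  rq : Rq y.1 (Mk cd y)
  res : ∀ w m, Mk cd y w m → y.1.2.2 m = rW π w
  cov : ∀ w m m', Mk cd y w m → y.1.2.1 m ≠ 0 → (sm y.1 m m' ∨ y.1.1 m m' = true) →
    ∃ w', Mk cd y w' m'
  zero : ∀ m, y.1.2.1 m = 0 → y.1.2.2 m = 0 → Mk cd y 0 m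
  junk : ∀ m i, y.2 m i = true → ∃ w, cd w = i

variable {π : W →+ C} {cd : W → ℕ}

theorem Mk_iso {y y' : Yc C} {σ : Equiv.Perm ℕ} (hσ : YIso y y' σ) (w : W) (m : ℕ) :
    Mk cd y' w (σ m) ↔ Mk cd y w m := by
  unfold Mk
  rw [hσ.col]

theorem Mk_iso' {y y' : Yc C} {σ : Equiv.Perm ℕ} (hσ : YIso y y' σ) (w : W) (m : ℕ) :
    Mk cd y' w m ↔ Mk cd y w (σ⁻¹ m) := by
  rw [← Mk_iso hσ]
  simp

theorem DW.inv {y y' : Yc C} (h : DW π cd y) {σ : Equiv.Perm ℕ} (hσ : YIso y y' σ) :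
    DW π cd y' := by
  have hz' := hσ.z0 h.z0
  have hτ := hσ.iso.symm
  refine ⟨hz', ?_, ?_, ?_, ?_, ?_⟩
  · have h1 := h.rq.transport h.z0 hz' hσ.iso
    have h2 : (fun (v : W) (m : ℕ) => Mk cd y v (σ⁻¹ m)) = Mk cd y' := by
      funext v m
      exact propext (Mk_iso' hσ v m).symm
    rw [h2] at h1
    exact h1
  · intro w m h1
    rw [Mk_iso' hσ] at h1
    rw [← hτ.res]
    exact h.res w _ h1
  · intro w m m' h1 h2 h3
    rw [Mk_iso' hσ] at h1
    obtain ⟨w', h4⟩ := h.cov w (σ⁻¹ m) (σ⁻¹ m') h1 ((hτ.ne_zero hz').2 h2) (by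
      rcases h3 with h3 | h3
      · left
        exact (hτ.sm _ _).2 h3
      · right
        rw [hτ.ord]
        exact h3)
    exact ⟨w', (Mk_iso' hσ _ _).2 h4⟩
  · intro m h1 h2
    rw [Mk_iso' hσ]
    refine h.zero _ ?_ ?_
    · have := hτ.ne_zero hz' (m := m)
      rw [not_iff_not] at this
      exact this.2 h1
    · rw [hτ.res]
      exact h2
  · intro m i h1
    have h2 := hσ.col (σ⁻¹ m) i
    rw [show σ (σ⁻¹ m) = m by simp, h1] at h2
    exact h.junk _ _ h2.symm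

theorem DW.invD : InvD {y : Yc C | DW π cd y} :=
  ⟨fun _ h => h.z0, fun _ h _ _ hσ => DW.inv h hσ⟩

theorem meas_DW [MeasurableSpace C] [DiscreteMeasurableSpace C] [Countable C] [Countable W] :
    MeasurableSet {y : Yc C | DW π cd y} := by
  have hMk : ∀ (w : W) (m : ℕ), Measurable fun y : Yc C => Mk cd y w m := fun w m => m4 _ _ _
  have h : ∀ y : Yc C, DW π cd y ↔ (Z0 y.1 ∧
      (∀ (v v' : W) (m n : ℕ), Mk cd y v m → Mk cd y v' n → sm y.1 m n → ∀ (q r : ℚ) (k : ℕ),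
        sm y.1 m k → y.1.2.1 k = q * y.1.2.1 m + r * y.1.2.1 n →
        y.1.2.2 k = q • y.1.2.2 m + r • y.1.2.2 n → Mk cd y (q • v + r • v') k) ∧
      (∀ (v : W) (m k : ℕ), Mk cd y v m → y.1.1 k m = true → y.1.2.1 k = 0 →
        y.1.2.2 k = y.1.2.2 m → Mk cd y v k) ∧
      (∀ (v : W) (m n : ℕ), Mk cd y v m → Mk cd y v n → sm y.1 m n → m = n) ∧
      (∀ v : W, v ≠ 0 → ∃ k, y.1.2.1 k ≠ 0 ∧ Mk cd y v k) ∧
      (∀ (v : W) (m : ℕ), Mk cd y v m → 0 < y.1.2.1 m → 0 < v) ∧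
      (∀ (w : W) (m : ℕ), Mk cd y w m → y.1.2.2 m = rW π w) ∧
      (∀ (w : W) (m m' : ℕ), Mk cd y w m → y.1.2.1 m ≠ 0 →
        (sm y.1 m m' ∨ y.1.1 m m' = true) → ∃ w' : W, Mk cd y w' m') ∧
      (∀ m, y.1.2.1 m = 0 → y.1.2.2 m = 0 → Mk cd y (0 : W) m) ∧
      (∀ m i, y.2 m i = true → ∃ w, cd w = i)) := fun y =>
    ⟨fun h => ⟨h.z0, h.rq.lin, h.rq.low, h.rq.fn, h.rq.tot, h.rq.pos, h.res, h.cov, h.zero, h.junk⟩,
      fun ⟨h0, h1, h2, h3, h4, h5, h6, h7, h8, h9⟩ =>
        ⟨h0, ⟨⟨h1, h2, h3⟩, h4, h5⟩, h6, h7, h8, h9⟩⟩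
  simp only [h]
  rw [measurableSet_setOfPred]
  refine Measurable.and (measurableSet_setOfPred.1 meas_Z0) (Measurable.and ?_ (Measurable.and ?_
    (Measurable.and ?_ (Measurable.and ?_ (Measurable.and ?_ (Measurable.and ?_
    (Measurable.and ?_ (Measurable.and ?_ ?_))))))))
  · exact Measurable.forall fun v => Measurable.forall fun v' => Measurable.forall fun m =>
      Measurable.forall fun n => (hMk _ _).imp ((hMk _ _).imp ((msm _ _).imp
        (Measurable.forall fun q => Measurable.forall fun r => Measurable.forall fun k =>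
          (msm _ _).imp ((meq (m2 _) (((m2 _).const_mul _).add ((m2 _).const_mul _))).imp
            ((Hq.meas_eq (m3 _) (Hq.meas_comb (m3 _) (m3 _) _ _)).imp (hMk _ _))))))
  · exact Measurable.forall fun v => Measurable.forall fun m => Measurable.forall fun k =>
      (hMk _ _).imp ((m1 _ _ _).imp ((meq (m2 _) measurable_const).imp
        ((mq3 _ _).imp (hMk _ _))))
  · exact Measurable.forall fun v => Measurable.forall fun m => Measurable.forall fun n =>
      (hMk _ _).imp ((hMk _ _).imp ((msm _ _).imp measurable_const))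
  · exact Measurable.forall fun v => measurable_const.imp (Measurable.exists fun k =>
      (meq (m2 _) measurable_const).not.and (hMk _ _))
  · exact Measurable.forall fun v => Measurable.forall fun m =>
      (hMk _ _).imp ((mlt measurable_const (m2 _)).imp measurable_const)
  · exact Measurable.forall fun v => Measurable.forall fun m =>
      (hMk _ _).imp (Hq.meas_eq (m3 _) measurable_const)
  · exact Measurable.forall fun v => Measurable.forall fun m => Measurable.forall fun m' =>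
      (hMk _ _).imp ((meq (m2 _) measurable_const).not.imp
        (((msm _ _).or (m1 _ _ _)).imp (Measurable.exists fun w' => hMk _ _)))
  · exact Measurable.forall fun m => (meq (m2 _) measurable_const).imp
      ((Hq.meas_eq (m3 _) measurable_const).imp (hMk _ _))
  · exact Measurable.forall fun m => Measurable.forall fun i => (m4 _ _ _).imp measurable_const

end Pool.Agent.Y566.ZG
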