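import Pool.Agent.Y566.ZG.Uniq

set_option autoImplicit false
set_option linter.unusedSectionVars false

/-! Every index structure is realised by an ordered rational vector space. -/

namespace Pool.Agent.Y566.ZG

open Set

variable {E : Type} [AddCommGroup E] [Module ℚ E] {z z' : Z E}

/-- The ambient space. -/
abbrev F : Type := ℕ →₀ ℚ

open Classical in
/-- The coordinate in the block of `n`. -/
noncomputable def Lam (z : Z E) (n : ℕ) : F →ₗ[ℚ] ℝ :=
  Finsupp.linearCombination ℚ (fun i => if sm z n i then z.2.1 i else 0)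

/-- The residue. -/
noncomputable def Rho (z : Z E) : F →ₗ[ℚ] E := Finsupp.linearCombination ℚ z.2.2

/-- The representation. -/
def Rc (z : Z E) (c : F) (k : ℕ) : Prop :=
  (∀ n, z.1 n k = true → Lam z n c = 0) ∧ Lam z k c = z.2.1 k ∧ Rho z c = z.2.2 k

theorem Lam_congr (hz : Z0 z) {m n : ℕ} (h : sm z m n) : Lam z m = Lam z n := by
  classical
  unfold Lam
  congr 1
  funext i
  have h1 : sm z m i ↔ sm z n i := ⟨fun h1 => hz.trans h.symm h1, fun h1 => hz.trans h h1⟩
  by_cases h2 : sm z m i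
  · rw [if_pos h2, if_pos (h1.1 h2)]
  · rw [if_neg h2, if_neg (fun h3 => h2 (h1.2 h3))]

theorem Rc_pr (hz : Z0 z) : PR z (Rc z) := by
  refine ⟨?_, ?_, ?_⟩
  · rintro v v' m n ⟨h1, h2, h3⟩ ⟨h4, h5, h6⟩ hs q r k hk ha hw
    refine ⟨?_, ?_, ?_⟩
    · intro j hj
      rw [map_add, map_smul, map_smul, h1 j (hz.lt_right hj hk.symm),
        h4 j (hz.lt_right hj (hz.trans hk.symm hs)), smul_zero, smul_zero, add_zero]
    · rw [map_add, map_smul, map_smul, Lam_congr hz hk.symm, h2, Lam_congr hz hs, h5, ha,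
        Rat.smul_def, Rat.smul_def]
    · rw [map_add, map_smul, map_smul, h3, h6, hw]
  · rintro v m k ⟨h1, h2, h3⟩ h4 h5 h6
    refine ⟨fun n hn => h1 n (hz.tr _ _ _ hn h4), ?_, by rw [h3, h6]⟩
    rw [h5]
    exact h1 k h4
  · rintro v m n ⟨h1, h2, h3⟩ ⟨h4, h5, h6⟩ hs
    refine hz.inj m n hs ?_ (by rw [← h3, ← h6])
    rw [← h2, ← h5, Lam_congr hz hs]

theorem Rc_single (hz : Z0 z) (m : ℕ) : Rc z (Finsupp.single m 1) m := by
  classical
  unfold Rc Lam Rho
  refine ⟨?_, ?_, ?_⟩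
  · intro n hn
    rw [Finsupp.linearCombination_single, if_neg (hz.not_sm hn), smul_zero]
  · rw [Finsupp.linearCombination_single, if_pos (hz.refl m), one_smul]
  · rw [Finsupp.linearCombination_single, one_smul]

/-- Subspaces of the ambient space which realise the index structure. -/
structure Gen (z : Z E) (A : Submodule ℚ F) : Prop where
  tot : Tot z (Rc z) A
  sur : ∀ m, ∃ c ∈ A, Rc z c m

theorem exists_gen (hz : Z0 z) : ∃ A : Submodule ℚ F, Gen z A := by
  classical
  let St := {P : Submodule ℚ F // FiniteDimensional ℚ P ∧ Tot z (Rc z) P}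
  have stp : ∀ (n : ℕ) (P : St), ∃ P' : St, P.1 ≤ P'.1 ∧ ∃ c ∈ P'.1, Rc z c n := by
    intro n P
    have := P.2.1
    obtain ⟨P', h1, h2, h3, h4⟩ := realize hz (Rc_pr hz) (fun m => ⟨_, Rc_single hz m⟩) P.1 P.2.2 n
    exact ⟨⟨P', h2, h3⟩, h1, h4⟩
  choose nx hnx1 hnx2 using stp
  have h0 : Tot z (Rc z) (⊥ : Submodule ℚ F) := by
    intro v hv hv0
    exact absurd ((Submodule.mem_bot ℚ).1 hv) hv0
  obtain ⟨s, hs⟩ : ∃ s : ℕ → St, ∀ n, s (n + 1) = nx n (s n) :=
    ⟨fun n => Nat.rec ⟨⊥, inferInstance, h0⟩ (fun n q => nx n q) n, fun _ => rfl⟩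
  have hmono : Monotone (fun n => (s n).1) := by
    apply monotone_nat_of_le_succ
    intro n
    rw [hs]
    exact hnx1 n (s n)
  refine ⟨⨆ n, (s n).1, ?_, ?_⟩
  · intro v hv hv0
    obtain ⟨n, hn⟩ := (Submodule.mem_iSup_of_directed _ hmono.directed_le).1 hv
    exact (s n).2.2 v hn hv0
  · intro m
    obtain ⟨c, h1, h2⟩ := hnx2 m (s m)
    rw [← hs] at h1
    exact ⟨c, Submodule.mem_iSup_of_mem (m + 1) h1, h2⟩

section model

variable {V : Type} [AddCommGroup V] [Module ℚ V] {R : V → ℕ → Prop}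

theorem PR.same (hR : PR z R) (hz : Z0 z) {v : V} {m k : ℕ} (h1 : R v m) (h2 : R v k)
    (h3 : z.2.1 m ≠ 0) (h4 : z.2.1 k ≠ 0) : m = k := by
  rcases trich z m k with h | h | h
  · exact absurd (hR.uniq hz h2 h1 h).1 h3
  · exact hR.fn v m k h1 h2 h
  · exact absurd (hR.uniq hz h1 h2 h).1 h4

/-- The cone of nonnegative elements. -/
def cone (hz : Z0 z) (hR : PR z R) : AddGroupCone V where
  carrier := {v | v = 0 ∨ ∃ k, 0 < z.2.1 k ∧ R v k}
  zero_mem' := Or.inl rfl
  add_mem' := by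
    rintro v w (rfl | ⟨k, h1, h2⟩) (rfl | ⟨j, h3, h4⟩)
    · left
      rw [add_zero]
    · right
      rw [zero_add]
      exact ⟨j, h3, h4⟩
    · right
      rw [add_zero]
      exact ⟨k, h1, h2⟩
    · right
      rcases trich z k j with h | h | h
      · obtain ⟨i, h5, h6, -, h7⟩ := hR.up hz h4 h
        obtain ⟨l, -, h8, -, h9⟩ := hR.comb hz h2 h7 h5 1 1
        rw [one_smul, one_smul] at h9
        refine ⟨l, ?_, h9⟩
        rw [h8, h6]
        simpa using h1
      · obtain ⟨l, -, h8, -, h9⟩ := hR.comb hz h2 h4 h 1 1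
        rw [one_smul, one_smul] at h9
        refine ⟨l, ?_, h9⟩
        rw [h8]
        push_cast
        linarith
      · obtain ⟨i, h5, h6, -, h7⟩ := hR.up hz h2 h
        obtain ⟨l, -, h8, -, h9⟩ := hR.comb hz h7 h4 h5.symm 1 1
        rw [one_smul, one_smul] at h9
        refine ⟨l, ?_, h9⟩
        rw [h8, h6]
        simpa using h3
  eq_zero_of_mem_of_neg_mem' := by
    rintro v (rfl | ⟨k, h1, h2⟩) h
    · rfl
    · rcases h with h | ⟨j, h3, h4⟩
      · exact neg_eq_zero.1 h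
      · exfalso
        obtain ⟨l, -, h8, -, h9⟩ := hR.smul hz h4 (-1)
        rw [neg_smul, one_smul, neg_neg] at h9
        have h10 : z.2.1 l = - z.2.1 j := by
          rw [h8]
          push_cast
          ring
        have h11 := hR.same hz h2 h9 h1.ne' (by rw [h10]; linarith)
        rw [h11, h10] at h1
        linarith

theorem exists_order (hz : Z0 z) (hR : PR z R) (ht : ∀ v : V, v ≠ 0 → ∃ k, z.2.1 k ≠ 0 ∧ R v k)
    (hs : ∀ m, ∃ v, R v m) :
    ∃ (_ : LinearOrder V) (_ : IsOrderedAddMonoid V), Rp z R ∧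
      ∀ v w : V, (v < w ↔ ∃ k, 0 < z.2.1 k ∧ R (w - v) k) := by
  classical
  let C := cone hz hR
  have hmax : HasMemOrNegMem C := by
    refine ⟨fun v => ?_⟩
    by_cases hv : v = 0
    · left
      exact Or.inl hv
    · obtain ⟨k, h1, h2⟩ := ht v hv
      rcases lt_or_gt_of_ne h1 with h3 | h3
      · right
        obtain ⟨l, -, h8, -, h9⟩ := hR.smul hz h2 (-1)
        rw [neg_smul, one_smul] at h9
        right
        refine ⟨l, ?_, h9⟩
        rw [h8]
        push_cast
        linarith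
      · left
        exact Or.inr ⟨k, h3, h2⟩
  have hdec : DecidablePred (· ∈ C) := fun _ => Classical.propDecidable _
  let i1 : LinearOrder V := LinearOrder.mkOfAddGroupCone C
  have i2 : IsOrderedAddMonoid V := IsOrderedAddMonoid.mkOfCone C
  have hle : ∀ v w : V, v ≤ w ↔ (w - v = 0 ∨ ∃ k, 0 < z.2.1 k ∧ R (w - v) k) := fun v w => Iff.rfl
  have hlt : ∀ v w : V, v < w ↔ ∃ k, 0 < z.2.1 k ∧ R (w - v) k := by
    intro v w
    rw [lt_iff_le_and_ne, hle]
    constructor
    · rintro ⟨h1 | h1, h2⟩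
      · exact absurd (sub_eq_zero.1 h1).symm h2
      · exact h1
    · rintro ⟨k, h1, h2⟩
      refine ⟨Or.inr ⟨k, h1, h2⟩, ?_⟩
      rintro rfl
      rw [sub_self] at h2
      exact h1.ne' (hR.of_zero hz h2).1
  refine ⟨i1, i2, ⟨⟨hR, ht, ?_⟩, hs⟩, hlt⟩
  intro v m h1 h2
  rw [hlt]
  exact ⟨m, h2, by rw [sub_zero]; exact h1⟩

end model

/-- A copy of the subspace `A`. -/
def MA (A : Submodule ℚ F) : Type := A

noncomputable instance (A : Submodule ℚ F) : AddCommGroup (MA A) := inferInstanceAs (AddCommGroup A)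

noncomputable instance (A : Submodule ℚ F) : Module ℚ (MA A) := inferInstanceAs (Module ℚ A)

instance (A : Submodule ℚ F) : Countable (MA A) := inferInstanceAs (Countable A)

/-- The element of the ambient space. -/
def MA.val {A : Submodule ℚ F} (v : MA A) : F := Subtype.val (p := fun c => c ∈ A) v

/-- Elements of the copy. -/
def MA.of {A : Submodule ℚ F} (c : F) (h : c ∈ A) : MA A := (⟨c, h⟩ : {c // c ∈ A})

theorem MA.mem {A : Submodule ℚ F} (v : MA A) : v.val ∈ A := Subtype.property (p := fun c => c ∈ A) v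

@[simp] theorem MA.val_of {A : Submodule ℚ F} (c : F) (h : c ∈ A) : (MA.of c h).val = c := rfl

theorem MA.ext {A : Submodule ℚ F} {v w : MA A} (h : v.val = w.val) : v = w :=
  Subtype.ext (p := fun c => c ∈ A) h

@[simp] theorem MA.val_add {A : Submodule ℚ F} (v w : MA A) : (v + w).val = v.val + w.val := rfl

@[simp] theorem MA.val_sub {A : Submodule ℚ F} (v w : MA A) : (v - w).val = v.val - w.val := rfl

@[simp] theorem MA.val_zero {A : Submodule ℚ F} : (0 : MA A).val = 0 := rfl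

@[simp] theorem MA.val_smul {A : Submodule ℚ F} (q : ℚ) (v : MA A) : (q • v).val = q • v.val := rfl

/-- The representation of the subspace `A`. -/
def RA (z : Z E) (A : Submodule ℚ F) (v : MA A) (k : ℕ) : Prop := Rc z v.val k

theorem model (hz : Z0 z) {A : Submodule ℚ F} (hA : Gen z A) :
    ∃ (_ : LinearOrder (MA A)) (_ : IsOrderedAddMonoid (MA A)), Rp z (RA z A) ∧
      ∀ v w : MA A, (v < w ↔ ∃ k, 0 < z.2.1 k ∧ Rc z (w.val - v.val) k) := by
  have hpr := Rc_pr hz
  have hR : PR z (RA z A) := ⟨fun v v' m n h1 h2 => hpr.lin v.val v'.val m n h1 h2,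
    fun v m k h1 => hpr.low v.val m k h1, fun v m n h1 h2 => hpr.fn v.val m n h1 h2⟩
  exact exists_order hz hR (fun v hv => hA.tot v.val v.mem (fun h => hv (MA.ext h)))
    (fun m => by
      obtain ⟨c, h1, h2⟩ := hA.sur m
      exact ⟨MA.of c h1, h2⟩)

end Pool.Agent.Y566.ZG
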