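import Mathlib

set_option autoImplicit false
set_option linter.unusedSectionVars false

/-! Index structures for ordered rational vector spaces with a linear map: abstract part. -/

namespace Pool.Agent.Y566.ZG

open Set

variable {E : Type} [AddCommGroup E] [Module ℚ E]

/-- Points of the index structure: a strict weak order (of blocks), a real coordinate and a
residue. -/
abbrev Z (E : Type) : Type := (ℕ → ℕ → Bool) × (ℕ → ℝ) × (ℕ → E)

/-- `m` and `n` are in the same block. -/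
def sm (z : Z E) (m n : ℕ) : Prop := z.1 m n = false ∧ z.1 n m = false

/-- The conditions on the index structure. -/
structure Z0 (z : Z E) : Prop where
  irr : ∀ m, z.1 m m = false
  tr : ∀ m n k, z.1 m n = true → z.1 n k = true → z.1 m k = true
  wk : ∀ m n k, z.1 m k = true → z.1 m n = true ∨ z.1 n k = true
  inj : ∀ m n, sm z m n → z.2.1 m = z.2.1 n → z.2.2 m = z.2.2 n → m = n
  lin : ∀ m n, sm z m n → ∀ q r : ℚ, ∃ k, sm z m k ∧ z.2.1 k = q * z.2.1 m + r * z.2.1 n ∧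
    z.2.2 k = q • z.2.2 m + r • z.2.2 n
  nz : ∀ m, ∃ k, sm z m k ∧ z.2.1 k ≠ 0
  up : ∀ m n, z.1 m n = true → ∃ k, sm z m k ∧ z.2.1 k = 0 ∧ z.2.2 k = z.2.2 n
  dn : ∀ m, z.2.1 m = 0 → z.2.2 m ≠ 0 → ∃ n, z.1 m n = true ∧ z.2.1 n ≠ 0 ∧ z.2.2 n = z.2.2 m

variable {z : Z E}

theorem Z0.refl (h : Z0 z) (m : ℕ) : sm z m m := ⟨h.irr m, h.irr m⟩

theorem sm.symm {m n : ℕ} (h : sm z m n) : sm z n m := ⟨h.2, h.1⟩

theorem Z0.trans (h : Z0 z) {m n k : ℕ} (h1 : sm z m n) (h2 : sm z n k) : sm z m k := by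
  constructor
  · by_contra h3
    rw [Bool.not_eq_false] at h3
    rcases h.wk m n k h3 with h4 | h4
    · rw [h1.1] at h4
      exact Bool.false_ne_true h4
    · rw [h2.1] at h4
      exact Bool.false_ne_true h4
  · by_contra h3
    rw [Bool.not_eq_false] at h3
    rcases h.wk k n m h3 with h4 | h4
    · rw [h2.2] at h4
      exact Bool.false_ne_true h4
    · rw [h1.2] at h4
      exact Bool.false_ne_true h4

theorem Z0.lt_left (h : Z0 z) {m n k : ℕ} (h1 : sm z m n) (h2 : z.1 n k = true) :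
    z.1 m k = true := by
  rcases h.wk n m k h2 with h4 | h4
  · rw [h1.2] at h4
    exact absurd h4 Bool.false_ne_true
  · exact h4

theorem Z0.lt_right (h : Z0 z) {m n k : ℕ} (h1 : z.1 m n = true) (h2 : sm z n k) :
    z.1 m k = true := by
  rcases h.wk m k n h1 with h4 | h4
  · exact h4
  · rw [h2.2] at h4
    exact absurd h4 Bool.false_ne_true

theorem Z0.asymm (h : Z0 z) {m n : ℕ} (h1 : z.1 m n = true) : z.1 n m = false := by
  by_contra h3
  rw [Bool.not_eq_false] at h3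
  have := h.tr m n m h1 h3
  rw [h.irr] at this
  exact Bool.false_ne_true this

theorem Z0.not_sm (h : Z0 z) {m n : ℕ} (h1 : z.1 m n = true) : ¬ sm z m n := by
  intro h2
  rw [h2.1] at h1
  exact Bool.false_ne_true h1

theorem trich (z : Z E) (m n : ℕ) : z.1 m n = true ∨ sm z m n ∨ z.1 n m = true := by
  unfold sm
  cases h1 : z.1 m n <;> cases h2 : z.1 n m <;> simp

/-- The multiples of a point. -/
theorem Z0.smul (h : Z0 z) (m : ℕ) (q : ℚ) : ∃ k, sm z m k ∧ z.2.1 k = q * z.2.1 m ∧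
    z.2.2 k = q • z.2.2 m := by
  obtain ⟨k, h1, h2, h3⟩ := h.lin m m (h.refl m) q 0
  exact ⟨k, h1, by rw [h2]; simp, by rw [h3]; simp⟩

/-- The zero of the block of `m`. -/
theorem Z0.zero (h : Z0 z) (m : ℕ) : ∃ k, sm z m k ∧ z.2.1 k = 0 ∧ z.2.2 k = 0 := by
  obtain ⟨k, h1, h2, h3⟩ := h.smul m 0
  exact ⟨k, h1, by rw [h2]; simp, by rw [h3]; simp⟩

section rep

variable {V : Type} [AddCommGroup V] [Module ℚ V]

/-- The relation `R` represents elements of `V` by points: block, leading coefficient, residue. -/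
structure PR (z : Z E) (R : V → ℕ → Prop) : Prop where
  lin : ∀ v v' m n, R v m → R v' n → sm z m n → ∀ (q r : ℚ) (k : ℕ), sm z m k →
    z.2.1 k = q * z.2.1 m + r * z.2.1 n → z.2.2 k = q • z.2.2 m + r • z.2.2 n →
    R (q • v + r • v') k
  low : ∀ v m k, R v m → z.1 k m = true → z.2.1 k = 0 → z.2.2 k = z.2.2 m → R v k
  fn : ∀ v m n, R v m → R v n → sm z m n → m = n

/-- Every nonzero element of `A` has a nonzero leading coefficient. -/
def Tot (z : Z E) (R : V → ℕ → Prop) (A : Submodule ℚ V) : Prop :=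
  ∀ v ∈ A, v ≠ 0 → ∃ k, z.2.1 k ≠ 0 ∧ R v k

variable {R : V → ℕ → Prop}

theorem tot_bot : Tot z R (⊥ : Submodule ℚ V) := by
  intro v hv hv0
  exact absurd ((Submodule.mem_bot ℚ).1 hv) hv0

theorem PR.uniq (hR : PR z R) (hz : Z0 z) {v : V} {m k : ℕ} (h1 : R v m) (h2 : R v k)
    (h3 : z.1 k m = true) : z.2.1 k = 0 ∧ z.2.2 k = z.2.2 m := by
  obtain ⟨j, h4, h5, h6⟩ := hz.up k m h3
  have h7 := hR.low v m j h1 (hz.lt_left h4.symm h3) h5 h6
  have h8 := hR.fn v k j h2 h7 h4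
  rw [h8]
  exact ⟨h5, h6⟩

theorem PR.res (hR : PR z R) (hz : Z0 z) {v : V} {m k : ℕ} (h1 : R v m) (h2 : R v k) :
    z.2.2 k = z.2.2 m := by
  rcases trich z m k with h | h | h
  · exact (hR.uniq hz h2 h1 h).2.symm
  · rw [hR.fn v m k h1 h2 h]
  · exact (hR.uniq hz h1 h2 h).2

/-- The representation in a larger block. -/
theorem PR.up (hR : PR z R) (hz : Z0 z) {v : V} {m k : ℕ} (h1 : R v m) (h3 : z.1 k m = true) :
    ∃ j, sm z k j ∧ z.2.1 j = 0 ∧ z.2.2 j = z.2.2 m ∧ R v j := by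
  obtain ⟨j, h4, h5, h6⟩ := hz.up k m h3
  exact ⟨j, h4, h5, h6, hR.low v m j h1 (hz.lt_left h4.symm h3) h5 h6⟩

theorem PR.smul (hR : PR z R) (hz : Z0 z) {v : V} {m : ℕ} (h1 : R v m) (q : ℚ) :
    ∃ k, sm z m k ∧ z.2.1 k = q * z.2.1 m ∧ z.2.2 k = q • z.2.2 m ∧ R (q • v) k := by
  obtain ⟨k, h2, h3, h4⟩ := hz.smul m q
  have h5 := hR.lin v v m m h1 h1 (hz.refl m) q 0 k h2 (by rw [h3]; simp) (by rw [h4]; simp)
  rw [zero_smul, add_zero] at h5
  exact ⟨k, h2, h3, h4, h5⟩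

theorem PR.zero (hR : PR z R) (hz : Z0 z) {v : V} {m k : ℕ} (h1 : R v m) (h2 : sm z m k)
    (h3 : z.2.1 k = 0) (h4 : z.2.2 k = 0) : R (0 : V) k := by
  have h5 := hR.lin v v m m h1 h1 (hz.refl m) 0 0 k h2 (by rw [h3]; simp) (by rw [h4]; simp)
  simpa using h5

theorem PR.of_zero (hR : PR z R) (hz : Z0 z) {m : ℕ} (h1 : R (0 : V) m) :
    z.2.1 m = 0 ∧ z.2.2 m = 0 := by
  obtain ⟨k, h2, h3, h4⟩ := hz.zero m
  have h5 := hR.zero hz h1 h2 h3 h4
  rw [hR.fn 0 m k h1 h5 h2]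
  exact ⟨h3, h4⟩

theorem PR.comb (hR : PR z R) (hz : Z0 z) {v v' : V} {m n : ℕ} (h1 : R v m) (h2 : R v' n)
    (h3 : sm z m n) (q r : ℚ) : ∃ k, sm z m k ∧ z.2.1 k = q * z.2.1 m + r * z.2.1 n ∧
    z.2.2 k = q • z.2.2 m + r • z.2.2 n ∧ R (q • v + r • v') k := by
  obtain ⟨k, h4, h5, h6⟩ := hz.lin m n h3 q r
  exact ⟨k, h4, h5, h6, hR.lin v v' m n h1 h2 h3 q r k h4 h5 h6⟩

/-- Adding an element whose leading coefficient is new. -/
theorem join (hz : Z0 z) (hR : PR z R) {A : Submodule ℚ V} (hT : Tot z R A) {b : V} {m : ℕ}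
    (hb : R b m) (hm : z.2.1 m ≠ 0)
    (hn : ∀ f ∈ A, ∀ n, R f n → sm z m n → z.2.1 n ≠ z.2.1 m) :
    Tot z R (A ⊔ Submodule.span ℚ {b}) := by
  intro v hv hv0
  obtain ⟨f, hf, g, hg, rfl⟩ := Submodule.mem_sup.1 hv
  obtain ⟨q, rfl⟩ := Submodule.mem_span_singleton.1 hg
  by_cases hq : q = 0
  · subst hq
    rw [zero_smul, add_zero] at hv0 ⊢
    exact hT f hf hv0
  have hq' : (q : ℝ) ≠ 0 := by exact_mod_cast hq
  by_cases hf0 : f = 0
  · subst hf0
    rw [zero_add]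
    obtain ⟨k, h1, h2, h3, h4⟩ := hR.smul hz hb q
    exact ⟨k, by rw [h2]; exact mul_ne_zero hq' hm, h4⟩
  obtain ⟨n, hn1, hn2⟩ := hT f hf hf0
  rcases trich z n m with h | h | h
  · obtain ⟨j, h1, h2, h3, h4⟩ := hR.up hz hb h
    obtain ⟨k, h5, h6, h7, h8⟩ := hR.comb hz hn2 h4 h1 1 q
    rw [one_smul] at h8
    refine ⟨k, ?_, h8⟩
    rw [h6, h2]
    simpa using hn1
  · obtain ⟨k, h5, h6, h7, h8⟩ := hR.comb hz hn2 hb h 1 q
    rw [one_smul] at h8
    refine ⟨k, ?_, h8⟩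
    rw [h6]
    intro h9
    obtain ⟨j, h10, h11, h12, h13⟩ := hR.smul hz hn2 (-1 / q)
    refine hn _ (Submodule.smul_mem _ _ hf) j h13 (hz.trans h.symm h10) ?_
    rw [h11]
    have h14 : z.2.1 n = - (q * z.2.1 m) := by
      rw [Rat.cast_one, one_mul] at h9
      linarith
    rw [h14]
    push_cast
    field_simp
  · obtain ⟨j, h1, h2, h3, h4⟩ := hR.up hz hn2 h
    obtain ⟨k, h5, h6, h7, h8⟩ := hR.comb hz h4 hb h1.symm 1 q
    rw [one_smul] at h8
    refine ⟨k, ?_, h8⟩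
    rw [h6, h2, mul_zero, zero_add]
    exact mul_ne_zero hq' hm

/-- The elements of `A` which are at most in the block of `m`. -/
def Le (hz : Z0 z) (hR : PR z R) (A : Submodule ℚ V) (m : ℕ) : Submodule ℚ V where
  carrier := {v | v ∈ A ∧ (v = 0 ∨ ∃ k, sm z m k ∧ R v k)}
  zero_mem' := ⟨A.zero_mem, Or.inl rfl⟩
  add_mem' := by
    rintro v w ⟨h1, h2⟩ ⟨h3, h4⟩
    refine ⟨A.add_mem h1 h3, ?_⟩
    rcases h2 with rfl | ⟨k, h5, h6⟩
    · rw [zero_add]
      exact h4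
    · rcases h4 with rfl | ⟨j, h7, h8⟩
      · rw [add_zero]
        exact Or.inr ⟨k, h5, h6⟩
      · right
        obtain ⟨i, h9, -, -, h10⟩ := hR.comb hz h6 h8 (hz.trans h5.symm h7) 1 1
        rw [one_smul, one_smul] at h10
        exact ⟨i, hz.trans h5 h9, h10⟩
  smul_mem' := by
    rintro q v ⟨h1, h2⟩
    refine ⟨A.smul_mem q h1, ?_⟩
    rcases h2 with rfl | ⟨k, h5, h6⟩
    · left
      rw [smul_zero]
    · right
      obtain ⟨i, h9, -, -, h10⟩ := hR.smul hz h6 q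
      exact ⟨i, hz.trans h5 h9, h10⟩

theorem mem_Le {hz : Z0 z} {hR : PR z R} {A : Submodule ℚ V} {m : ℕ} {v : V} :
    v ∈ Le hz hR A m ↔ v ∈ A ∧ (v = 0 ∨ ∃ k, sm z m k ∧ R v k) := Iff.rfl

theorem Le_lt (hz : Z0 z) (hR : PR z R) (A : Submodule ℚ V) [FiniteDimensional ℚ A] {m n k : ℕ}
    (h : z.1 m n = true) {f : V} (hf : f ∈ A) (h1 : R f k) (h2 : sm z m k) (h3 : z.2.1 k ≠ 0) :
    Module.finrank ℚ (Le hz hR A n) < Module.finrank ℚ (Le hz hR A m) := by
  have hle : Le hz hR A m ≤ A := fun v hv => hv.1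
  have hfd : FiniteDimensional ℚ (Le hz hR A m) := Submodule.finiteDimensional_of_le hle
  apply Submodule.finrank_lt_finrank_of_lt
  rw [lt_iff_le_and_ne]
  constructor
  · rintro v ⟨h4, h5⟩
    refine ⟨h4, ?_⟩
    rcases h5 with h5 | ⟨j, h5, h6⟩
    · exact Or.inl h5
    · right
      obtain ⟨i, h7, -, -, h8⟩ := hR.up hz h6 (hz.lt_right h h5)
      exact ⟨i, h7, h8⟩
  · intro heq
    have h4 : f ∈ Le hz hR A m := ⟨hf, Or.inr ⟨k, h2, h1⟩⟩
    rw [← heq] at h4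
    rcases h4.2 with h5 | ⟨j, h5, h6⟩
    · rw [h5] at h1
      exact h3 (hR.of_zero hz h1).1
    · exact h3 (hR.uniq hz h6 h1 (hz.lt_left h2.symm (hz.lt_right h h5))).1

/-- Best approximations. -/
theorem best (hz : Z0 z) (hR : PR z R) {U : Type} [AddCommGroup U] [Module ℚ U]
    {R₂ : U → ℕ → Prop} (hR2 : PR z R₂) (π : U →ₗ[ℚ] V) (hπ : ∀ p n, R₂ p n → R (π p) n)
    (A : Submodule ℚ U) [FiniteDimensional ℚ A] (g : V)
    (hg : ∀ p ∈ A, ∃ m, z.2.1 m ≠ 0 ∧ R (g - π p) m) :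
    ∃ p ∈ A, ∃ m, z.2.1 m ≠ 0 ∧ R (g - π p) m ∧
      ∀ p₁ ∈ A, ∀ n, R₂ p₁ n → sm z m n → z.2.1 n ≠ z.2.1 m := by
  classical
  have hex : ∃ d : ℕ, ∃ p ∈ A, ∃ m, z.2.1 m ≠ 0 ∧ R (g - π p) m ∧
      Module.finrank ℚ (Le hz hR2 A m) = d := by
    obtain ⟨m, h1, h2⟩ := hg 0 A.zero_mem
    exact ⟨_, 0, A.zero_mem, m, h1, h2, rfl⟩
  obtain ⟨p, hp, m, hm, hm2, hd⟩ := Nat.find_spec hex
  refine ⟨p, hp, m, hm, hm2, ?_⟩
  intro p₁ hp₁ n hn hs he
  obtain ⟨m₂, h1, h2⟩ := hg (p + p₁) (A.add_mem hp hp₁)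
  obtain ⟨k, h3, h4, h5, h6⟩ := hR.comb hz hm2 (hπ _ _ hn) hs 1 (-1)
  have h7 : (1 : ℚ) • (g - π p) + (-1 : ℚ) • π p₁ = g - π (p + p₁) := by
    rw [map_add, one_smul, neg_smul, one_smul]
    abel
  rw [h7] at h6
  have h8 : z.2.1 k = 0 := by
    rw [h4, he]
    push_cast
    ring
  have h9 : z.1 m m₂ = true := by
    rcases trich z k m₂ with h | h | h
    · exact hz.lt_left h3 h
    · rw [hR.fn _ _ _ h6 h2 h] at h8
      exact absurd h8 h1
    · exact absurd (hR.uniq hz h6 h2 h).1 h1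
  have h10 := Le_lt hz hR2 A h9 hp₁ hn hs (by rw [he]; exact hm)
  rw [hd] at h10
  exact Nat.find_min hex h10 ⟨p + p₁, A.add_mem hp hp₁, m₂, h1, h2, rfl⟩

/-- Extending finite-dimensional subspaces so that a point is represented. -/
theorem realize (hz : Z0 z) (hR : PR z R) (hs : ∀ m, ∃ b, R b m) (A : Submodule ℚ V)
    [FiniteDimensional ℚ A] (hT : Tot z R A) (m : ℕ) :
    ∃ A' : Submodule ℚ V, A ≤ A' ∧ FiniteDimensional ℚ A' ∧ Tot z R A' ∧ ∃ c ∈ A', R c m := by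
  have key : ∀ (d : ℕ) (m : ℕ), z.2.1 m ≠ 0 → Module.finrank ℚ (Le hz hR A m) ≤ d →
      ∃ A' : Submodule ℚ V, A ≤ A' ∧ FiniteDimensional ℚ A' ∧ Tot z R A' ∧ ∃ c ∈ A', R c m := by
    intro d
    induction d with
    | zero =>
      intro m hm hd
      by_cases hc : ∀ f ∈ A, ∀ n, R f n → sm z m n → z.2.1 n ≠ z.2.1 m
      · obtain ⟨b, hb⟩ := hs m
        refine ⟨A ⊔ Submodule.span ℚ {b}, le_sup_left, inferInstance, join hz hR hT hb hm hc,
          b, ?_, hb⟩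
        exact Submodule.mem_sup_right (Submodule.mem_span_singleton_self b)
      · exfalso
        push Not at hc
        obtain ⟨f, hf, n, h1, h2, h3⟩ := hc
        have hle : Le hz hR A m ≤ A := fun v hv => hv.1
        have hfd : FiniteDimensional ℚ (Le hz hR A m) := Submodule.finiteDimensional_of_le hle
        have h4 : Le hz hR A m = ⊥ := by
          apply Submodule.finrank_eq_zero.1
          omega
        have h5 : f ∈ Le hz hR A m := ⟨hf, Or.inr ⟨n, h2, h1⟩⟩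
        rw [h4, Submodule.mem_bot] at h5
        rw [h5] at h1
        exact hm (by rw [← h3]; exact (hR.of_zero hz h1).1)
    | succ d ih =>
      intro m hm hd
      by_cases hc : ∀ f ∈ A, ∀ n, R f n → sm z m n → z.2.1 n ≠ z.2.1 m
      · obtain ⟨b, hb⟩ := hs m
        refine ⟨A ⊔ Submodule.span ℚ {b}, le_sup_left, inferInstance, join hz hR hT hb hm hc,
          b, ?_, hb⟩
        exact Submodule.mem_sup_right (Submodule.mem_span_singleton_self b)
      · push Not at hc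
        obtain ⟨f, hf, n, h1, h2, h3⟩ := hc
        obtain ⟨p, h4, h5, h6⟩ := hz.lin m n h2 1 (-1)
        have h7 : z.2.1 p = 0 := by
          rw [h5, h3]
          push_cast
          ring
        by_cases h8 : z.2.2 p = 0
        · have h9 : n = m := by
            refine hz.inj n m h2.symm h3 ?_
            rw [h6, one_smul, neg_smul, one_smul, ← sub_eq_add_neg, sub_eq_zero] at h8
            exact h8.symm
          rw [h9] at h1
          exact ⟨A, le_rfl, inferInstance, hT, f, hf, h1⟩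
        · obtain ⟨k, h9, h10, h11⟩ := hz.dn p h7 h8
          have h12 := Le_lt hz hR A (hz.lt_left h4 h9) hf h1 h2 (by rw [h3]; exact hm)
          obtain ⟨A', h13, h14, h15, c, h16, h17⟩ := ih k h10 (by omega)
          have h18 : R c p := hR.low c k p h17 h9 h7 h11.symm
          refine ⟨A', h13, h14, h15, f + c, Submodule.add_mem _ (h13 hf) h16, ?_⟩
          have h19 := hR.lin f c n p h1 h18 (hz.trans h2.symm h4) 1 1 m h2.symm
            (by rw [h7, h3]; push_cast; ring) (by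
              rw [h6, one_smul, one_smul, one_smul, neg_smul, one_smul]
              abel)
          rw [one_smul, one_smul] at h19
          exact h19
  by_cases hm : z.2.1 m = 0
  · by_cases hw : z.2.2 m = 0
    · obtain ⟨b, hb⟩ := hs m
      exact ⟨A, le_rfl, inferInstance, hT, 0, A.zero_mem, hR.zero hz hb (hz.refl m) hm hw⟩
    · obtain ⟨n, h1, h2, h3⟩ := hz.dn m hm hw
      obtain ⟨A', h13, h14, h15, c, h16, h17⟩ := key _ n h2 le_rfl
      exact ⟨A', h13, h14, h15, c, h16, hR.low c n m h17 h1 hm h3.symm⟩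
  · exact key _ m hm le_rfl

end rep

end Pool.Agent.Y566.ZG
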