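import Pool.Agent.Y566.ZG.Asm

set_option autoImplicit false
set_option linter.unusedSectionVars false

/-! Tame ordered groups. -/

namespace Pool.Agent.Y566.ZG

open Set

variable {G : Type} [AddCommGroup G] [LinearOrder G] [IsOrderedAddMonoid G]

/-- Ordered groups which are divisible modulo a convex subgroup which is archimedean or of finite
rank. -/
def Tm (G : Type) [AddCommGroup G] [LinearOrder G] : Prop :=
  ∃ H : AddSubgroup G, (∀ a b : G, |a| ≤ |b| → b ∈ H → a ∈ H) ∧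
    (∀ (g : G) (N : ℕ), N ≠ 0 → ∃ g' : G, g - N • g' ∈ H) ∧
    ((∀ a b : G, a ∈ H → b ∈ H → 0 < a → ∃ N : ℕ, b ≤ N • a) ∨
      ∃ (n : ℕ) (t : Fin n → G), (∀ i, t i ∈ H) ∧ ∀ h ∈ H, ∃ (N : ℕ) (c : Fin n → ℤ),
        N ≠ 0 ∧ N • h = ∑ i, c i • t i)

theorem sep_arch {H : AddSubgroup G} (harch : ∀ a b : G, a ∈ H → b ∈ H → 0 < a → ∃ N : ℕ, b ≤ N • a)
    {u : G} (hu : u ∈ H) (hu0 : 0 < u) {a b : G} (ha : a ∈ H) (hb : b ∈ H) (hab : a < b) :
    ∃ (N : ℕ) (c : ℤ), N ≠ 0 ∧ N • a ≤ c • u ∧ c • u < N • b := by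
  haveI : Archimedean H := by
    constructor
    intro x y hy
    obtain ⟨N, hN⟩ := harch y.1 x.1 y.2 x.2 hy
    exact ⟨N, hN⟩
  obtain ⟨N, hN⟩ := harch (b - a) u (H.sub_mem hb ha) hu (sub_pos.2 hab)
  have hN1 : u < (N + 1) • (b - a) := by
    rw [succ_nsmul]
    exact hN.trans_lt (lt_add_of_pos_right _ (sub_pos.2 hab))
  obtain ⟨k, ⟨h1, h2⟩, -⟩ := existsUnique_zsmul_near_of_pos (a := (⟨u, hu⟩ : H)) hu0
    (-((N + 1) • (⟨a, ha⟩ : H)))
  have h1' : k • u ≤ -((N + 1) • a) := h1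
  have h2' : -((N + 1) • a) < (k + 1) • u := h2
  refine ⟨N + 1, -k, Nat.succ_ne_zero N, ?_, ?_⟩
  · rw [neg_zsmul]
    exact le_neg_of_le_neg h1'
  · rw [neg_zsmul]
    rw [add_zsmul, one_zsmul] at h2'
    rw [nsmul_sub] at hN1
    have h3 := add_lt_add h2' hN1
    have h4 : -((N + 1) • a) + u < k • u + u + ((N + 1) • b - (N + 1) • a) := h3
    have h5 : -(k • u) = (-((N + 1) • a) + u) + ((N + 1) • a - u - k • u) := by abel
    have h6 : (N + 1) • b = (k • u + u + ((N + 1) • b - (N + 1) • a)) +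
        ((N + 1) • a - u - k • u) := by abel
    rw [h5, h6]
    exact (add_lt_add_iff_right _).2 h4

theorem mem_Hs_le {n : ℕ} {s : Fin n → G} {H : AddSubgroup G}
    (hconv : ∀ a b : G, |a| ≤ |b| → b ∈ H → a ∈ H) (hs : ∀ i, s i ∈ H) {g : G} (hg : g ∈ Hs s) :
    g ∈ H := by
  obtain ⟨N, hN⟩ := hg
  refine hconv g (N • ∑ i, |s i|) (hN.trans (le_abs_self _)) (H.nsmul_mem ?_ N)
  refine H.sum_mem fun i _ => ?_
  exact hconv _ _ (by rw [abs_abs]) (hs i)

theorem Tm.gd (h : Tm G) : ∃ (n : ℕ) (s : Fin n → G), Gd s := by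
  obtain ⟨H, hconv, hdiv, harch | ⟨n, t, ht, hfin⟩⟩ := h
  · by_cases hH : ∃ u ∈ H, 0 < u
    · obtain ⟨u, hu, hu0⟩ := hH
      refine ⟨1, fun _ => u, ?_, ?_⟩
      · intro g N hN
        obtain ⟨g', hg'⟩ := hdiv g N hN
        refine ⟨g', g - N • g', ?_, by abel⟩
        obtain ⟨M, hM⟩ := harch u |g - N • g'| hu (hconv _ _ (by rw [abs_abs]) hg') hu0
        refine ⟨M, ?_⟩
        simp only [Finset.univ_unique, Finset.sum_const, Finset.card_singleton, one_nsmul]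
        rw [abs_of_pos hu0]
        exact hM
      · intro a ha b hb hab
        have hs : ∀ i : Fin 1, (fun _ => u : Fin 1 → G) i ∈ H := fun _ => hu
        obtain ⟨N, c, hN, h1, h2⟩ := sep_arch harch hu hu0 (mem_Hs_le hconv hs ha)
          (mem_Hs_le hconv hs hb) hab
        refine ⟨N, fun _ => c, hN, ?_, ?_⟩
        · simpa using h1
        · simpa using h2
    · have h0 : ∀ g ∈ H, g = 0 := by
        intro g hg
        by_contra hne
        exact hH ⟨|g|, hconv _ _ (by rw [abs_abs]) hg, abs_pos.2 hne⟩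
      refine ⟨0, Fin.elim0, ?_, ?_⟩
      · intro g N hN
        obtain ⟨g', hg'⟩ := hdiv g N hN
        refine ⟨g', 0, (Hs _).zero_mem, ?_⟩
        have := h0 _ hg'
        rw [add_zero]
        exact sub_eq_zero.1 this
      · intro a ha b hb hab
        have hz : ∀ g ∈ Hs (Fin.elim0 : Fin 0 → G), g = 0 := by
          rintro g ⟨N, hN⟩
          simp only [Finset.univ_eq_empty, Finset.sum_empty, smul_zero] at hN
          exact abs_nonpos_iff.1 hN
        rw [hz a ha, hz b hb] at hab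
        exact absurd hab (lt_irrefl _)
  · refine ⟨n, t, ?_, ?_⟩
    · intro g N hN
      obtain ⟨g', hg'⟩ := hdiv g N hN
      refine ⟨g', g - N • g', ?_, by abel⟩
      obtain ⟨M, c, hM, h1⟩ := hfin _ hg'
      have h2 : M • (g - N • g') ∈ Hs t := by
        rw [h1]
        exact (Hs t).sum_mem fun i _ => (Hs t).zsmul_mem (s_mem_Hs t i) _
      obtain ⟨K, hK⟩ := h2
      refine ⟨K, ?_⟩
      refine le_trans ?_ hK
      rw [abs_nsmul]
      calc |g - N • g'| = 1 • |g - N • g'| := (one_nsmul _).symm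
        _ ≤ M • |g - N • g'| := nsmul_le_nsmul_left (abs_nonneg _) (Nat.one_le_iff_ne_zero.2 hM)
    · intro a ha b hb hab
      obtain ⟨M, c, hM, h1⟩ := hfin a (mem_Hs_le hconv ht ha)
      refine ⟨M, c, hM, h1.le, ?_⟩
      rw [← h1]
      exact nsmul_lt_nsmul_right hM hab

/-- Models of Presburger arithmetic. -/
theorem tm_presburger {u : G} (hu : 0 < u) (hl : ∀ g : G, 0 < g → u ≤ g)
    (hd : ∀ (g : G) (N : ℕ), N ≠ 0 → ∃ (g' : G) (r : ℕ), g = N • g' + r • u) : Tm G := by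
  refine ⟨Hs (fun _ => u : Fin 1 → G), ?_, ?_, Or.inl ?_⟩
  · rintro a b hab ⟨N, hN⟩
    exact ⟨N, hab.trans hN⟩
  · intro g N hN
    obtain ⟨g', r, h1⟩ := hd g N hN
    refine ⟨g', ?_⟩
    rw [h1, add_sub_cancel_left]
    exact (Hs _).nsmul_mem (s_mem_Hs (fun _ => u : Fin 1 → G) 0) r
  · rintro a b ha ⟨N, hN⟩ ha0
    refine ⟨N, (le_abs_self b).trans (hN.trans ?_)⟩
    simp only [Finset.univ_unique, Finset.sum_const, Finset.card_singleton, one_nsmul]
    rw [abs_of_pos hu]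
    exact nsmul_le_nsmul_right (hl a ha0) N

end Pool.Agent.Y566.ZG
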