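import Pool.Agent.Y566.ZG.Idx

set_option autoImplicit false
set_option linter.unusedSectionVars false

/-! Representations of ordered rational vector spaces by index structures are unique. -/

namespace Pool.Agent.Y566.ZG

open Set

variable {E : Type} [AddCommGroup E] [Module ℚ E] {z z' : Z E}

/-- Isomorphisms of index structures. -/
structure ZIso (z z' : Z E) (σ : Equiv.Perm ℕ) : Prop where
  ord : ∀ m n, z'.1 (σ m) (σ n) = z.1 m n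
  sc : ∀ m, ∃ c : ℝ, 0 < c ∧ ∀ n, sm z m n → z'.2.1 (σ n) = c * z.2.1 n
  res : ∀ n, z'.2.2 (σ n) = z.2.2 n

theorem ZIso.sm {σ : Equiv.Perm ℕ} (h : ZIso z z' σ) (m n : ℕ) :
    sm z' (σ m) (σ n) ↔ sm z m n := by
  unfold ZG.sm
  rw [h.ord, h.ord]

theorem ZIso.symm {σ : Equiv.Perm ℕ} (h : ZIso z z' σ) : ZIso z' z σ⁻¹ := by
  refine ⟨?_, ?_, ?_⟩
  · intro m n
    rw [← h.ord]
    simp
  · intro m
    obtain ⟨c, h1, h2⟩ := h.sc (σ⁻¹ m)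
    refine ⟨c⁻¹, inv_pos.2 h1, ?_⟩
    intro n hn
    have h3 := h2 (σ⁻¹ n) (by rw [← h.sm]; simpa using hn)
    rw [show σ (σ⁻¹ n) = n by simp] at h3
    rw [h3, inv_mul_cancel_left₀ h1.ne']
  · intro n
    rw [← h.res]
    simp

theorem ZIso.refl (hz : Z0 z) : ZIso z z 1 :=
  ⟨fun _ _ => rfl, fun _ => ⟨1, one_pos, fun _ _ => by simp⟩, fun _ => rfl⟩

section rp

variable {V : Type} [AddCommGroup V] [LinearOrder V] [IsOrderedAddMonoid V] [Module ℚ V]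

/-- `R` represents the ordered vector space `V` by a part of the index structure `z`. -/
structure Rq (z : Z E) (R : V → ℕ → Prop) : Prop extends PR z R where
  tot : ∀ v, v ≠ 0 → ∃ k, z.2.1 k ≠ 0 ∧ R v k
  pos : ∀ v m, R v m → 0 < z.2.1 m → 0 < v

/-- `R` represents the ordered vector space `V` by the index structure `z`. -/
structure Rp (z : Z E) (R : V → ℕ → Prop) : Prop extends Rq z R where
  sur : ∀ m, ∃ v, R v m

variable {R : V → ℕ → Prop}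

theorem Rq.neg_of (h : Rq z R) (hz : Z0 z) {v : V} {m : ℕ} (h1 : R v m) (h2 : z.2.1 m < 0) :
    v < 0 := by
  obtain ⟨k, -, h3, -, h4⟩ := h.toPR.smul hz h1 (-1)
  have h5 := h.pos _ k h4 (by rw [h3]; push_cast; linarith)
  rw [neg_smul, one_smul] at h5
  exact neg_pos.1 h5

theorem Rq.pos_iff (h : Rq z R) (hz : Z0 z) {v : V} {m : ℕ} (h1 : R v m) (h2 : z.2.1 m ≠ 0) :
    0 < v ↔ 0 < z.2.1 m := by
  refine ⟨fun h3 => ?_, h.pos v m h1⟩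
  rcases lt_or_gt_of_ne h2 with h4 | h4
  · exact absurd h3 (h.neg_of hz h1 h4).not_gt
  · exact h4

theorem Rq.ne_zero (h : Rq z R) (hz : Z0 z) {v : V} {m : ℕ} (h1 : R v m) (h2 : z.2.1 m ≠ 0) :
    v ≠ 0 := by
  rintro rfl
  exact h2 (h.toPR.of_zero hz h1).1

theorem Rq.zero_iff (h : Rq z R) (hz : Z0 z) (m : ℕ) :
    R 0 m ↔ (∃ v, R v m) ∧ z.2.1 m = 0 ∧ z.2.2 m = 0 := by
  refine ⟨fun h1 => ⟨⟨0, h1⟩, h.toPR.of_zero hz h1⟩, fun ⟨⟨v, hv⟩, h1, h2⟩ => ?_⟩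
  exact h.toPR.zero hz hv (hz.refl m) h1 h2

theorem Rp.zero_iff (h : Rp z R) (hz : Z0 z) (m : ℕ) :
    R 0 m ↔ z.2.1 m = 0 ∧ z.2.2 m = 0 := by
  rw [h.toRq.zero_iff hz]
  exact ⟨fun h1 => h1.2, fun h1 => ⟨h.sur m, h1⟩⟩

theorem Rq.iff_of (h : Rq z R) (hz : Z0 z) {v : V} {k : ℕ} (h1 : R v k) (h2 : z.2.1 k ≠ 0) (m : ℕ) :
    R v m ↔ (m = k ∨ (z.1 m k = true ∧ z.2.1 m = 0 ∧ z.2.2 m = z.2.2 k)) := by
  constructor
  · intro h3
    rcases trich z m k with h4 | h4 | h4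
    · exact Or.inr ⟨h4, h.toPR.uniq hz h1 h3 h4⟩
    · exact Or.inl (h.fn _ _ _ h3 h1 h4)
    · exact absurd (h.toPR.uniq hz h3 h1 h4).1 h2
  · rintro (rfl | ⟨h3, h4, h5⟩)
    · exact h1
    · exact h.low _ _ _ h1 h3 h4 h5

end rp

section two

variable {V V' : Type} [AddCommGroup V] [LinearOrder V] [IsOrderedAddMonoid V] [Module ℚ V]
  [AddCommGroup V'] [LinearOrder V'] [IsOrderedAddMonoid V'] [Module ℚ V']
  {R : V → ℕ → Prop} {R' : V' → ℕ → Prop} {σ : Equiv.Perm ℕ}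

/-- The product relation. -/
def R2 (R : V → ℕ → Prop) (R' : V' → ℕ → Prop) (σ : Equiv.Perm ℕ) (p : V × V') (k : ℕ) : Prop :=
  R p.1 k ∧ R' p.2 (σ k)

theorem pr2 (hz : Z0 z) (h : PR z R) (h' : PR z' R') (hσ : ZIso z z' σ) : PR z (R2 R R' σ) := by
  refine ⟨?_, ?_, ?_⟩
  · rintro v v' m n ⟨h1, h2⟩ ⟨h3, h4⟩ hs q r k hk ha hw
    refine ⟨h.lin _ _ _ _ h1 h3 hs q r k hk ha hw, ?_⟩
    refine h'.lin _ _ _ _ h2 h4 ((hσ.sm _ _).2 hs) q r _ ((hσ.sm _ _).2 hk) ?_ ?_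
    · obtain ⟨c, h5, h6⟩ := hσ.sc m
      rw [h6 k hk, h6 n hs, h6 m (hz.refl m), ha]
      ring
    · rw [hσ.res, hσ.res, hσ.res, hw]
  · rintro v m k ⟨h1, h2⟩ h3 h4 h5
    refine ⟨h.low _ _ _ h1 h3 h4 h5, ?_⟩
    refine h'.low _ _ _ h2 (by rw [hσ.ord]; exact h3) ?_ (by rw [hσ.res, hσ.res, h5])
    obtain ⟨c, -, h6⟩ := hσ.sc k
    rw [h6 k (hz.refl k), h4, mul_zero]
  · rintro v m n ⟨h1, h2⟩ ⟨h3, h4⟩ hs
    exact h.fn _ _ _ h1 h3 hs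

theorem ZIso.ne_zero (hz : Z0 z) (hσ : ZIso z z' σ) {m : ℕ} : z'.2.1 (σ m) ≠ 0 ↔ z.2.1 m ≠ 0 := by
  obtain ⟨c, h5, h6⟩ := hσ.sc m
  rw [h6 m (hz.refl m)]
  constructor
  · intro h h7
    exact h (by rw [h7, mul_zero])
  · exact fun h => mul_ne_zero h5.ne' h

theorem ZIso.pos (hz : Z0 z) (hσ : ZIso z z' σ) {m : ℕ} : 0 < z'.2.1 (σ m) ↔ 0 < z.2.1 m := by
  obtain ⟨c, h5, h6⟩ := hσ.sc m
  rw [h6 m (hz.refl m)]
  exact mul_pos_iff_of_pos_left h5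

/-- One step of the back-and-forth construction. -/
theorem step (hz : Z0 z) (h : Rq z R) (h' : Rq z' R') (hσ : ZIso z z' σ)
    (hc : ∀ v m, R v m → ∃ v', R' v' (σ m))
    (P : Submodule ℚ (V × V')) [FiniteDimensional ℚ P] (hP : Tot z (R2 R R' σ) P) (g : V) :
    ∃ P' : Submodule ℚ (V × V'), P ≤ P' ∧ FiniteDimensional ℚ P' ∧ Tot z (R2 R R' σ) P' ∧
      ∃ v', (g, v') ∈ P' := by
  by_cases hg : ∃ v', (g, v') ∈ P
  · exact ⟨P, le_rfl, inferInstance, hP, hg⟩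
  have hpr := pr2 hz h.toPR h'.toPR hσ
  obtain ⟨p, hp, m, h1, h2, h3⟩ := best hz h.toPR hpr (LinearMap.fst ℚ V V')
    (fun _ _ h => h.1) P g (by
      intro p hp
      have h1 : g - p.1 ≠ 0 := by
        intro h2
        rw [sub_eq_zero] at h2
        exact hg ⟨p.2, by rw [h2]; exact hp⟩
      exact h.tot _ h1)
  change R (g - p.1) m at h2
  obtain ⟨b', hb'⟩ := hc _ _ h2
  refine ⟨P ⊔ Submodule.span ℚ {(g - p.1, b')}, le_sup_left, inferInstance,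
    join hz hpr hP (b := (g - p.1, b')) (m := m) ⟨h2, hb'⟩ h1 h3, p.2 + b', ?_⟩
  refine Submodule.mem_sup.2 ⟨p, hp, (g - p.1, b'), Submodule.mem_span_singleton_self _, ?_⟩
  ext
  · simp
  · simp

theorem tot_swap (hz : Z0 z) (hσ : ZIso z z' σ)
    {P : Submodule ℚ (V × V')} (hP : Tot z (R2 R R' σ) P) :
    Tot z' (R2 R' R σ⁻¹) (P.map (LinearEquiv.prodComm ℚ V V').toLinearMap) := by
  rintro v ⟨p, hp, rfl⟩ hv
  obtain ⟨k, h1, h2, h3⟩ := hP p hp (by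
    rintro rfl
    exact hv (by simp))
  refine ⟨σ k, (hσ.ne_zero hz).2 h1, h3, ?_⟩
  rw [show σ⁻¹ (σ k) = k by simp]
  exact h2

theorem step2 (hz : Z0 z) (hz' : Z0 z') (h : Rq z R) (h' : Rq z' R') (hσ : ZIso z z' σ)
    (hc : ∀ v m, R v m → ∃ v', R' v' (σ m)) (hc' : ∀ v' m, R' v' m → ∃ v, R v (σ⁻¹ m))
    (P : Submodule ℚ (V × V')) [FiniteDimensional ℚ P] (hP : Tot z (R2 R R' σ) P) (g : V) (g' : V') :
    ∃ P' : Submodule ℚ (V × V'), P ≤ P' ∧ FiniteDimensional ℚ P' ∧ Tot z (R2 R R' σ) P' ∧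
      (∃ v', (g, v') ∈ P') ∧ ∃ v, (v, g') ∈ P' := by
  obtain ⟨P1, h1, h2, h3, h4⟩ := step hz h h' hσ hc P hP g
  obtain ⟨P2, h5, h6, h7, v, h8⟩ := step hz' h' h hσ.symm hc' _ (tot_swap hz hσ h3) g'
  have h9 := tot_swap hz' hσ.symm h7
  rw [inv_inv] at h9
  refine ⟨P2.map (LinearEquiv.prodComm ℚ V' V).toLinearMap, ?_, inferInstance, h9, ?_, ?_⟩
  · intro p hp
    exact ⟨(p.2, p.1), h5 ⟨p, h1 hp, rfl⟩, rfl⟩
  · obtain ⟨v', h10⟩ := h4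
    exact ⟨v', (v', g), h5 ⟨(g, v'), h10, rfl⟩, rfl⟩
  · exact ⟨v, (g', v), h8, rfl⟩

/-- Ordered vector spaces with isomorphic index structures are isomorphic, over a given finite
part. -/
theorem unique' (hz : Z0 z) (hz' : Z0 z') (h : Rq z R) (h' : Rq z' R') (hσ : ZIso z z' σ)
    (hc : ∀ v m, R v m → ∃ v', R' v' (σ m)) (hc' : ∀ v' m, R' v' m → ∃ v, R v (σ⁻¹ m))
    (P₀ : Submodule ℚ (V × V')) [FiniteDimensional ℚ P₀] (hP₀ : Tot z (R2 R R' σ) P₀)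
    [Countable V] [Countable V'] : ∃ θ : V ≃ V', (∀ v w, θ (v + w) = θ v + θ w) ∧
      (∀ v w, θ v < θ w ↔ v < w) ∧ (∀ v m, R v m ↔ R' (θ v) (σ m)) ∧ ∀ p ∈ P₀, θ p.1 = p.2 := by
  classical
  obtain ⟨e, he⟩ := exists_surjective_nat V
  obtain ⟨e', he'⟩ := exists_surjective_nat V'
  let St := {P : Submodule ℚ (V × V') // FiniteDimensional ℚ P ∧ Tot z (R2 R R' σ) P}
  have stp : ∀ (n : ℕ) (P : St), ∃ P' : St, P.1 ≤ P'.1 ∧ (∃ v', (e n, v') ∈ P'.1) ∧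
      ∃ v, (v, e' n) ∈ P'.1 := by
    intro n P
    have := P.2.1
    obtain ⟨P', h1, h2, h3, h4, h5⟩ := step2 hz hz' h h' hσ hc hc' P.1 P.2.2 (e n) (e' n)
    exact ⟨⟨P', h2, h3⟩, h1, h4, h5⟩
  choose nx hnx1 hnx2 hnx3 using stp
  obtain ⟨s, hs0, hs⟩ : ∃ s : ℕ → St, (s 0).1 = P₀ ∧ ∀ n, s (n + 1) = nx n (s n) :=
    ⟨fun n => Nat.rec ⟨P₀, inferInstance, hP₀⟩ (fun n q => nx n q) n, rfl, fun _ => rfl⟩
  have hmono : Monotone (fun n => (s n).1) := by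
    apply monotone_nat_of_le_succ
    intro n
    rw [hs]
    exact hnx1 n (s n)
  have hf : ∀ v, ∃ v' n, (v, v') ∈ (s n).1 := by
    intro v
    obtain ⟨n, rfl⟩ := he v
    obtain ⟨v', h1⟩ := hnx2 n (s n)
    exact ⟨v', n + 1, by rw [hs]; exact h1⟩
  have hg : ∀ v', ∃ v n, (v, v') ∈ (s n).1 := by
    intro v'
    obtain ⟨n, rfl⟩ := he' v'
    obtain ⟨v, h1⟩ := hnx3 n (s n)
    exact ⟨v, n + 1, by rw [hs]; exact h1⟩
  have hz1 : ∀ v' n, ((0 : V), v') ∈ (s n).1 → v' = 0 := by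
    intro v' n hv
    by_contra hne
    obtain ⟨k, h1, h2, -⟩ := (s n).2.2 _ hv (fun h => hne (congrArg Prod.snd h))
    exact h.ne_zero hz h2 h1 rfl
  have hz2 : ∀ v n, (v, (0 : V')) ∈ (s n).1 → v = 0 := by
    intro v n hv
    by_contra hne
    obtain ⟨k, h1, -, h2⟩ := (s n).2.2 _ hv (fun h => hne (congrArg Prod.fst h))
    exact h'.ne_zero hz' h2 ((hσ.ne_zero hz).2 h1) rfl
  have hfu : ∀ v v1 v2 n1 n2, (v, v1) ∈ (s n1).1 → (v, v2) ∈ (s n2).1 → v1 = v2 := by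
    intro v v1 v2 n1 n2 h1 h2
    have h3 := hmono (le_max_left n1 n2) h1
    have h4 := hmono (le_max_right n1 n2) h2
    have h5 := Submodule.sub_mem _ h3 h4
    rw [Prod.mk_sub_mk, sub_self] at h5
    exact sub_eq_zero.1 (hz1 _ _ h5)
  have hgu : ∀ v v1 v2 n1 n2, (v1, v) ∈ (s n1).1 → (v2, v) ∈ (s n2).1 → v1 = v2 := by
    intro v v1 v2 n1 n2 h1 h2
    have h3 := hmono (le_max_left n1 n2) h1
    have h4 := hmono (le_max_right n1 n2) h2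
    have h5 := Submodule.sub_mem _ h3 h4
    rw [Prod.mk_sub_mk, sub_self] at h5
    exact sub_eq_zero.1 (hz2 _ _ h5)
  choose f fn hf using hf
  choose g gn hg using hg
  have hadd : ∀ v w, f (v + w) = f v + f w := by
    intro v w
    have h3 := hmono (le_max_left (fn v) (fn w)) (hf v)
    have h4 := hmono (le_max_right (fn v) (fn w)) (hf w)
    exact hfu _ _ _ _ _ (hf (v + w)) (Submodule.add_mem _ h3 h4)
  have hf0 : f 0 = 0 := hz1 _ _ (hf 0)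
  have hneg : ∀ v, f (-v) = - f v := by
    intro v
    apply eq_neg_of_add_eq_zero_left
    rw [← hadd, neg_add_cancel, hf0]
  have hpos : ∀ v, 0 < f v ↔ 0 < v := by
    intro v
    by_cases hv : v = 0
    · rw [hv, hf0]
      simp
    · obtain ⟨k, h1, h2, h3⟩ := (s (fn v)).2.2 _ (hf v) (fun h => hv (congrArg Prod.fst h))
      rw [h.pos_iff hz h2 h1, h'.pos_iff hz' h3 ((hσ.ne_zero hz).2 h1), hσ.pos hz]
  refine ⟨⟨f, g, fun v => ?_, fun v => ?_⟩, hadd, ?_, ?_, ?_⟩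
  · exact hgu _ _ _ _ _ (hg (f v)) (hf v)
  · exact hfu _ _ _ _ _ (hf (g v)) (hg v)
  · intro v w
    show f v < f w ↔ v < w
    have h1 := hpos (w - v)
    rw [sub_eq_add_neg, hadd, hneg, ← sub_eq_add_neg, ← sub_eq_add_neg, sub_pos, sub_pos] at h1
    exact h1
  · intro v m
    show R v m ↔ R' (f v) (σ m)
    have h0 : z'.2.1 (σ m) = 0 ↔ z.2.1 m = 0 := by
      have := hσ.ne_zero hz (m := m)
      rw [not_iff_not] at this
      exact this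
    by_cases hv : v = 0
    · rw [hv, hf0, h.zero_iff hz, h'.zero_iff hz', hσ.res, h0]
      have h1 : (∃ v, R v m) ↔ ∃ v', R' v' (σ m) := by
        constructor
        · rintro ⟨v, hv⟩
          exact hc v m hv
        · rintro ⟨v', hv'⟩
          obtain ⟨v, hv⟩ := hc' v' _ hv'
          rw [show σ⁻¹ (σ m) = m by simp] at hv
          exact ⟨v, hv⟩
      rw [h1]
    · obtain ⟨k, h1, h2, h3⟩ := (s (fn v)).2.2 _ (hf v) (fun h => hv (congrArg Prod.fst h))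
      rw [h.iff_of hz h2 h1, h'.iff_of hz' h3 ((hσ.ne_zero hz).2 h1), σ.injective.eq_iff, hσ.ord,
        hσ.res, hσ.res, h0]
  · intro p hp
    rw [← hs0] at hp
    exact hfu _ _ _ _ _ (hf p.1) hp

/-- Ordered vector spaces with isomorphic index structures are isomorphic. -/
theorem unique (hz : Z0 z) (hz' : Z0 z') (h : Rp z R) (h' : Rp z' R') (hσ : ZIso z z' σ)
    (P₀ : Submodule ℚ (V × V')) [FiniteDimensional ℚ P₀] (hP₀ : Tot z (R2 R R' σ) P₀)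
    [Countable V] [Countable V'] : ∃ θ : V ≃ V', (∀ v w, θ (v + w) = θ v + θ w) ∧
      (∀ v w, θ v < θ w ↔ v < w) ∧ (∀ v m, R v m ↔ R' (θ v) (σ m)) ∧ ∀ p ∈ P₀, θ p.1 = p.2 :=
  unique' hz hz' h.toRq h'.toRq hσ (fun _ _ _ => h'.sur _) (fun _ _ _ => h.sur _) P₀ hP₀

end two

end Pool.Agent.Y566.ZG
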