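import Pool.Agent.Y566.ZG.Code

set_option autoImplicit false
set_option linter.unusedSectionVars false

/-! Measurability of the codes, and the dichotomy for codes of index structures. -/

namespace Pool.Agent.Y566.ZG

open Set MeasureTheory
open Pool.Agent.H533R2.VO (RS RIso Dich VC lift OS Ic BlkV)
open Pool.Agent.H899R2.VP (St Adj PIso BF IsoOn BF_iff labels zipSet)
open Pool.Agent.TH783.TR
open Pool.Agent.TH783.OV (SI mdec)

variable {C : Type} [AddCommGroup C] [MeasurableSpace C] [DiscreteMeasurableSpace C] [Countable C]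

theorem m1 (m n : ℕ) (b : Bool) : Measurable fun y : Yc C => y.1.1 m n = b := by
  rw [← measurableSet_setOfPred]
  have h : Measurable fun y : Yc C => y.1.1 m n :=
    measurable_pi_iff.1 (measurable_pi_iff.1 (measurable_fst.comp measurable_fst) m) n
  exact h (measurableSet_singleton b)

theorem m2 (m : ℕ) : Measurable fun y : Yc C => y.1.2.1 m :=
  (measurable_pi_apply m).comp ((measurable_fst.comp measurable_snd).comp measurable_fst)

theorem m3 (m : ℕ) : Measurable fun y : Yc C => y.1.2.2 m :=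
  (measurable_pi_apply m).comp ((measurable_snd.comp measurable_snd).comp measurable_fst)

theorem m4 (m t : ℕ) (b : Bool) : Measurable fun y : Yc C => y.2 m t = b := by
  rw [← measurableSet_setOfPred]
  have h : Measurable fun y : Yc C => y.2 m t :=
    measurable_pi_iff.1 (measurable_pi_iff.1 measurable_snd m) t
  exact h (measurableSet_singleton b)

theorem meq {X : Type} [MeasurableSpace X] {f g : X → ℝ} (hf : Measurable f) (hg : Measurable g) :
    Measurable fun z => f z = g z := by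
  rw [← measurableSet_setOfPred]
  exact measurableSet_eq_fun hf hg

theorem mlt {X : Type} [MeasurableSpace X] {f g : X → ℝ} (hf : Measurable f) (hg : Measurable g) :
    Measurable fun z => f z < g z := by
  rw [← measurableSet_setOfPred]
  exact measurableSet_lt hf hg

theorem mle {X : Type} [MeasurableSpace X] {f g : X → ℝ} (hf : Measurable f) (hg : Measurable g) :
    Measurable fun z => f z ≤ g z := by
  rw [← measurableSet_setOfPred]
  exact measurableSet_le hf hg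

theorem msm (m n : ℕ) : Measurable fun y : Yc C => sm y.1 m n :=
  (m1 m n false).and (m1 n m false)

theorem mq3 (m n : ℕ) : Measurable fun y : Yc C => y.1.2.2 m = y.1.2.2 n :=
  Hq.meas_eq (m3 m) (m3 n)

theorem meas_Z0 : MeasurableSet {y : Yc C | Z0 y.1} := by
  have h : ∀ y : Yc C, Z0 y.1 ↔ ((∀ m, y.1.1 m m = false) ∧
      (∀ m n k, y.1.1 m n = true → y.1.1 n k = true → y.1.1 m k = true) ∧
      (∀ m n k, y.1.1 m k = true → y.1.1 m n = true ∨ y.1.1 n k = true) ∧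
      (∀ m n, sm y.1 m n → y.1.2.1 m = y.1.2.1 n → y.1.2.2 m = y.1.2.2 n → m = n) ∧
      (∀ m n, sm y.1 m n → ∀ q r : ℚ, ∃ k, sm y.1 m k ∧
        y.1.2.1 k = q * y.1.2.1 m + r * y.1.2.1 n ∧
        y.1.2.2 k = q • y.1.2.2 m + r • y.1.2.2 n) ∧
      (∀ m, ∃ k, sm y.1 m k ∧ y.1.2.1 k ≠ 0) ∧
      (∀ m n, y.1.1 m n = true → ∃ k, sm y.1 m k ∧ y.1.2.1 k = 0 ∧ y.1.2.2 k = y.1.2.2 n) ∧
      (∀ m, y.1.2.1 m = 0 → y.1.2.2 m ≠ 0 → ∃ n, y.1.1 m n = true ∧ y.1.2.1 n ≠ 0 ∧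
        y.1.2.2 n = y.1.2.2 m)) := fun y =>
    ⟨fun h => ⟨h.irr, h.tr, h.wk, h.inj, h.lin, h.nz, h.up, h.dn⟩,
      fun ⟨h1, h2, h3, h4, h5, h6, h7, h8⟩ => ⟨h1, h2, h3, h4, h5, h6, h7, h8⟩⟩
  simp only [h]
  rw [measurableSet_setOfPred]
  refine Measurable.and ?_ (Measurable.and ?_ (Measurable.and ?_ (Measurable.and ?_
    (Measurable.and ?_ (Measurable.and ?_ (Measurable.and ?_ ?_))))))
  · exact Measurable.forall fun m => m1 m m false
  · exact Measurable.forall fun m => Measurable.forall fun n => Measurable.forall fun k =>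
      (m1 _ _ _).imp ((m1 _ _ _).imp (m1 _ _ _))
  · exact Measurable.forall fun m => Measurable.forall fun n => Measurable.forall fun k =>
      (m1 _ _ _).imp ((m1 _ _ _).or (m1 _ _ _))
  · exact Measurable.forall fun m => Measurable.forall fun n =>
      (msm _ _).imp ((meq (m2 _) (m2 _)).imp ((mq3 _ _).imp measurable_const))
  · exact Measurable.forall fun m => Measurable.forall fun n =>
      (msm _ _).imp (Measurable.forall fun q => Measurable.forall fun r =>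
        Measurable.exists fun k => (msm _ _).and ((meq (m2 _)
          (((m2 _).const_mul _).add ((m2 _).const_mul _))).and
            (Hq.meas_eq (m3 _) (Hq.meas_comb (m3 _) (m3 _) _ _))))
  · exact Measurable.forall fun m =>
      Measurable.exists fun k => (msm _ _).and (meq (m2 _) measurable_const).not
  · exact Measurable.forall fun m => Measurable.forall fun n => (m1 _ _ _).imp
      (Measurable.exists fun k => (msm _ _).and ((meq (m2 _) measurable_const).and (mq3 _ _)))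
  · exact Measurable.forall fun m => (meq (m2 _) measurable_const).imp
      ((Hq.meas_eq (m3 _) measurable_const).not.imp
      (Measurable.exists fun n => (m1 _ _ _).and
        ((meq (m2 _) measurable_const).not.and (mq3 _ _))))

theorem meas_Nm : MeasurableSet {y : Yc C | Nm y} := by
  unfold Nm
  rw [measurableSet_setOfPred]
  refine Measurable.forall fun m => Measurable.imp (Measurable.and ?_ ?_) ?_
  · exact mlt measurable_const (m2 _)
  · exact Measurable.forall fun n => Measurable.imp measurable_const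
      ((msm _ _).imp (mle (m2 _) measurable_const))
  · exact meq (m2 _) measurable_const

theorem mkR_meas {X : Type} [MeasurableSpace X] {P : X → J C → ℕ → ℕ → Prop} (k : ℕ → J C)
    (h1 : ∀ j m n, Measurable fun x => P x j m n) : Measurable fun x => mkR k (P x) := by
  refine measurable_pi_iff.2 fun i => measurable_pi_iff.2 fun t => ?_
  exact mdec (h1 _ _ _) _

theorem Ph_meas (k : ℕ → J C) : Measurable (Ph k) := by
  refine Measurable.prodMk (measurable_fst.comp measurable_fst) (mkR_meas k ?_)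
  rintro (⟨i, j⟩ | ⟨q, c⟩ | t) m n
  · exact (msm _ _).and (mlt ((m2 _).const_mul _) ((m2 _).const_mul _))
  · refine (msm _ _).and ?_
    rw [← measurableSet_setOfPred]
    exact ((Hq.measurable_ev q).comp (m3 m)) (measurableSet_singleton c)
  · exact (msm _ _).and (m4 _ _ _)

/-- Invariant sets of coloured index structures. -/
def InvD (D : Set (Yc C)) : Prop := (∀ y ∈ D, Z0 y.1) ∧
  ∀ y ∈ D, ∀ y' σ, YIso y y' σ → y' ∈ D

theorem D_meas {k : ℕ → J C} (hk : Function.Surjective k) {D : Set (Yc C)}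
    (hD : MeasurableSet D) (hI : InvD D) : MeasurableSet (Ph k '' D) := by
  have h1 : Ph k '' D = Ph k '' (D ∩ {y : Yc C | Nm y}) := by
    apply Subset.antisymm
    · rintro M ⟨y, hy, rfl⟩
      obtain ⟨y', h2, h3⟩ := exists_nm (hI.1 y hy)
      exact ⟨y', ⟨hI.2 y hy y' 1 h3, h2⟩, Ph_of_iso hk (hI.1 y hy) h3⟩
    · exact image_mono inter_subset_left
  rw [h1]
  refine (hD.inter meas_Nm).image_of_measurable_injOn (Ph_meas k) ?_
  rintro y ⟨h2, h3⟩ y' ⟨h4, h5⟩ h6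
  exact nm_inj hk (hI.1 y h2) h3 h5 h6

theorem D_inv {k : ℕ → J C} (hk : Function.Surjective k) {D : Set (Yc C)} (hI : InvD D)
    {M N : St ar2} (hM : M ∈ Ph k '' D) (h : SI M N) : N ∈ Ph k '' D := by
  obtain ⟨y, hy, rfl⟩ := hM
  obtain ⟨σ, h1, h2⟩ := h
  have hinv : ∀ k, σ.symm (σ k) = k := by simp
  have hσ : YIso y ((fun m n => y.1.1 (σ.symm m) (σ.symm n), fun m => y.1.2.1 (σ.symm m),
      fun m => y.1.2.2 (σ.symm m)), fun m => y.2 (σ.symm m)) σ := by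
    refine ⟨⟨?_, ?_, ?_⟩, ?_⟩
    · intro m n
      show y.1.1 (σ.symm (σ m)) (σ.symm (σ n)) = _
      rw [hinv, hinv]
    · intro m
      refine ⟨1, one_pos, fun n _ => ?_⟩
      show y.1.2.1 (σ.symm (σ n)) = _
      rw [hinv, one_mul]
    · intro m
      show y.1.2.2 (σ.symm (σ m)) = _
      rw [hinv]
    · intro m t
      show y.2 (σ.symm (σ m)) t = _
      rw [hinv]
  refine ⟨_, hI.2 y hy _ σ hσ, ?_⟩
  obtain ⟨h3, h4⟩ := (Ph_iso hk (hI.1 y hy) σ).2 hσ
  refine Prod.ext ?_ ?_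
  · funext m n
    have h5 := h1 (σ.symm m) (σ.symm n)
    have h6 := h3 (σ.symm m) (σ.symm n)
    rw [σ.apply_symm_apply, σ.apply_symm_apply] at h5 h6
    rw [h5, h6]
  · funext i v
    have h5 := h2 i (σ.symm ∘ v)
    have h6 := h4 i (σ.symm ∘ v)
    have h7 : ⇑σ ∘ ⇑σ.symm ∘ v = v := by
      funext j
      simp
    rw [h7] at h5 h6
    rw [h5, h6]

/-! ### One block -/

/-- One block. -/
structure Zb (y : Yc C) : Prop where
  o : y.1.1 = fun _ _ => false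
  inj : ∀ m n, y.1.2.1 m = y.1.2.1 n → y.1.2.2 m = y.1.2.2 n → m = n
  pos : ∃ p, 0 < y.1.2.1 p

theorem Zb.sm {y : Yc C} (h : Zb y) (m n : ℕ) : sm y.1 m n := by
  unfold ZG.sm
  rw [h.o]
  exact ⟨rfl, rfl⟩

/-- Codes of one block. -/
def VB (k : ℕ → J C) (x : RS ar2) : Prop := ∃ y : Yc C, Zb y ∧ x = mkR k (PZ y)

theorem piso_P {k : ℕ → J C} (hk : Function.Surjective k) {P P' : J C → ℕ → ℕ → Prop}
    {r : Set (ℕ × ℕ)} (h : PIso (lift (mkR k P)) (lift (mkR k P')) r) :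
    ∀ j, ∀ u ∈ r, ∀ v ∈ r, (P j u.1 v.1 ↔ P' j u.2 v.2) := by
  rw [lift_piso] at h
  intro j u hu v hv
  obtain ⟨i, rfl⟩ := hk j
  have := h.2 i ![u, v] (by
    intro j
    change Fin 2 at j
    match j with
    | 0 => exact hu
    | 1 => exact hv)
  simp only [mkR, decide_eq_decide] at this
  exact this

theorem same_of_BF {k : ℕ → J C} (hk : Function.Surjective k) {y y' : Yc C} (h1 : Zb y)
    (h1' : Zb y')
    {q : Set (ℕ × ℕ)} {p p' m m' : ℕ} (hp : 0 < y.1.2.1 p) (hp' : 0 < y'.1.2.1 p')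
    (hpq : (p, p') ∈ q) (hmq : (m, m') ∈ q)
    (h : PIso (lift (mkR k (PZ y))) (lift (mkR k (PZ y'))) q) :
    y.1.2.1 m / y.1.2.1 p = y'.1.2.1 m' / y'.1.2.1 p' ∧ y.1.2.2 m = y'.1.2.2 m' ∧
      y.2 m = y'.2 m' := by
  have hP := piso_P hk h
  refine ⟨ratio hp hp' fun a b => ?_, ?_, ?_⟩
  · have h2 : _ ↔ _ := hP (Sum.inl (a, b)) _ hpq _ hmq
    constructor
    · intro h3
      exact (h2.1 ⟨h1.sm _ _, h3⟩).2
    · intro h3
      exact (h2.2 ⟨h1'.sm _ _, h3⟩).2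
  · refine Hq.ext fun q => ?_
    have h2 : _ ↔ _ := hP (Sum.inr (Sum.inl (q, (y.1.2.2 m).ev q))) _ hmq _ hmq
    exact (h2.1 ⟨h1.sm _ _, rfl⟩).2.symm
  · funext t
    have h2 : _ ↔ _ := hP (Sum.inr (Sum.inr t)) _ hmq _ hmq
    rw [Bool.eq_iff_iff]
    exact ⟨fun h3 => (h2.1 ⟨h1.sm _ _, h3⟩).2, fun h3 => (h2.2 ⟨h1'.sm _ _, h3⟩).2⟩

theorem riso_of_BF {k : ℕ → J C} (hk : Function.Surjective k) {y y' : Yc C} (h1 : Zb y)
    (h1' : Zb y') {p p' : ℕ} (hp : 0 < y.1.2.1 p) (hp' : 0 < y'.1.2.1 p')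
    (h : BF (lift (mkR k (PZ y))) (lift (mkR k (PZ y'))) univ univ (1 : ℕ) {(p, p')}) :
    RIso (mkR k (PZ y)) (mkR k (PZ y')) := by
  have hlt : ((0 : ℕ) : Ordinal.{0}) < (1 : ℕ) := by exact_mod_cast zero_lt_one
  have fw : ∀ m, ∃ m', y.1.2.1 m / y.1.2.1 p = y'.1.2.1 m' / y'.1.2.1 p' ∧
      y.1.2.2 m = y'.1.2.2 m' ∧ y.2 m = y'.2 m' := by
    intro m
    obtain ⟨m', -, h2⟩ := h.forth hlt (mem_univ m)
    exact ⟨m', same_of_BF hk h1 h1' hp hp' (mem_insert_of_mem _ (mem_singleton _))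
      (mem_insert _ _) h2.piso⟩
  have bw : ∀ m', ∃ m, y.1.2.1 m / y.1.2.1 p = y'.1.2.1 m' / y'.1.2.1 p' ∧
      y.1.2.2 m = y'.1.2.2 m' ∧ y.2 m = y'.2 m' := by
    intro m'
    obtain ⟨m, -, h2⟩ := h.back hlt (mem_univ m')
    exact ⟨m, same_of_BF hk h1 h1' hp hp' (mem_insert_of_mem _ (mem_singleton _))
      (mem_insert _ _) h2.piso⟩
  choose f hf1 hf2 hf3 using fw
  choose g hg1 hg2 hg3 using bw
  have hgf : ∀ m, g (f m) = m := by
    intro m
    refine h1.inj _ _ ?_ ?_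
    · have := (hg1 (f m)).trans (hf1 m).symm
      exact (div_left_inj' hp.ne').1 this
    · rw [hg2, hf2]
  have hfg : ∀ m, f (g m) = m := by
    intro m
    refine h1'.inj _ _ ?_ ?_
    · have := (hf1 (g m)).symm.trans (hg1 m)
      exact (div_left_inj' hp'.ne').1 this
    · rw [← hf2, hg2]
  set c := y'.1.2.1 p' / y.1.2.1 p with hc
  have hc0 : 0 < c := div_pos hp' hp
  have hfc : ∀ m, y'.1.2.1 (f m) = c * y.1.2.1 m := by
    intro m
    have := hf1 m
    rw [div_eq_div_iff hp.ne' hp'.ne'] at this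
    rw [hc, div_mul_eq_mul_div, eq_div_iff hp.ne', ← this]
    ring
  refine ⟨⟨f, g, hgf, hfg⟩, ?_⟩
  refine (mkR_iff hk f).2 ?_
  rintro (⟨i, j⟩ | ⟨q, d⟩ | t) m n
  · show sm y'.1 _ _ ∧ i * y'.1.2.1 (f m) < j * y'.1.2.1 (f n) ↔
      sm y.1 _ _ ∧ i * y.1.2.1 m < j * y.1.2.1 n
    rw [hfc, hfc, mul_left_comm, mul_left_comm (j : ℝ), mul_lt_mul_iff_right₀ hc0]
    exact ⟨fun h => ⟨h1.sm _ _, h.2⟩, fun h => ⟨h1'.sm _ _, h.2⟩⟩
  · show sm y'.1 _ _ ∧ (y'.1.2.2 (f m)).ev q = d ↔ sm y.1 _ _ ∧ (y.1.2.2 m).ev q = d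
    rw [← hf2]
    exact ⟨fun h => ⟨h1.sm _ _, h.2⟩, fun h => ⟨h1'.sm _ _, h.2⟩⟩
  · show sm y'.1 _ _ ∧ y'.2 (f m) t = true ↔ sm y.1 _ _ ∧ y.2 m t = true
    rw [← hf3]
    exact ⟨fun h => ⟨h1.sm _ _, h.2⟩, fun h => ⟨h1'.sm _ _, h.2⟩⟩

theorem vcB {k : ℕ → J C} (hk : Function.Surjective k) : VC (VB k) := by
  classical
  intro B hB hBi hBV
  by_cases few : ∃ g : (ℕ → Bool) → RS ar2, Continuous g ∧ (∀ c, g c ∈ B) ∧
      ∀ c d, RIso (g c) (g d) → c = d
  · exact Or.inr few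
  left
  set K' : Set (St ar2) := {M | M.1 = (fun _ _ => false) ∧ M.2 ∈ B} with hK'
  have hK'm : MeasurableSet K' := by
    refine MeasurableSet.inter ?_ (measurable_snd hB)
    exact (isClosed_eq continuous_fst continuous_const).measurableSet
  have hl : ∀ M ∈ K', M = lift M.2 := fun M hM => Prod.ext hM.1 rfl
  have few' : ¬ ∃ g : (ℕ → Bool) → St ar2, Continuous g ∧ (∀ c, g c ∈ K') ∧
      ∀ c d, IsoOn (g c) (g d) univ univ ∅ → c = d := by
    rintro ⟨h, h1, h2, h3⟩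
    refine few ⟨fun c => (h c).2, continuous_snd.comp h1, fun c => (h2 c).2, fun c d hcd => ?_⟩
    refine h3 c d ?_
    rw [hl _ (h2 c), hl _ (h2 d)]
    exact riso_iff.1 hcd
  obtain ⟨lab, hlab⟩ := labels hK'm few' (1 : ℕ) (by
    exact (Ordinal.natCast_lt_omega0 1).trans_le (Ordinal.omega0_le_omega 1))
  have hdat : ∀ x : RS ar2, ∃ (y : Yc C) (p : ℕ), x ∈ B → Zb y ∧
      x = mkR k (PZ y) ∧ 0 < y.1.2.1 p := by
    intro x
    by_cases hx : x ∈ B
    · obtain ⟨y, h1, h3⟩ := hBV x hx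
      obtain ⟨p, hp⟩ := h1.pos
      exact ⟨y, p, fun _ => ⟨h1, h3, hp⟩⟩
    · exact ⟨((fun _ _ => false, fun _ => 0, fun _ => 0), fun _ _ => false), 0,
        fun h => absurd h hx⟩
  choose zz pp hzp using hdat
  let nn : RS ar2 → ℕ := fun x => lab (lift x) [pp x]
  refine ⟨fun n => if h : ∃ x ∈ B, nn x = n then h.choose else fun _ _ => false, fun x hx => ?_⟩
  refine ⟨nn x, ?_⟩
  have hex : ∃ y ∈ B, nn y = nn x := ⟨x, hx, rfl⟩
  simp only [dif_pos hex]
  obtain ⟨hy1, hy2⟩ := hex.choose_spec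
  set y := hex.choose
  obtain ⟨a1, a3, a4⟩ := hzp y hy1
  obtain ⟨b1, b3, b4⟩ := hzp x hx
  have h5 := hlab (lift y) ⟨rfl, hy1⟩ (lift x) ⟨rfl, hx⟩ [pp y] [pp x] rfl hy2
  have h6 : zipSet [pp y] [pp x] = {(pp y, pp x)} := by
    ext u
    simp [zipSet]
  rw [h6] at h5
  have h7 : BF (lift (mkR k (PZ (zz y)))) (lift (mkR k (PZ (zz x)))) univ univ (1 : ℕ)
      {(pp y, pp x)} := by
    rw [← a3, ← b3]
    exact h5
  have h8 := riso_of_BF hk a1 b1 a4 b4 h7
  rw [← a3, ← b3] at h8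
  exact h8

theorem nadj_of_sm {k : ℕ → J C} {y : Yc C} {m n : ℕ} (h : sm y.1 m n) : ¬ Adj (Ph k y) m n := by
  intro h1
  have h2 : y.1.1 m n = true := h1
  rw [h.1] at h2
  exact Bool.false_ne_true h2

theorem PZ_sm {y : Yc C} {j : J C} {m n : ℕ} (h : PZ y j m n) : sm y.1 m n := by
  rcases j with ⟨i, j⟩ | ⟨q, c⟩ | t
  · exact h.1
  · exact h.1
  · exact h.1

theorem Ph_os (k : ℕ → J C) {y : Yc C} (hz : Z0 y.1) : OS (Ph k y) := by
  classical
  refine ⟨?_, ?_, ?_, ?_⟩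
  · intro x h
    have h2 : y.1.1 x x = true := h
    rw [hz.irr] at h2
    exact Bool.false_ne_true h2
  · exact fun x z w h1 h2 => hz.tr x z w h1 h2
  · exact fun x z w h1 => hz.wk x z w h1
  · intro i t ht
    have h1 : sm y.1 (t (0 : Fin 2)) (t (1 : Fin 2)) := PZ_sm (of_decide_eq_true ht)
    intro j l
    change Fin 2 at j l
    match j, l with
    | 0, 0 => exact nadj_of_sm (hz.refl _)
    | 0, 1 => exact nadj_of_sm h1
    | 1, 0 => exact nadj_of_sm h1.symm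
    | 1, 1 => exact nadj_of_sm (hz.refl _)

theorem Ph_blk {k : ℕ → J C} (hk : Function.Surjective k) {y : Yc C} (hz : Z0 y.1) :
    BlkV (VB k) (Ph k y) := by
  intro x e he hI
  have hmem : ∀ u, sm y.1 x u ↔ ∃ n, e n = u := by
    intro u
    rw [← hI]
    unfold Ic sm
    show y.1.1 x u = false ∧ y.1.1 u x = false ↔ ¬ y.1.1 u x = true ∧ ¬ y.1.1 x u = true
    rw [Bool.not_eq_true, Bool.not_eq_true]
    exact and_comm
  have hxe : ∀ n, sm y.1 x (e n) := fun n => (hmem _).2 ⟨n, rfl⟩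
  have hee : ∀ m n, sm y.1 (e m) (e n) := fun m n => hz.trans (hxe m).symm (hxe n)
  set w : Yc C := ((fun _ _ => false, fun n => y.1.2.1 (e n), fun n => y.1.2.2 (e n)),
    fun n => y.2 (e n)) with hw
  have hws : ∀ m n, sm w.1 m n := fun m n => ⟨rfl, rfl⟩
  refine ⟨w, ⟨rfl, ?_, ?_⟩, ?_⟩
  · intro m n h h'
    exact he (hz.inj _ _ (hee m n) h h')
  · obtain ⟨p, hp1, hp2⟩ := hz.exists_pos x
    obtain ⟨n, rfl⟩ := (hmem p).1 hp1
    exact ⟨n, hp2⟩
  · funext i v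
    refine (mkR_iff hk (P := PZ w) (P' := PZ y) e).2 ?_ i v
    rintro (⟨i, j⟩ | ⟨q, c⟩ | t) m n
    · exact ⟨fun h => ⟨hws _ _, h.2⟩, fun h => ⟨hee _ _, h.2⟩⟩
    · exact ⟨fun h => ⟨hws _ _, h.2⟩, fun h => ⟨hee _ _, h.2⟩⟩
    · exact ⟨fun h => ⟨hws _ _, h.2⟩, fun h => ⟨hee _ _, h.2⟩⟩

theorem vcD {k : ℕ → J C} (hk : Function.Surjective k) {D : Set (Yc C)} (hI : InvD D)
    (B : Set (St ar2)) (hBD : B ⊆ Ph k '' D) (hB : MeasurableSet B)
    (hBi : ∀ y ∈ B, ∀ y', SI y y' → y' ∈ B) :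
    (∃ f : ℕ → St ar2, ∀ y ∈ B, ∃ n, f n ∈ B ∧ SI (f n) y) ∨
    (∃ g : (ℕ → Bool) → St ar2, Continuous g ∧ (∀ c, g c ∈ B) ∧
      ∀ c d, SI (g c) (g d) → c = d) := by
  rcases Pool.Agent.H533R2.VO.final ar2 (VB k) (vcB hk) B hB (by
      intro M N σ h1 h2
      constructor
      · intro hM
        exact hBi M hM N ⟨σ, h1, h2⟩
      · intro hN
        exact hBi N hN M (SI.symm ⟨σ, h1, h2⟩)) (by
      intro M hM
      obtain ⟨y, hy, rfl⟩ := hBD hM
      exact ⟨Ph_os k (hI.1 y hy), Ph_blk hk (hI.1 y hy)⟩) with ⟨f, hf⟩ | ⟨g, hg1, hg2, hg3⟩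
  · left
    refine ⟨f, fun y hy => ?_⟩
    obtain ⟨n, σ, h1, h2⟩ := hf y hy
    exact ⟨n, hBi y hy _ (SI.symm ⟨σ, h1, h2⟩), σ, h1, h2⟩
  · right
    exact ⟨g, hg1, hg2, fun c d h => hg3 c d h⟩

end Pool.Agent.Y566.ZG
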